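import Pool.Agent.Lib.MP_b07157_agD6.Defs
import Pool.Agent.Lib.MP_b07157_agC4.Chg

/-!
# Linear changes of coordinates and points of the curve
-/

noncomputable section

namespace MPb07157.D6

open MvPolynomial TL C4

variable {f : MvPolynomial (Fin 3) ℂ} {d : ℕ}

/-- The lines after a linear change of coordinates. -/
theorem lineP_aM (M : Matrix (Fin 3) (Fin 3) ℂ) (f : MvPolynomial (Fin 3) ℂ) (Q q : Fin 3 → ℂ) :
    lineP (aM M f) Q q = lineP f (M.mulVec Q) (M.mulVec q) := by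
  have h : (aeval (fun i => Polynomial.C (q i) + Polynomial.C (Q i) * Polynomial.X) :
      MvPolynomial (Fin 3) ℂ →ₐ[ℂ] Polynomial ℂ).comp (aM M) =
      aeval (fun i => Polynomial.C (M.mulVec q i) +
        Polynomial.C (M.mulVec Q i) * Polynomial.X) := by
    refine MvPolynomial.algHom_ext fun i => ?_
    rw [AlgHom.comp_apply]
    unfold aM
    rw [aeval_X, aeval_X, map_sum]
    simp only [map_mul, aeval_C, aeval_X, Polynomial.algebraMap_eq, Matrix.mulVec, dotProduct,
      Fin.sum_univ_three, map_add]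
    ring
  exact congrArg (fun φ => φ f) h

theorem mulVec_inv {M N : Matrix (Fin 3) (Fin 3) ℂ} (h : M * N = 1) (q : Fin 3 → ℂ) :
    M.mulVec (N.mulVec q) = q := by
  rw [Matrix.mulVec_mulVec, h, Matrix.one_mulVec]

theorem mulVec_ne {M N : Matrix (Fin 3) (Fin 3) ℂ} (h : N * M = 1) {Q : Fin 3 → ℂ} (hQ : Q ≠ 0) :
    M.mulVec Q ≠ 0 := by
  intro h1
  apply hQ
  rw [← mulVec_inv h Q, h1, Matrix.mulVec_zero]

theorem linInd_mulVec {M N : Matrix (Fin 3) (Fin 3) ℂ} (h : N * M = 1) {P q₁ q₂ : Fin 3 → ℂ}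
    (hli : LinearIndependent ℂ ![P, q₁, q₂]) :
    LinearIndependent ℂ ![M.mulVec P, M.mulVec q₁, M.mulVec q₂] := by
  have h1 : LinearMap.ker M.mulVecLin = ⊥ := by
    rw [LinearMap.ker_eq_bot]
    intro x y hxy
    rw [← mulVec_inv h x, ← mulVec_inv h y]
    exact congrArg N.mulVec hxy
  have h2 := hli.map' M.mulVecLin h1
  have h3 : (M.mulVecLin ∘ ![P, q₁, q₂] : Fin 3 → Fin 3 → ℂ) =
      ![M.mulVec P, M.mulVec q₁, M.mulVec q₂] := by
    funext i
    fin_cases i <;> rfl
  rwa [h3] at h2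

/-- The condition `CondPencil` does not depend on the coordinates. -/
theorem condPencil_aM {M N : Matrix (Fin 3) (Fin 3) ℂ} (h1 : M * N = 1) (h2 : N * M = 1)
    (h : CondPencil (aM M f) d) : CondPencil f d := by
  obtain ⟨Q, e, hQ, hed, he, hle, ⟨q, hq⟩, hor⟩ := h
  have hl : ∀ q, lineP f (M.mulVec Q) q = lineP (aM M f) Q (N.mulVec q) := by
    intro q
    rw [lineP_aM, mulVec_inv h1]
  refine ⟨M.mulVec Q, e, mulVec_ne h2 hQ, hed, he, fun q => ?_, ⟨M.mulVec q, ?_⟩, ?_⟩
  · rw [hl]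
    exact hle _
  · rw [← lineP_aM]
    exact hq
  · rcases hor with ⟨q₁, q₂, hli, hs1, hs2⟩ | hor
    · left
      refine ⟨M.mulVec q₁, M.mulVec q₂, linInd_mulVec h2 hli, ?_, ?_⟩
      · unfold SpecialAt
        rw [← lineP_aM]
        exact hs1
      · unfold SpecialAt
        rw [← lineP_aM]
        exact hs2
    · right
      intro q
      rw [hl]
      exact hor _

/-- A point of multiplicity at least four of a sextic curve. -/
theorem condPencil_of_mult {Q : Fin 3 → ℂ} (hQ : Q ≠ 0)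
    (h : ∀ q, (lineP f Q q).natDegree ≤ 2) : CondPencil f 6 := by
  classical
  set S : Set ℕ := {e | ∃ q, (lineP f Q q).natDegree = e} with hS
  have hbd : BddAbove S := ⟨2, by rintro _ ⟨q, rfl⟩; exact h q⟩
  have hne : S.Nonempty := ⟨_, 0, rfl⟩
  obtain ⟨q₀, hq₀⟩ := Nat.sSup_mem hne hbd
  set e := sSup S with he
  have he1 : ∀ q, (lineP f Q q).natDegree ≤ e := fun q => le_csSup hbd ⟨q, rfl⟩
  have he2 : e ≤ 2 := by rw [← hq₀]; exact h q₀
  refine ⟨Q, e, hQ, by omega, by omega, he1, ⟨q₀, hq₀⟩, Or.inr fun q => ?_⟩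
  exact (Multiset.toFinset_card_le _).trans ((Polynomial.card_roots' _).trans (h q))

theorem condPencil_of_multGe {M N : Matrix (Fin 3) (Fin 3) ℂ} (h1 : M * N = 1) (h2 : N * M = 1)
    {Q : Fin 3 → ℂ} (hQ : Q ≠ 0) (h : MultGe (aM M f) Q 2) : CondPencil f 6 := by
  refine condPencil_of_mult (mulVec_ne h2 hQ) fun q => ?_
  have h3 : lineP f (M.mulVec Q) q = lineP (aM M f) Q (N.mulVec q) := by
    rw [lineP_aM, mulVec_inv h1]
  rw [h3]
  exact h _

/-- The line through the points `P` and `x P`. -/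
theorem lineP_smul (hf : f.IsHomogeneous d) (P : Fin 3 → ℂ) :
    lineP f P 0 = Polynomial.C (eval P f) * Polynomial.X ^ d := by
  have h1 : lineP f P 0 = aeval (fun i => Polynomial.X * Polynomial.C (P i)) f := by
    unfold lineP
    congr 2
    funext i
    rw [Pi.zero_apply, Polynomial.C_0, zero_add, mul_comm]
  rw [h1, Embaux.aeval_homog hf, mul_comm]
  congr 1
  have h2 : (aeval (fun i => Polynomial.C (P i)) : MvPolynomial (Fin 3) ℂ →ₐ[ℂ] Polynomial ℂ) =
      (Algebra.ofId ℂ (Polynomial ℂ)).comp (aeval P) := by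
    refine MvPolynomial.algHom_ext fun i => ?_
    rw [AlgHom.comp_apply, aeval_X, aeval_X]
    rfl
  rw [h2, AlgHom.comp_apply, ← MvPolynomial.coe_aeval_eq_eval]
  rfl

theorem card_roots_comp (p : Polynomial ℂ) (x : ℂ) :
    (p.comp (Polynomial.X + Polynomial.C x)).roots.toFinset.card = p.roots.toFinset.card := by
  by_cases hp : p = 0
  · rw [hp, Polynomial.zero_comp]
  refine Finset.card_bij' (fun z _ => z + x) (fun z _ => z - x) ?_ ?_ ?_ ?_
  · intro z hz
    rw [Multiset.mem_toFinset, Polynomial.mem_roots', Polynomial.IsRoot.def] at hz ⊢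
    rw [Polynomial.eval_comp, Polynomial.eval_add, Polynomial.eval_X, Polynomial.eval_C] at hz
    exact ⟨hp, hz.2⟩
  · intro z hz
    rw [Multiset.mem_toFinset, Polynomial.mem_roots', Polynomial.IsRoot.def] at hz ⊢
    rw [Polynomial.eval_comp, Polynomial.eval_add, Polynomial.eval_X, Polynomial.eval_C,
      sub_add_cancel]
    exact ⟨Polynomial.comp_X_add_C_ne_zero_iff.2 hp, hz.2⟩
  · intro z _
    ring
  · intro z _
    ring

end MPb07157.D6
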