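import Pool.Agent.Lib.MP_b07157_agD6.Coord
import Pool.Agent.Lib.MP_b07157_agD6.Chg6
import Pool.Agent.Lib.MP_b07157_agD5.Main

/-!
# The strong monodromy conjecture for forms of degree at most six in three variables
-/

noncomputable section

namespace MPb07157

open MvPolynomial

namespace D6

variable {f : MvPolynomial (Fin 3) ℂ} {d : ℕ}

theorem linInd_add {P q₁ q₂ : Fin 3 → ℂ} (t : ℂ) (h : LinearIndependent ℂ ![P, q₁, q₂]) :
    LinearIndependent ℂ ![P, q₁ + t • q₂, q₂] := by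
  rw [Fintype.linearIndependent_iff] at h ⊢
  intro g hg
  rw [Fin.sum_univ_three] at hg
  simp only [Matrix.cons_val_zero, Matrix.cons_val_one, Matrix.cons_val] at hg
  have h1 := h ![g 0, g 1, g 1 * t + g 2] (by
    rw [Fin.sum_univ_three]
    simp only [Matrix.cons_val_zero, Matrix.cons_val_one, Matrix.cons_val]
    rw [← hg, smul_add, smul_smul, add_smul]
    abel)
  have e0 : g 0 = 0 := h1 0
  have e1 : g 1 = 0 := h1 1
  have e2 : g 1 * t + g 2 = 0 := h1 2
  rw [e1, zero_mul, zero_add] at e2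
  intro i
  fin_cases i
  · exact e0
  · exact e1
  · exact e2

theorem linInd_swap {P q₁ q₂ : Fin 3 → ℂ} (h : LinearIndependent ℂ ![P, q₁, q₂]) :
    LinearIndependent ℂ ![P, q₂, q₁] := by
  have h1 := h.comp (Equiv.swap (1 : Fin 3) 2) (Equiv.injective _)
  have h2 : (![P, q₁, q₂] : Fin 3 → Fin 3 → ℂ) ∘ (Equiv.swap (1 : Fin 3) 2) =
      ![P, q₂, q₁] := by
    funext i
    fin_cases i <;> rfl
  rwa [h2] at h1

/-- The case of a triple point, in suitable coordinates. -/
theorem root_coords (hf : f ≠ 0) (hh : f.IsHomogeneous 6) {P q₁ q₂ : Fin 3 → ℂ}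
    (hle : ∀ q, (lineP f P q).natDegree ≤ 3) (hC : ¬ CondPencil f 6) {q₀ : Fin 3 → ℂ}
    (hq₀ : 2 < (lineP f P q₀).roots.toFinset.card)
    (hli : LinearIndependent ℂ ![P, q₁, q₂])
    (hns : ∀ t : ℂ, ¬ SpecialAt f P (q₁ + t • q₂) 3)
    (hinf : SpecialAt f P q₂ 3 ∨
      ((lineP f P q₂).natDegree = 3 ∧ (lineP f P q₂).roots.toFinset.card = 3))
    (hp : IsPole (Zmot f) (-(3 / ((6 : ℕ) : ℚ))) ∨ IsPole (Zmot0 f) (-(3 / ((6 : ℕ) : ℚ)))) :
    IsBernsteinSatoRoot f (-(3 / ((6 : ℕ) : ℚ))) := by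
  obtain ⟨N, h1, h2⟩ := C4.exists_inv hli
  set M := C4.colM P q₁ q₂ with hM
  have hgE : C4.eM M N h1 h2 f = C4.aM M f := rfl
  have hg0 : C4.aM M f ≠ 0 := by
    rw [← hgE]
    exact (map_ne_zero_iff (C4.eM M N h1 h2) (C4.eM M N h1 h2).injective).2 hf
  have hgh : (C4.aM M f).IsHomogeneous 6 := C4.aM_hom hh
  have hdec : ∀ q : Fin 3 → ℂ, ∃ x a b : ℂ, q = x • P + (a • q₁ + b • q₂) := by
    intro q
    refine ⟨N.mulVec q 0, N.mulVec q 1, N.mulVec q 2, ?_⟩
    have h4 : M.mulVec (N.mulVec q) = q := mulVec_inv h1 q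
    funext i
    have h5 := congrFun h4 i
    rw [Matrix.mulVec, dotProduct, Fin.sum_univ_three] at h5
    rw [← h5, hM]
    simp only [C4.colM, Matrix.of_apply, Matrix.cons_val_zero, Matrix.cons_val_one,
      Matrix.cons_val_two, Matrix.tail_cons, Matrix.head_cons, Pi.add_apply, Pi.smul_apply,
      smul_eq_mul]
    ring
  have hn0 : (lineP f P q₀).natDegree = 3 := by
    have h3 : (lineP f P q₀).roots.toFinset.card ≤ (lineP f P q₀).natDegree :=
      (Multiset.toFinset_card_le _).trans (Polynomial.card_roots' _)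
    exact le_antisymm (hle q₀) (by omega)
  have hdeg : (C4.aM M f).degreeOf 0 = 3 := by
    apply le_antisymm
    · obtain ⟨a, b, hab⟩ := C4.exists_natDegree_Uf hg0
      rw [← hab, hM, C4.Uf_aM]
      exact hle _
    · obtain ⟨x, a, b, h3⟩ := hdec q₀
      have h4 : (lineP f P q₀).natDegree ≤ (C4.aM M f).degreeOf 0 := by
        rw [h3, C4.natDegree_lineP_shift, ← C4.Uf_aM]
        exact C4.natDegree_Uf_le _ _ _
      rwa [hn0] at h4
  have hspec : ∀ a b : ℂ, TL.SpecL (C4.aM M f) a b → SpecialAt f P (a • q₁ + b • q₂) 3 := by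
    intro a b hs
    unfold SpecialAt
    rw [← C4.Uf_aM]
    rcases hs with hs | ⟨hs, hs'⟩
    · left
      by_contra hne
      have hzero : TL.Uf (C4.aM (C4.colM P q₁ q₂) f) a b =
          Polynomial.C (eval ![0, a, b] (C4.aM (C4.colM P q₁ q₂) f)) := by
        refine Polynomial.funext fun z => ?_
        rw [TL.Scaux.eval_Uf, Polynomial.eval_C]
        exact hs z
      rw [hzero, Polynomial.natDegree_C] at hne
      exact hne rfl
    · right
      exact ⟨by rw [hs, hdeg], hs'⟩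
  intro b hb
  have hbg : IsBernsteinSato (C4.aM M f) b := by
    rw [← hgE]
    exact Alp.isBernsteinSato_equiv _ hb
  have hspec' : SpecialAt f P q₂ 3 → TL.SpecL (C4.aM M f) 0 1 := by
    intro hs
    have e1 : (0 : ℂ) • q₁ + (1 : ℂ) • q₂ = q₂ := by rw [zero_smul, one_smul, zero_add]
    rw [← e1] at hs
    unfold SpecialAt at hs
    rw [← C4.Uf_aM] at hs
    rcases hs with hs | ⟨hs, hs'⟩
    · exact Or.inl (TL.spec_of_natDegree hs)
    · exact Or.inr ⟨by rw [hdeg]; exact hs, hs'⟩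
  rcases TL.coord_six hgh hg0 hdeg (fun t ht => hns t (by
      have h3 := hspec 1 t ht
      rwa [one_smul] at h3)) (by
      rcases hinf with h3 | h3
      · exact Or.inl (hspec' h3)
      · right
        rw [hM, C4.Uf_aM, zero_smul, one_smul, zero_add]
        exact h3) hbg with h3 | ⟨r, h3⟩ | h3 | ⟨Q, hQ, h3⟩ | h3
  · rw [C4.cast_s0]
    exact h3
  · rw [C4.lin_eq_aM, ← AlgHom.comp_apply, C4.aM_comp] at h3
    obtain ⟨N', h4, h5⟩ := C4.linM_inv (p := 1) (q := 0) (r := r) (s := 1) (by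
      rw [zero_mul, sub_zero, one_mul]
      exact one_ne_zero)
    exact C4.root_of_mon_or_stable hf (by norm_num) hh (M := M * C4.linM 1 0 r 1) (N := N' * N)
      (by rw [Matrix.mul_assoc, ← Matrix.mul_assoc _ N' N, h4, Matrix.one_mul, h1])
      (by rw [Matrix.mul_assoc, ← Matrix.mul_assoc N M, h2, Matrix.one_mul, h5])
      (C4.mon_or_stable (C4.aM_hom hh) h3) hp b hb
  · exact absurd (condPencil_aM h1 h2 h3) hC
  · exact absurd (condPencil_of_multGe h1 h2 hQ h3) hC
  · exfalso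
    obtain ⟨x, a, b', h4⟩ := hdec q₀
    rw [h4, C4.lineP_shift, card_roots_comp, ← C4.Uf_aM] at hq₀
    exact absurd (h3 a b') (not_le.2 hq₀)

/-- **The pole `-1/2`** of the sextic forms. -/
theorem root_six (hf : f ≠ 0) (hh : f.IsHomogeneous 6)
    (hp : IsPole (Zmot f) (-(3 / ((6 : ℕ) : ℚ))) ∨ IsPole (Zmot0 f) (-(3 / ((6 : ℕ) : ℚ)))) :
    IsBernsteinSatoRoot f (-(3 / ((6 : ℕ) : ℚ))) := by
  by_cases hC : CondPencil f 6
  · exact C4.root_of_condPencil hf (by norm_num) hh hC hp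
  rcases D5.wh_or_triple hh with h | ⟨P, hP, h⟩
  · exact (smc_homogeneous_three hf (by norm_num) hh (by norm_num)
      (fun _ => Or.inr (Or.inl h)) hp).1
  have hle : ∀ q, (lineP f P q).natDegree ≤ 3 := D5.natDegree_lineP_le hh h
  have h3 : ∃ q, (lineP f P q).natDegree = 3 := by
    by_contra hcon
    push Not at hcon
    refine hC (condPencil_of_mult hP fun q => ?_)
    have h4 := hle q
    have h5 := hcon q
    omega
  have hA : ∀ q₁ q₂, LinearIndependent ℂ ![P, q₁, q₂] →
      ¬ (SpecialAt f P q₁ 3 ∧ SpecialAt f P q₂ 3) := fun q₁ q₂ hli h4 =>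
    hC ⟨P, 3, hP, by norm_num, by norm_num, hle, h3, Or.inl ⟨q₁, q₂, hli, h4.1, h4.2⟩⟩
  obtain ⟨q₀, hq₀⟩ : ∃ q, 2 < (lineP f P q).roots.toFinset.card := by
    by_contra hcon
    push Not at hcon
    exact hC ⟨P, 3, hP, by norm_num, by norm_num, hle, h3, Or.inr hcon⟩
  by_cases hsp : ∃ q₁ q₂, LinearIndependent ℂ ![P, q₁, q₂] ∧ SpecialAt f P q₂ 3
  · obtain ⟨q₁, q₂, hli, hs⟩ := hsp
    exact root_coords hf hh hle hC hq₀ hli (fun t ht => hA _ _ (linInd_add t hli) ⟨ht, hs⟩)
      (Or.inl hs) hp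
  · push Not at hsp
    have hli2 : LinearIndependent ℂ ![P, q₀] := by
      rw [LinearIndependent.pair_iff' hP]
      rintro a rfl
      have h4 : lineP f P (a • P) = (lineP f P 0).comp (Polynomial.X + Polynomial.C a) := by
        rw [← C4.lineP_shift, add_zero]
      rw [h4, card_roots_comp, lineP_smul hh] at hq₀
      have h5 := hle 0
      rw [lineP_smul hh] at h5
      by_cases h6 : eval P f = 0
      · rw [h6, Polynomial.C_0, zero_mul, Polynomial.roots_zero] at hq₀
        simp at hq₀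
      · rw [Polynomial.natDegree_C_mul_X_pow _ _ h6] at h5
        omega
    obtain ⟨q₁, hli3⟩ := exists_linearIndependent_cons_of_lt_finrank hli2 (by
      rw [Module.finrank_fintype_fun_eq_card, Fintype.card_fin]
      norm_num)
    have hli : LinearIndependent ℂ ![P, q₁, q₀] := by
      have h4 := hli3.comp (Equiv.swap (0 : Fin 3) 1) (Equiv.injective _)
      have h5 : (Fin.cons q₁ ![P, q₀] : Fin 3 → Fin 3 → ℂ) ∘ (Equiv.swap (0 : Fin 3) 1) =
          ![P, q₁, q₀] := by
        funext i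
        fin_cases i <;> rfl
      rwa [h5] at h4
    have hcard : (lineP f P q₀).natDegree = 3 ∧ (lineP f P q₀).roots.toFinset.card = 3 := by
      have h4 : (lineP f P q₀).roots.toFinset.card ≤ (lineP f P q₀).natDegree :=
        (Multiset.toFinset_card_le _).trans (Polynomial.card_roots' _)
      have h5 := hle q₀
      constructor <;> omega
    exact root_coords hf hh hle hC hq₀ hli
      (fun t ht => hsp _ _ (linInd_swap (linInd_add t hli)) ht) (Or.inr hcard) hp

/-- **The strong monodromy conjecture** for homogeneous polynomials of degree at most six in three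
variables. -/
theorem smc_le_six (hf : f ≠ 0) (hd : 0 < d) (hd6 : d ≤ 6) (hh : f.IsHomogeneous d) {s₀ : ℚ}
    (hs : s₀ < 0) (hs₀ : IsPole (Zmot f) s₀ ∨ IsPole (Zmot0 f) s₀) :
    IsBernsteinSatoRoot f s₀ ∧ IsLocalBernsteinSatoRoot f s₀ := by
  rcases Nat.lt_or_ge d 6 with h | h
  · exact D5.smc_le_five hf hd (by omega) hh hs hs₀
  obtain rfl : d = 6 := le_antisymm hd6 h
  refine roots_of_form fun b hb => ?_
  have hbg : IsBernsteinSato f b := isBernsteinSato_of_form_homogeneous hh hb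
  rcases root_of_pole_three hf hd hh hs hs₀ hbg with h1 | h1
  · subst h1
    exact root_six hf hh hs₀ b hbg
  · exact h1

end D6

end MPb07157
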