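import Pool.Agent.Lib.MP_b07157_agD6.GeoAux
import Pool.Agent.Lib.MP_b07157_agL3.Glob

/-!
# Three branches: `A_0` has degree three
-/

noncomputable section

namespace MPb07157.TL

open MvPolynomial

namespace GeoTwo

open Gaux PolAux

theorem le_add {a : WithTop ℚ} {x y : L0} (hx : a ≤ x.orderTop) (hy : a ≤ y.orderTop) :
    a ≤ (x + y).orderTop :=
  le_trans (le_min hx hy) HahnSeries.min_orderTop_le_orderTop_add

theorem orderTop_inf' {p : Polynomial ℂ} (hp : p ≠ 0) :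
    (p.eval₂ (HahnSeries.C : ℂ →+* L0) tau⁻¹).orderTop = ((-(p.natDegree : ℚ) : ℚ) : WithTop ℚ) := by
  have h1 := orderTop_inf hp
  rw [orderTop_tau_pow] at h1
  cases h2 : (p.eval₂ (HahnSeries.C : ℂ →+* L0) tau⁻¹).orderTop with
  | top =>
    rw [h2] at h1
    exact absurd h1 (by simp)
  | coe x =>
    rw [h2] at h1
    have h4 : x + (p.natDegree : ℚ) = 0 := by exact_mod_cast h1
    have h5 : x = -(p.natDegree : ℚ) := by linarith
    rw [h5]

theorem orderTop_C_mul {z : ℂ} (hz : z ≠ 0) (x : L0) :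
    (HahnSeries.C z * x).orderTop = x.orderTop := by
  rw [HahnSeries.orderTop_mul, orderTop_C hz, zero_add]

/-- The second coefficient of `f(X, 1, t)` is a polynomial in `t` of degree at most four. -/
theorem exists_B {f : MvPolynomial (Fin 3) ℂ} (hf : f.IsHomogeneous 6) :
    ∃ B : Polynomial ℂ, B.natDegree ≤ 4 ∧
      (PL f (tau⁻¹ : L0)).coeff 2 = B.eval₂ (HahnSeries.C : ℂ →+* L0) tau⁻¹ := by
  refine ⟨∑ v ∈ f.support, if v 0 = 2 then
      Polynomial.C (f.coeff v) * Polynomial.X ^ v 2 else 0, ?_, ?_⟩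
  · refine Polynomial.natDegree_sum_le_of_forall_le _ _ fun v hv => ?_
    have h1 := Embb.sum_eq hf hv
    by_cases h : v 0 = 2
    · rw [if_pos h]
      exact (Polynomial.natDegree_C_mul_X_pow_le _ _).trans (by omega)
    · rw [if_neg h, Polynomial.natDegree_zero]
      exact Nat.zero_le 4
  · rw [Embb.PL_eq, Embb.coeff_aeval, Polynomial.eval₂_finsetSum]
    refine Finset.sum_congr rfl fun v _ => ?_
    by_cases h : v 0 = 2
    · rw [if_pos h, if_pos h, Polynomial.eval₂_mul, Polynomial.eval₂_C, Polynomial.eval₂_pow,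
        Polynomial.eval₂_X, one_pow, one_mul, algebraMap_L0]
    · rw [if_neg h, if_neg h, Polynomial.eval₂_zero]

/-- The sum of the roots. -/
theorem coeff_two {L : Type} [Field L] (a : L) (c : Fin 3 → L) :
    (Polynomial.C a * ∏ i, (Polynomial.X - Polynomial.C (c i)) ^ 1).coeff 2 =
      -(a * (c 0 + c 1 + c 2)) := by
  have h : Polynomial.C a * ∏ i, (Polynomial.X - Polynomial.C (c i)) ^ 1 =
      Polynomial.C a * Polynomial.X ^ 3 + Polynomial.C (-(a * (c 0 + c 1 + c 2))) *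
        Polynomial.X ^ 2 + Polynomial.C (a * (c 0 * c 1 + c 0 * c 2 + c 1 * c 2)) *
        Polynomial.X ^ 1 + Polynomial.C (-(a * (c 0 * c 1 * c 2))) * Polynomial.X ^ 0 := by
    rw [Fin.prod_univ_three]
    simp only [Polynomial.C_mul, Polynomial.C_add, Polynomial.C_neg]
    ring
  rw [h]
  simp only [Polynomial.coeff_add, Polynomial.coeff_C_mul_X_pow]
  norm_num

/-- The mean of the roots is `κ t + κ0 + O(1/t)`. -/
theorem exists_mean {f : MvPolynomial (Fin 3) ℂ} (hf : f.IsHomogeneous 6) {c : Fin 3 → L0}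
    {m : Fin 3 → ℕ} {A : Polynomial ℂ} (h3 : A.natDegree = 3)
    (h : Fac f tau⁻¹ c m (A.eval₂ (HahnSeries.C : ℂ →+* L0) tau⁻¹)) (hm : ∀ i, m i = 1)
    (hδ : ∀ i j, ((1 : ℚ) : WithTop ℚ) ≤ (c i - c j).orderTop) :
    ∃ κ κ0 : ℂ, ∀ i, ((1 : ℚ) : WithTop ℚ) ≤
      (HahnSeries.C κ0 + HahnSeries.C κ * tau⁻¹ - c i).orderTop := by
  obtain ⟨B, hB4, hB⟩ := exists_B hf
  have hA0 : A ≠ 0 := by
    rintro rfl
    rw [Polynomial.natDegree_zero] at h3
    omega
  obtain rfl : m = fun _ => 1 := funext hm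
  rw [h.eq, coeff_two] at hB
  set a : L0 := A.eval₂ (HahnSeries.C : ℂ →+* L0) tau⁻¹ with ha
  have haord : a.orderTop = ((-3 : ℚ) : WithTop ℚ) := by
    rw [ha, orderTop_inf' hA0, h3]
    norm_num
  have hdiv : A * (B / A) + B % A = B := EuclideanDomain.div_add_mod B A
  have hD : (B / A).natDegree ≤ 1 := by
    by_cases h5 : A.degree ≤ B.degree
    · have h6 := Polynomial.degree_add_div hA0 h5
      have hB0 : B ≠ 0 := by
        rintro rfl
        rw [Polynomial.degree_zero, le_bot_iff, Polynomial.degree_eq_bot] at h5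
        exact hA0 h5
      have hq0 : B / A ≠ 0 := by
        intro h7
        rw [h7, Polynomial.degree_zero, WithBot.add_bot] at h6
        exact hB0 (Polynomial.degree_eq_bot.1 h6.symm)
      rw [Polynomial.degree_eq_natDegree hA0, Polynomial.degree_eq_natDegree hB0,
        Polynomial.degree_eq_natDegree hq0] at h6
      have h7 : A.natDegree + (B / A).natDegree = B.natDegree := by exact_mod_cast h6
      omega
    · rw [(Polynomial.div_eq_zero_iff hA0).2 (not_le.1 h5), Polynomial.natDegree_zero]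
      exact Nat.zero_le 1
  obtain ⟨d1, d0, hd⟩ := Polynomial.exists_eq_X_add_C_of_natDegree_le_one hD
  set R := B % A with hR
  have hRord : ((-2 : ℚ) : WithTop ℚ) ≤ (R.eval₂ (HahnSeries.C : ℂ →+* L0) tau⁻¹).orderTop := by
    by_cases hR0 : R = 0
    · rw [hR0, Polynomial.eval₂_zero, HahnSeries.orderTop_zero]
      exact le_top
    · have h5 : R.natDegree < 3 := by
        rw [← h3]
        exact Polynomial.natDegree_lt_natDegree hR0 (EuclideanDomain.mod_lt B hA0)
      rw [orderTop_inf' hR0]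
      refine WithTop.coe_le_coe.2 ?_
      have h6 : (R.natDegree : ℚ) ≤ 2 := by exact_mod_cast Nat.lt_succ_iff.1 h5
      linarith
  set r : L0 := R.eval₂ (HahnSeries.C : ℂ →+* L0) tau⁻¹ with hr
  have hBe : B.eval₂ (HahnSeries.C : ℂ →+* L0) tau⁻¹ =
      a * (HahnSeries.C d1 * tau⁻¹ + HahnSeries.C d0) + r := by
    rw [← hdiv, Polynomial.eval₂_add, Polynomial.eval₂_mul, hd, ← ha, ← hr]
    simp only [Polynomial.eval₂_add, Polynomial.eval₂_mul, Polynomial.eval₂_C, Polynomial.eval₂_X]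
  rw [hBe] at hB
  have ha0 : a ≠ 0 := h.ne
  have hsum : c 0 + c 1 + c 2 = -(HahnSeries.C d1 * tau⁻¹ + HahnSeries.C d0) - r / a := by
    field_simp
    linear_combination -hB
  have hra : ((1 : ℚ) : WithTop ℚ) ≤ (r / a).orderTop := by
    have h5 : (r / a * a).orderTop = r.orderTop := by rw [div_mul_cancel₀ _ ha0]
    rw [HahnSeries.orderTop_mul, haord] at h5
    rw [← h5] at hRord
    cases h6 : (r / a).orderTop with
    | top => exact le_top
    | coe x =>
      rw [h6, ← WithTop.coe_add] at hRord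
      have h7 := WithTop.coe_le_coe.1 hRord
      refine WithTop.coe_le_coe.2 ?_
      linarith
  refine ⟨-(d1 / 3), -(d0 / 3), fun i => ?_⟩
  have h33 : (HahnSeries.C (3 : ℂ) : L0) = 3 := map_ofNat _ 3
  have e1 : (3 : L0) * HahnSeries.C (-(d1 / 3)) = -HahnSeries.C d1 := by
    rw [← h33, ← map_mul, ← map_neg]
    congr 1
    ring
  have e0 : (3 : L0) * HahnSeries.C (-(d0 / 3)) = -HahnSeries.C d0 := by
    rw [← h33, ← map_mul, ← map_neg]
    congr 1
    ring
  rw [← orderTop_C_mul (z := 3) (by norm_num)]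
  have h8 : HahnSeries.C (3 : ℂ) * (HahnSeries.C (-(d0 / 3)) + HahnSeries.C (-(d1 / 3)) * tau⁻¹ - c i) =
      ((c 0 - c i) + (c 1 - c i)) + ((c 2 - c i) + r / a) := by
    rw [h33]
    linear_combination e0 + tau⁻¹ * e1 - hsum
  rw [h8]
  exact le_add (le_add (hδ 0 i) (hδ 1 i)) (le_add (hδ 2 i) hra)

/-- The order of a product of three factors. -/
theorem orderTop_prod3 {m : Fin 3 → ℕ} (hm : ∀ i, m i = 1) (x : Fin 3 → L0) :
    (∏ i, x i ^ m i).orderTop = (x 0).orderTop + (x 1).orderTop + (x 2).orderTop := by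
  rw [Fin.prod_univ_three, hm, hm, hm, pow_one, pow_one, pow_one, HahnSeries.orderTop_mul,
    HahnSeries.orderTop_mul]

/-- The factors on the line through `(κ, 0, 1)` and `(z, 1, 0)`. -/
theorem fac_nonneg {κ κ0 z : ℂ} {c : L0} (h : ((1 : ℚ) : WithTop ℚ) ≤
    (HahnSeries.C κ0 + HahnSeries.C κ * tau⁻¹ - c).orderTop) :
    0 ≤ (HahnSeries.C z + HahnSeries.C κ * tau⁻¹ - c).orderTop := by
  have h1 : (HahnSeries.C z + HahnSeries.C κ * tau⁻¹ - c : L0) =
      HahnSeries.C (z - κ0) + (HahnSeries.C κ0 + HahnSeries.C κ * tau⁻¹ - c) := by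
    rw [map_sub]
    ring
  rw [h1]
  refine le_add (C_mem _) (le_trans ?_ h)
  exact_mod_cast (zero_le_one : (0 : ℚ) ≤ 1)

theorem fac_zero {κ κ0 z : ℂ} (hz : z ≠ κ0) {c : L0} (h : ((1 : ℚ) : WithTop ℚ) ≤
    (HahnSeries.C κ0 + HahnSeries.C κ * tau⁻¹ - c).orderTop) :
    (HahnSeries.C z + HahnSeries.C κ * tau⁻¹ - c).orderTop = 0 := by
  have h1 : (HahnSeries.C z + HahnSeries.C κ * tau⁻¹ - c : L0) =
      HahnSeries.C (z - κ0) + (HahnSeries.C κ0 + HahnSeries.C κ * tau⁻¹ - c) := by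
    rw [map_sub]
    ring
  rw [h1, HahnSeries.orderTop_add_eq_left, orderTop_C (sub_ne_zero.2 hz)]
  rw [orderTop_C (sub_ne_zero.2 hz)]
  refine lt_of_lt_of_le ?_ h
  exact_mod_cast (zero_lt_one : (0 : ℚ) < 1)

/-- On the line `x_1 = 0` the polynomial is divisible by `X ^ 3`. -/
theorem X_pow_dvd {f : MvPolynomial (Fin 3) ℂ} (hf : f.IsHomogeneous 6)
    (hd : f.degreeOf 0 ≤ 3) (κ : ℂ) :
    Polynomial.X ^ 3 ∣ lineP f ![κ, 0, 1] ![1, 0, 0] := by
  unfold lineP
  rw [aeval_def, eval₂_eq']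
  refine Finset.dvd_sum fun v hv => ?_
  have h1 := Embb.sum_eq hf hv
  have h2 := Embb.le_degreeOf hv
  rw [Fin.prod_univ_three]
  simp only [Matrix.cons_val_zero, Matrix.cons_val_one, Matrix.cons_val, Polynomial.C_0,
    zero_mul, add_zero, zero_add, Polynomial.C_1, one_mul]
  by_cases h3 : v 1 = 0
  · have h4 : 3 ≤ v 2 := by omega
    exact Dvd.dvd.mul_left (Dvd.dvd.mul_left (pow_dvd_pow _ h4) _) _
  · rw [zero_pow h3, mul_zero, zero_mul, mul_zero]
    exact dvd_zero _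

theorem linInd (κ κ0 : ℂ) : LinearIndependent ℂ
    ![(![κ, 0, 1] : Fin 3 → ℂ), ![κ0, 1, 0], ![1, 0, 0]] := by
  rw [Fintype.linearIndependent_iff]
  intro g hg
  rw [Fin.sum_univ_three] at hg
  have h0 := congrFun hg 0
  have h1 := congrFun hg 1
  have h2 := congrFun hg 2
  simp only [Matrix.cons_val_zero, Matrix.cons_val_one, Matrix.cons_val, Pi.add_apply,
    Pi.smul_apply, smul_eq_mul, Pi.zero_apply, mul_zero, mul_one, add_zero, zero_add] at h0 h1 h2
  rw [h1, h2, zero_mul, zero_mul, zero_add, zero_add] at h0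
  intro i
  fin_cases i
  · exact h2
  · exact h1
  · exact h0

end GeoTwo

open Gaux PolAux GeoTwo GeoAux in
/-- `A_0` has degree three, and the differences of the roots vanish at `t = ∞`: the conditions
`CondPencil` hold at the point `Q ≠ P` of the line `x_1 = 0`. -/
theorem geo_two' {f : MvPolynomial (Fin 3) ℂ} {c : Fin 3 → KK f} {m : Fin 3 → ℕ} {A0 : KK f}
    {A : Polynomial ℂ} (hf : f.IsHomogeneous 6) (hF : Fac f (tK f) c m A0) (hm : ∀ i, m i = 1)
    (hA : A0 = algebraMap (RatFunc ℂ) (KK f) (algebraMap (Polynomial ℂ) (RatFunc ℂ) A))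
    (h3 : A.natDegree = 3)
    (hδ : ∀ φ : KK f →+* L0, IsPlInf φ → ∀ i j, i ≠ j →
        ((1 : ℚ) : WithTop ℚ) ≤ (φ (c i) - φ (c j)).orderTop) : CondPencil f 6 := by
  obtain ⟨φ, hφ⟩ := exists_plInf hf
  have hFφ := hF.map φ hφ.alg
  unfold tK at hFφ
  rw [hφ.2] at hFφ
  have hA' : φ A0 = A.eval₂ (HahnSeries.C : ℂ →+* L0) tau⁻¹ := by
    have h1 := hom_poly (φ.comp (algebraMap (RatFunc ℂ) (KK f))) (fun z => hφ.1 z) A
    rw [RingHom.comp_apply, RingHom.comp_apply, hφ.2] at h1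
    rw [hA, h1]
  have hA0 : A ≠ 0 := by
    rintro rfl
    rw [Polynomial.natDegree_zero] at h3
    omega
  have hAord : (φ A0).orderTop = ((-3 : ℚ) : WithTop ℚ) := by
    rw [hA', orderTop_inf' hA0, h3]
    norm_num
  set c' : Fin 3 → L0 := fun i => φ (c i) with hc'
  obtain ⟨κ, κ0, hκ⟩ := exists_mean hf h3 (c := c') (by rw [← hA']; exact hFφ) hm (fun i j => by
    by_cases hij : i = j
    · rw [hij, sub_self, HahnSeries.orderTop_zero]
      exact le_top
    · exact hδ φ hφ i j hij)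
  -- the line polynomials at infinity
  have hline : ∀ q : Fin 3 → ℂ, q 1 ≠ 0 →
      (((lineP f ![κ, 0, 1] q).comp (Polynomial.C (q 1) * Polynomial.X -
        Polynomial.C (q 2))).eval₂ (HahnSeries.C : ℂ →+* L0) tau⁻¹).orderTop =
      ((-3 : ℚ) : WithTop ℚ) + ((HahnSeries.C ((q 0 - κ * q 2) / q 1) +
          HahnSeries.C κ * tau⁻¹ - c' 0).orderTop +
        (HahnSeries.C ((q 0 - κ * q 2) / q 1) + HahnSeries.C κ * tau⁻¹ - c' 1).orderTop +
        (HahnSeries.C ((q 0 - κ * q 2) / q 1) + HahnSeries.C κ * tau⁻¹ - c' 2).orderTop) := by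
    intro q hq
    rw [eval_line hf hFφ κ hq, ← map_pow, orderTop_C_mul (pow_ne_zero 6 hq),
      HahnSeries.orderTop_mul, hAord, orderTop_prod3 hm]
  have hle : ∀ q, (lineP f ![κ, 0, 1] q).natDegree ≤ 3 := by
    refine natDegree_le_of_dense fun q hq => ?_
    rw [← natDegree_comp_line _ hq (b := q 2)]
    refine natDegree_le_of_orderTop ?_
    rw [hline q hq]
    have h4 := fun i => fac_nonneg (z := (q 0 - κ * q 2) / q 1) (hκ i)
    have h5 := add_le_add (le_refl ((-3 : ℚ) : WithTop ℚ))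
      (add_nonneg (add_nonneg (h4 0) (h4 1)) (h4 2))
    rw [add_zero] at h5
    exact_mod_cast h5
  have hf0 : f ≠ 0 := by
    rintro rfl
    have h4 := hFφ.eq
    unfold PL at h4
    rw [map_zero] at h4
    have h5 : (Polynomial.C (φ A0) * ∏ i, (Polynomial.X - Polynomial.C (φ (c i))) ^ m i :
        Polynomial L0) ≠ 0 := by
      refine mul_ne_zero (Polynomial.C_ne_zero.2 hFφ.ne) ?_
      exact (Polynomial.monic_prod_of_monic _ _ fun i _ =>
        (Polynomial.monic_X_sub_C _).pow _).ne_zero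
    exact h5 h4.symm
  have hdeg : f.degreeOf 0 = 3 := by
    rw [← (Embb.natDegree_PL hf hf0 Embaux.transcendental_inv).1, hFφ.eq,
      Polynomial.natDegree_C_mul hFφ.ne, Polynomial.natDegree_prod_of_monic _ _ (fun i _ =>
        (Polynomial.monic_X_sub_C _).pow _)]
    simp only [hm, pow_one, Polynomial.natDegree_X_sub_C]
    rfl
  -- the special line `x_1 = 0`
  obtain ⟨r, hr⟩ := X_pow_dvd hf hdeg.le κ
  have hne : (lineP f ![κ, 0, 1] ![1, 0, 0]).eval 1 ≠ 0 := by
    set p : Polynomial ℂ := aeval ![Polynomial.C (κ + 1), Polynomial.X, Polynomial.C 1] f with hp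
    have h4 : (lineP f ![κ, 0, 1] ![1, 0, 0]).eval 1 = p.eval 0 := by
      have h5 : (Polynomial.aeval (1 : ℂ)).comp (aeval (fun i =>
          Polynomial.C ((![1, 0, 0] : Fin 3 → ℂ) i) +
            Polynomial.C ((![κ, 0, 1] : Fin 3 → ℂ) i) * Polynomial.X)) =
          (Polynomial.aeval (0 : ℂ)).comp (aeval
            ![Polynomial.C (κ + 1), Polynomial.X, Polynomial.C 1] :
              MvPolynomial (Fin 3) ℂ →ₐ[ℂ] Polynomial ℂ) := by
        refine MvPolynomial.algHom_ext fun i => ?_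
        rw [AlgHom.comp_apply, AlgHom.comp_apply, aeval_X, aeval_X]
        fin_cases i <;> simp [add_comm]
      have h6 := congrArg (fun ψ => ψ f) h5
      rw [AlgHom.comp_apply, AlgHom.comp_apply, Polynomial.coe_aeval_eq_eval,
        Polynomial.coe_aeval_eq_eval] at h6
      exact h6
    rw [h4]
    intro h5
    have h6 := orderTop_eval2_pos h5 tau_pos
    have h7 : p.eval₂ (HahnSeries.C : ℂ →+* L0) (HahnSeries.C 0 + tau) =
        tau ^ 6 * (φ A0 * ∏ i, (HahnSeries.C (κ + 1) * tau⁻¹ - c' i) ^ m i) := by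
      have h8 : (PL f (tau⁻¹ : L0)).eval (HahnSeries.C (κ + 1) * tau⁻¹) =
          φ A0 * ∏ i, (HahnSeries.C (κ + 1) * tau⁻¹ - c' i) ^ m i := by
        rw [hFφ.eq, Polynomial.eval_mul, Polynomial.eval_C, Polynomial.eval_prod]
        congr 1
        refine Finset.prod_congr rfl fun i _ => ?_
        rw [Polynomial.eval_pow, Polynomial.eval_sub, Polynomial.eval_X, Polynomial.eval_C]
      rw [← h8, GeoAux.eval_PL, ← Embaux.aeval_homog hf, hp, eval₂_aeval, map_zero, zero_add]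
      congr 2
      funext i
      fin_cases i
      · show Polynomial.eval₂ _ _ (Polynomial.C (κ + 1)) = tau * (HahnSeries.C (κ + 1) * tau⁻¹)
        rw [Polynomial.eval₂_C, mul_left_comm, mul_inv_cancel₀ Gaux.tau_ne, mul_one]
      · show Polynomial.eval₂ _ _ Polynomial.X = tau * 1
        rw [Polynomial.eval₂_X, mul_one]
      · show Polynomial.eval₂ _ _ (Polynomial.C 1) = tau * tau⁻¹
        rw [Polynomial.eval₂_C, map_one, mul_inv_cancel₀ Gaux.tau_ne]
    have h9 : ∀ i, (HahnSeries.C (κ + 1) * tau⁻¹ - c' i).orderTop = ((-1 : ℚ) : WithTop ℚ) := by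
      intro i
      have e1 : (HahnSeries.C (κ + 1) * tau⁻¹ - c' i : L0) =
          tau⁻¹ + (HahnSeries.C 0 + HahnSeries.C κ * tau⁻¹ - c' i) := by
        rw [map_add, map_one, map_zero]
        ring
      have e2 : (tau⁻¹ : L0).orderTop = ((-1 : ℚ) : WithTop ℚ) := by
        have e3 := orderTop_inf' (p := Polynomial.X) Polynomial.X_ne_zero
        rw [Polynomial.eval₂_X, Polynomial.natDegree_X] at e3
        rw [e3]
        norm_num
      rw [e1, HahnSeries.orderTop_add_eq_left, e2]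
      rw [e2]
      refine lt_of_lt_of_le ?_ (fac_nonneg (z := 0) (hκ i))
      exact_mod_cast (by norm_num : (-1 : ℚ) < 0)
    rw [h7, HahnSeries.orderTop_mul, HahnSeries.orderTop_mul, orderTop_prod3 hm, h9, h9, h9,
      hAord, orderTop_tau_pow, ← WithTop.coe_add, ← WithTop.coe_add, ← WithTop.coe_add,
      ← WithTop.coe_add] at h6
    norm_num at h6
  have hg0 : lineP f ![κ, 0, 1] ![1, 0, 0] ≠ 0 := by
    intro h4
    rw [h4, Polynomial.eval_zero] at hne
    exact hne rfl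
  have hr0 : r ≠ 0 := by
    rintro rfl
    rw [mul_zero] at hr
    exact hg0 hr
  have hrd : r.natDegree = 0 := by
    have h4 := hle ![1, 0, 0]
    rw [hr, Polynomial.natDegree_mul (pow_ne_zero 3 Polynomial.X_ne_zero) hr0,
      Polynomial.natDegree_X_pow] at h4
    omega
  have hrC := Polynomial.eq_C_of_natDegree_eq_zero hrd
  refine ⟨![κ, 0, 1], 3, ?_, by norm_num, by norm_num, hle, ⟨![κ0 + 1, 1, 0], ?_⟩, Or.inl
    ⟨![κ0, 1, 0], ![1, 0, 0], linInd κ κ0, Or.inl ?_, Or.inr ⟨?_, ?_⟩⟩⟩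
  · intro h4
    exact one_ne_zero (congrFun h4 2)
  · have h4 : (![κ0 + 1, 1, 0] : Fin 3 → ℂ) 1 ≠ 0 := one_ne_zero
    rw [← natDegree_comp_line _ h4 (b := 0)]
    refine natDegree_eq_of_orderTop ?_
    have h5 := hline ![κ0 + 1, 1, 0] h4
    have h6 : ((![κ0 + 1, 1, 0] : Fin 3 → ℂ) 0 - κ * (![κ0 + 1, 1, 0] : Fin 3 → ℂ) 2) /
        (![κ0 + 1, 1, 0] : Fin 3 → ℂ) 1 = κ0 + 1 := by
      simp
    have h7 : (κ0 + 1 : ℂ) ≠ κ0 := by simp
    rw [h6, fac_zero h7 (hκ 0), fac_zero h7 (hκ 1), fac_zero h7 (hκ 2), add_zero, add_zero,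
      add_zero] at h5
    rw [show (![κ0 + 1, 1, 0] : Fin 3 → ℂ) 2 = 0 from rfl] at h5
    rw [h5]
    norm_num
  · have h4 : (![κ0, 1, 0] : Fin 3 → ℂ) 1 ≠ 0 := one_ne_zero
    rw [← Nat.le_zero, ← natDegree_comp_line _ h4 (b := (![κ0, 1, 0] : Fin 3 → ℂ) 2)]
    refine natDegree_le_of_orderTop ?_
    have h6 : ((![κ0, 1, 0] : Fin 3 → ℂ) 0 - κ * (![κ0, 1, 0] : Fin 3 → ℂ) 2) /
        (![κ0, 1, 0] : Fin 3 → ℂ) 1 = κ0 := by
      simp
    rw [hline ![κ0, 1, 0] h4, h6]
    have h7 := add_le_add (le_refl ((-3 : ℚ) : WithTop ℚ))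
      (add_le_add (add_le_add (hκ 0) (hκ 1)) (hκ 2))
    rw [← WithTop.coe_add, ← WithTop.coe_add, ← WithTop.coe_add] at h7
    refine le_trans (le_of_eq ?_) h7
    norm_num
  · rw [hr, hrC, Polynomial.natDegree_mul_C (by
      intro h4
      rw [h4, Polynomial.C_0] at hrC
      exact hr0 hrC), Polynomial.natDegree_X_pow]
  · have h4 : r.coeff 0 ≠ 0 := by
      intro h4
      rw [h4, Polynomial.C_0] at hrC
      exact hr0 hrC
    rw [hr, hrC, mul_comm, Polynomial.roots_C_mul _ h4, Polynomial.roots_X_pow]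
    simp

end MPb07157.TL
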