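import Pool.Agent.Lib.MP_b07157_agD6.GeoQ
import Pool.Agent.Lib.MP_b07157_agD6.GeoTwo

/-!
# Three branches: `A_0` has degree one or two
-/

noncomputable section

namespace MPb07157.TL

open MvPolynomial

namespace GeoOne

open Gaux PolAux GeoTwo

/-- The product of the roots. -/
theorem coeff_zero {L : Type} [Field L] (a : L) (c : Fin 3 → L) :
    (Polynomial.C a * ∏ i, (Polynomial.X - Polynomial.C (c i)) ^ 1).coeff 0 =
      -(a * (c 0 * c 1 * c 2)) := by
  rw [Polynomial.coeff_zero_eq_eval_zero, Fin.prod_univ_three]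
  simp only [Polynomial.eval_mul, Polynomial.eval_C, Polynomial.eval_pow, Polynomial.eval_sub,
    Polynomial.eval_X]
  ring

/-- The roots have order at least `-5/3`. -/
theorem order_root {f : MvPolynomial (Fin 3) ℂ} (hf : f.IsHomogeneous 6) {c : Fin 3 → L0}
    {m : Fin 3 → ℕ} {A : Polynomial ℂ} (h1 : A.natDegree ≠ 0)
    (h : Fac f tau⁻¹ c m (A.eval₂ (HahnSeries.C : ℂ →+* L0) tau⁻¹)) (hm : ∀ i, m i = 1)
    (hδ : ∀ i j, 0 ≤ (c i - c j).orderTop) (i : Fin 3) :
    ((-(5 / 3) : ℚ) : WithTop ℚ) ≤ (c i).orderTop := by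
  by_contra hlt
  rw [not_le] at hlt
  have hA0 : A ≠ 0 := by
    rintro rfl
    exact h1 Polynomial.natDegree_zero
  obtain rfl : m = fun _ => 1 := funext hm
  have hB := coeff_PL_L0 f (tau⁻¹ : L0) 0
  rw [h.eq, coeff_zero] at hB
  -- all the roots have the same order
  have hs : ∀ j, (c j).orderTop = (c i).orderTop := by
    intro j
    have e1 : c j = c i + (c j - c i) := by ring
    rw [e1, HahnSeries.orderTop_add_eq_left]
    refine lt_of_lt_of_le (lt_trans hlt ?_) (hδ j i)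
    exact_mod_cast (by norm_num : (-(5 / 3) : ℚ) < 0)
  have hord : (A.eval₂ (HahnSeries.C : ℂ →+* L0) tau⁻¹ * (c 0 * c 1 * c 2)).orderTop =
      ((-(A.natDegree : ℚ) : ℚ) : WithTop ℚ) + ((c i).orderTop + (c i).orderTop +
        (c i).orderTop) := by
    rw [HahnSeries.orderTop_mul, orderTop_inf' hA0, HahnSeries.orderTop_mul,
      HahnSeries.orderTop_mul, hs 0, hs 1, hs 2]
  have hge : ((-6 : ℚ) : WithTop ℚ) ≤
      (A.eval₂ (HahnSeries.C : ℂ →+* L0) tau⁻¹ * (c 0 * c 1 * c 2)).orderTop := by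
    rw [← HahnSeries.orderTop_neg, hB]
    by_cases hb : Bj f 0 = 0
    · rw [hb, Polynomial.eval₂_zero, HahnSeries.orderTop_zero]
      exact le_top
    · rw [orderTop_inf' hb]
      refine WithTop.coe_le_coe.2 ?_
      have h5 : ((Bj f 0).natDegree : ℚ) ≤ 6 := by
        exact_mod_cast (natDegree_Bj_le hf 0).trans (by norm_num)
      linarith
  rw [hord] at hge
  cases hx : (c i).orderTop with
  | top =>
    rw [hx] at hlt
    exact absurd hlt (not_lt.2 le_top)
  | coe x =>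
    rw [hx] at hlt hge
    have h6 : x < -(5 / 3) := WithTop.coe_lt_coe.1 hlt
    rw [← WithTop.coe_add, ← WithTop.coe_add, ← WithTop.coe_add] at hge
    have h7 := WithTop.coe_le_coe.1 hge
    have h8 : (1 : ℚ) ≤ A.natDegree := by exact_mod_cast Nat.one_le_iff_ne_zero.2 h1
    linarith

/-- The roots are `κ t + O(1)`. -/
theorem exists_mean1 {f : MvPolynomial (Fin 3) ℂ} (hf : f.IsHomogeneous 6) {c : Fin 3 → L0}
    {m : Fin 3 → ℕ} {A : Polynomial ℂ} (h1 : A.natDegree ≠ 0)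
    (h : Fac f tau⁻¹ c m (A.eval₂ (HahnSeries.C : ℂ →+* L0) tau⁻¹)) (hm : ∀ i, m i = 1)
    (hδ : ∀ i j, 0 ≤ (c i - c j).orderTop) :
    ∃ κ : ℂ, ∀ i, 0 ≤ (HahnSeries.C κ * tau⁻¹ - c i).orderTop := by
  have hc := order_root hf h1 h hm hδ
  obtain ⟨B, hB4, hB⟩ := exists_B hf
  have hA0 : A ≠ 0 := by
    rintro rfl
    exact h1 Polynomial.natDegree_zero
  obtain rfl : m = fun _ => 1 := funext hm
  rw [h.eq, coeff_two] at hB
  set a : L0 := A.eval₂ (HahnSeries.C : ℂ →+* L0) tau⁻¹ with ha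
  have haord : a.orderTop = ((-(A.natDegree : ℚ) : ℚ) : WithTop ℚ) := orderTop_inf' hA0
  have hdiv : A * (B / A) + B % A = B := EuclideanDomain.div_add_mod B A
  set R := B % A with hR
  set q := B / A with hq
  set r : L0 := R.eval₂ (HahnSeries.C : ℂ →+* L0) tau⁻¹ with hr
  have ha0 : a ≠ 0 := h.ne
  have hra : 0 ≤ (r / a).orderTop := by
    have hRord : a.orderTop ≤ r.orderTop := by
      rw [haord]
      by_cases hR0 : R = 0
      · rw [hr, hR0, Polynomial.eval₂_zero, HahnSeries.orderTop_zero]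
        exact le_top
      · have h5 : R.natDegree < A.natDegree :=
          Polynomial.natDegree_lt_natDegree hR0 (EuclideanDomain.mod_lt B hA0)
        rw [hr, orderTop_inf' hR0]
        refine WithTop.coe_le_coe.2 ?_
        have h6 : (R.natDegree : ℚ) ≤ A.natDegree := by exact_mod_cast h5.le
        linarith
    have h5 : (r / a * a).orderTop = r.orderTop := by rw [div_mul_cancel₀ _ ha0]
    rw [HahnSeries.orderTop_mul, haord] at h5
    rw [← h5, haord] at hRord
    cases h6 : (r / a).orderTop with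
    | top => exact le_top
    | coe x =>
      rw [h6, ← WithTop.coe_add] at hRord
      have h7 := WithTop.coe_le_coe.1 hRord
      refine WithTop.coe_le_coe.2 ?_
      linarith
  have hBe : B.eval₂ (HahnSeries.C : ℂ →+* L0) tau⁻¹ =
      a * q.eval₂ (HahnSeries.C : ℂ →+* L0) tau⁻¹ + r := by
    rw [← hdiv, Polynomial.eval₂_add, Polynomial.eval₂_mul]
  rw [hBe] at hB
  have hsum : c 0 + c 1 + c 2 = -q.eval₂ (HahnSeries.C : ℂ →+* L0) tau⁻¹ - r / a := by
    have h5 : a * (r / a) = r := mul_div_cancel₀ r ha0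
    refine mul_left_cancel₀ ha0 ?_
    linear_combination -hB + h5
  -- the degree of the quotient
  have hD : q.natDegree ≤ 1 := by
    by_contra hD
    rw [not_le] at hD
    have hq0 : q ≠ 0 := by
      intro h7
      rw [h7, Polynomial.natDegree_zero] at hD
      omega
    have h7 : ((-(5 / 3) : ℚ) : WithTop ℚ) ≤
        (q.eval₂ (HahnSeries.C : ℂ →+* L0) tau⁻¹).orderTop := by
      have e1 : q.eval₂ (HahnSeries.C : ℂ →+* L0) tau⁻¹ = -((c 0 + c 1 + c 2) + r / a) := by
        rw [hsum]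
        ring
      rw [e1, HahnSeries.orderTop_neg]
      refine le_add (le_add (le_add (hc 0) (hc 1)) (hc 2)) (le_trans ?_ hra)
      exact_mod_cast (by norm_num : (-(5 / 3) : ℚ) ≤ 0)
    rw [orderTop_inf' hq0] at h7
    have h8 := WithTop.coe_le_coe.1 h7
    have h9 : (2 : ℚ) ≤ q.natDegree := by exact_mod_cast hD
    linarith
  obtain ⟨d1, d0, hd⟩ := Polynomial.exists_eq_X_add_C_of_natDegree_le_one hD
  have hqe : q.eval₂ (HahnSeries.C : ℂ →+* L0) tau⁻¹ =
      HahnSeries.C d1 * tau⁻¹ + HahnSeries.C d0 := by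
    rw [hd]
    simp only [Polynomial.eval₂_add, Polynomial.eval₂_mul, Polynomial.eval₂_C, Polynomial.eval₂_X]
  rw [hqe] at hsum
  refine ⟨-(d1 / 3), fun i => ?_⟩
  have h33 : (HahnSeries.C (3 : ℂ) : L0) = 3 := map_ofNat _ 3
  have e1 : (3 : L0) * HahnSeries.C (-(d1 / 3)) = -HahnSeries.C d1 := by
    rw [← h33, ← map_mul, ← map_neg]
    congr 1
    ring
  rw [← orderTop_C_mul (z := 3) (by norm_num)]
  have h8 : HahnSeries.C (3 : ℂ) * (HahnSeries.C (-(d1 / 3)) * tau⁻¹ - c i) =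
      ((c 0 - c i) + (c 1 - c i)) + ((c 2 - c i) + (HahnSeries.C d0 + r / a)) := by
    rw [h33]
    linear_combination tau⁻¹ * e1 - hsum
  rw [h8]
  have h9 : 0 ≤ (HahnSeries.C d0 : L0).orderTop := by
    by_cases h10 : d0 = 0
    · rw [h10, map_zero, HahnSeries.orderTop_zero]
      exact le_top
    · rw [orderTop_C h10]
  exact le_add (le_add (hδ 0 i) (hδ 1 i)) (le_add (hδ 2 i) (le_add h9 hra))

end GeoOne

open Gaux PolAux GeoTwo GeoOne in
/-- `A_0` has degree one or two, and the differences of the roots are bounded at `t = ∞`: a point of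
the line `x_1 = 0` has multiplicity at least four. -/
theorem geo_one' {f : MvPolynomial (Fin 3) ℂ} {c : Fin 3 → KK f} {m : Fin 3 → ℕ} {A0 : KK f}
    {A : Polynomial ℂ} (hf : f.IsHomogeneous 6) (hF : Fac f (tK f) c m A0) (hm : ∀ i, m i = 1)
    (hA : A0 = algebraMap (RatFunc ℂ) (KK f) (algebraMap (Polynomial ℂ) (RatFunc ℂ) A))
    (h1 : A.natDegree ≠ 0) (h2 : A.natDegree ≤ 2)
    (hδ : ∀ φ : KK f →+* L0, IsPlInf φ → ∀ i j, i ≠ j →
        0 ≤ (φ (c i) - φ (c j)).orderTop) : ∃ Q : Fin 3 → ℂ, Q ≠ 0 ∧ MultGe f Q 2 := by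
  obtain ⟨φ, hφ⟩ := exists_plInf hf
  have hFφ := hF.map φ hφ.alg
  unfold tK at hFφ
  rw [hφ.2] at hFφ
  have hA' : φ A0 = A.eval₂ (HahnSeries.C : ℂ →+* L0) tau⁻¹ := by
    have h1 := hom_poly (φ.comp (algebraMap (RatFunc ℂ) (KK f))) (fun z => hφ.1 z) A
    rw [RingHom.comp_apply, RingHom.comp_apply, hφ.2] at h1
    rw [hA, h1]
  have hA0 : A ≠ 0 := by
    rintro rfl
    exact h1 Polynomial.natDegree_zero
  have hAord : (φ A0).orderTop = ((-(A.natDegree : ℚ) : ℚ) : WithTop ℚ) := by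
    rw [hA', orderTop_inf' hA0]
  obtain ⟨κ, hκ⟩ := exists_mean1 hf h1 (c := fun i => φ (c i)) (by rw [← hA']; exact hFφ) hm
    (fun i j => by
      by_cases hij : i = j
      · rw [hij, sub_self, HahnSeries.orderTop_zero]
        exact le_top
      · exact hδ φ hφ i j hij)
  refine ⟨![κ, 0, 1], fun h4 => one_ne_zero (congrFun h4 2), multGe_of_order hf κ 2 fun w => ?_⟩
  rw [hFφ.eq, Polynomial.eval_mul, Polynomial.eval_C, Polynomial.eval_prod,
    HahnSeries.orderTop_mul, hAord]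
  have h4 : ∀ i, 0 ≤ (HahnSeries.C w + HahnSeries.C κ * tau⁻¹ - φ (c i) : L0).orderTop := by
    intro i
    rw [add_sub_assoc]
    refine le_add ?_ (hκ i)
    by_cases h10 : w = 0
    · rw [h10, map_zero, HahnSeries.orderTop_zero]
      exact le_top
    · rw [orderTop_C h10]
  have h5 : (∏ i, ((Polynomial.X - Polynomial.C (φ (c i))) ^ m i).eval
      (HahnSeries.C w + HahnSeries.C κ * tau⁻¹ : L0)) =
      ∏ i, (HahnSeries.C w + HahnSeries.C κ * tau⁻¹ - φ (c i) : L0) ^ m i := by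
    refine Finset.prod_congr rfl fun i _ => ?_
    rw [Polynomial.eval_pow, Polynomial.eval_sub, Polynomial.eval_X, Polynomial.eval_C]
  rw [h5, orderTop_prod3 hm]
  have h6 := add_le_add (le_refl ((-(A.natDegree : ℚ) : ℚ) : WithTop ℚ))
    (add_nonneg (add_nonneg (h4 0) (h4 1)) (h4 2))
  rw [add_zero] at h6
  refine lt_of_lt_of_le ?_ h6
  refine WithTop.coe_lt_coe.2 ?_
  have h7 : (A.natDegree : ℚ) ≤ 2 := by exact_mod_cast h2
  push_cast
  linarith

end MPb07157.TL
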