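import Pool.Agent.Lib.MP_b07157_agD6.GeoQ

/-!
# Three branches: `A_0` is constant
-/

noncomputable section

namespace MPb07157.TL

open MvPolynomial

namespace GeoZ

open Gaux PolAux

theorem add_ge {x y : L0} {a : WithTop ℚ} (hx : a ≤ x.orderTop) (hy : a ≤ y.orderTop) :
    a ≤ (x + y).orderTop :=
  le_trans (le_min hx hy) HahnSeries.min_orderTop_le_orderTop_add

theorem add_gt {x y : L0} {a : WithTop ℚ} (hx : a < x.orderTop) (hy : a < y.orderTop) :
    a < (x + y).orderTop :=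
  lt_of_lt_of_le (lt_min hx hy) HahnSeries.min_orderTop_le_orderTop_add

theorem sub_ge {x y : L0} {a : WithTop ℚ} (hx : a ≤ x.orderTop) (hy : a ≤ y.orderTop) :
    a ≤ (x - y).orderTop := by
  rw [sub_eq_add_neg]
  exact add_ge hx (by rwa [HahnSeries.orderTop_neg])

theorem C_ge (z : ℂ) : 0 ≤ (HahnSeries.C z : L0).orderTop := mem_RG.1 (C_mem z)

theorem C_mul_ge {x : L0} {a : WithTop ℚ} (z : ℂ) (hx : a ≤ x.orderTop) :
    a ≤ (HahnSeries.C z * x).orderTop := by
  rw [HahnSeries.orderTop_mul]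
  calc a = 0 + a := (zero_add a).symm
    _ ≤ _ := add_le_add (C_ge z) hx

theorem mul_ge {x y : L0} {a b : ℚ} (hx : (a : WithTop ℚ) ≤ x.orderTop)
    (hy : (b : WithTop ℚ) ≤ y.orderTop) : ((a + b : ℚ) : WithTop ℚ) ≤ (x * y).orderTop := by
  rw [HahnSeries.orderTop_mul, WithTop.coe_add]
  exact add_le_add hx hy

theorem mul_gt {x y : L0} {a b : ℚ} (hx : (a : WithTop ℚ) < x.orderTop)
    (hy : (b : WithTop ℚ) ≤ y.orderTop) : ((a + b : ℚ) : WithTop ℚ) < (x * y).orderTop := by
  rw [HahnSeries.orderTop_mul]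
  generalize x.orderTop = X at hx ⊢
  generalize y.orderTop = Y at hy ⊢
  induction X with
  | top =>
    rw [WithTop.top_add]
    exact WithTop.coe_lt_top _
  | coe X =>
    induction Y with
    | top =>
      rw [WithTop.add_top]
      exact WithTop.coe_lt_top _
    | coe Y =>
      rw [WithTop.coe_lt_coe] at hx
      rw [WithTop.coe_le_coe] at hy
      rw [← WithTop.coe_add, WithTop.coe_lt_coe]
      linarith

theorem tau_inv_order : ((tau⁻¹ : L0)).orderTop = ((-1 : ℚ) : WithTop ℚ) := by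
  have h1 : (tau⁻¹ * tau : L0).orderTop = 0 := by
    rw [inv_mul_cancel₀ tau_ne, HahnSeries.orderTop_one]
  rw [HahnSeries.orderTop_mul, orderTop_tau] at h1
  generalize (tau⁻¹ : L0).orderTop = X at h1 ⊢
  induction X with
  | top =>
    rw [WithTop.top_add] at h1
    exact absurd h1 WithTop.top_ne_zero
  | coe X =>
    rw [← WithTop.coe_add, ← WithTop.coe_zero, WithTop.coe_inj] at h1
    rw [WithTop.coe_inj]
    linarith

theorem tau_inv_eq : (tau⁻¹ : L0) = HahnSeries.single (-1 : ℚ) (1 : ℂ) := by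
  refine inv_eq_of_mul_eq_one_right ?_
  unfold tau
  rw [HahnSeries.single_mul_single]
  norm_num

/-- The order of a polynomial at infinity. -/
theorem order_inf {p : Polynomial ℂ} (hp : p ≠ 0) :
    (p.eval₂ (HahnSeries.C : ℂ →+* L0) (tau⁻¹)).orderTop = ((-(p.natDegree : ℚ) : ℚ) : WithTop ℚ) := by
  have h1 := orderTop_inf hp
  rw [orderTop_tau_pow] at h1
  generalize (p.eval₂ (HahnSeries.C : ℂ →+* L0) (tau⁻¹)).orderTop = X at h1 ⊢
  induction X with
  | top =>
    rw [WithTop.top_add] at h1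
    exact absurd h1 WithTop.top_ne_zero
  | coe X =>
    rw [← WithTop.coe_add, ← WithTop.coe_zero, WithTop.coe_inj] at h1
    rw [WithTop.coe_inj]
    linarith

theorem order_inf_ge {p : Polynomial ℂ} {n : ℕ} (hp : p.natDegree ≤ n) :
    ((-(n : ℚ) : ℚ) : WithTop ℚ) ≤ (p.eval₂ (HahnSeries.C : ℂ →+* L0) (tau⁻¹)).orderTop := by
  by_cases h0 : p = 0
  · rw [h0, Polynomial.eval₂_zero, HahnSeries.orderTop_zero]
    exact le_top
  · rw [order_inf h0, WithTop.coe_le_coe]
    have : (p.natDegree : ℚ) ≤ n := by exact_mod_cast hp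
    linarith

section

variable {L : Type} [Field L]

theorem coeff2 (a x y z : L) :
    (Polynomial.C a * ((Polynomial.X - Polynomial.C x) * (Polynomial.X - Polynomial.C y) *
      (Polynomial.X - Polynomial.C z))).coeff 2 = -(a * (x + y + z)) := by
  have h : (Polynomial.C a * ((Polynomial.X - Polynomial.C x) * (Polynomial.X - Polynomial.C y) *
      (Polynomial.X - Polynomial.C z)) : Polynomial L) =
      Polynomial.C a * Polynomial.X ^ 3 + Polynomial.C (-(a * (x + y + z))) * Polynomial.X ^ 2 +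
        Polynomial.C (a * (x * y + x * z + y * z)) * Polynomial.X ^ 1 +
        Polynomial.C (-(a * (x * y * z))) := by
    simp only [map_neg, map_mul, map_add]
    ring
  rw [h]
  simp only [Polynomial.coeff_add, Polynomial.coeff_C_mul_X_pow, Polynomial.coeff_C]
  norm_num

theorem coeff0 (a x y z : L) :
    (Polynomial.C a * ((Polynomial.X - Polynomial.C x) * (Polynomial.X - Polynomial.C y) *
      (Polynomial.X - Polynomial.C z))).coeff 0 = -(a * (x * y * z)) := by
  rw [Polynomial.coeff_zero_eq_eval_zero]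
  simp only [Polynomial.eval_mul, Polynomial.eval_sub, Polynomial.eval_X, Polynomial.eval_C]
  ring

end

end GeoZ

open GeoZ Gaux PolAux

variable {f : MvPolynomial (Fin 3) ℂ} {c : Fin 3 → KK f} {m : Fin 3 → ℕ} {A0 : KK f}
  {A : Polynomial ℂ}

/-- The factorization at an infinite place, for constant `A_0`. -/
theorem GeoZ.fac_inf (hF : Fac f (tK f) c m A0) (hm : ∀ i, m i = 1)
    (hA : A0 = algebraMap (RatFunc ℂ) (KK f) (algebraMap (Polynomial ℂ) (RatFunc ℂ) A))
    (h0 : A.natDegree = 0) {φ : KK f →+* L0} (hφ : IsPlInf φ) :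
    PL f (tau⁻¹ : L0) = Polynomial.C (HahnSeries.C (A.coeff 0)) *
      ((Polynomial.X - Polynomial.C (φ (c 0))) * (Polynomial.X - Polynomial.C (φ (c 1))) *
        (Polynomial.X - Polynomial.C (φ (c 2)))) := by
  have h1 := hF.map φ hφ.alg
  unfold tK at h1
  rw [hφ.2] at h1
  rw [h1.eq, Fin.prod_univ_three, hm, hm, hm, pow_one, pow_one, pow_one]
  congr 2
  rw [hA, Polynomial.eq_C_of_natDegree_eq_zero h0, RatFunc.algebraMap_C, hφ.1,
    Polynomial.coeff_C_zero]

theorem GeoZ.A_ne (hF : Fac f (tK f) c m A0)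
    (hA : A0 = algebraMap (RatFunc ℂ) (KK f) (algebraMap (Polynomial ℂ) (RatFunc ℂ) A))
    (h0 : A.natDegree = 0) : A.coeff 0 ≠ 0 := by
  intro h1
  apply hF.ne
  rw [hA, Polynomial.eq_C_of_natDegree_eq_zero h0, h1, map_zero, map_zero, map_zero]

/-- `A_0` is constant, and the differences of the roots are `O(t)` at `t = ∞`: a point has
multiplicity at least four, or the roots are `β t² + O(t)` with `β ≠ 0`. -/
theorem geo_zero' (hf : f.IsHomogeneous 6) (hF : Fac f (tK f) c m A0) (hm : ∀ i, m i = 1)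
    (hA : A0 = algebraMap (RatFunc ℂ) (KK f) (algebraMap (Polynomial ℂ) (RatFunc ℂ) A))
    (h0 : A.natDegree = 0)
    (hδ : ∀ φ : KK f →+* L0, IsPlInf φ → ∀ i j, i ≠ j →
        ((-1 : ℚ) : WithTop ℚ) ≤ (φ (c i) - φ (c j)).orderTop) :
    (∃ Q : Fin 3 → ℂ, Q ≠ 0 ∧ MultGe f Q 2) ∨ ∃ β : ℂ, β ≠ 0 ∧ eval ![0, 0, 1] f ≠ 0 ∧
      ∀ φ : KK f →+* L0, IsPlInf φ → ∀ i,
        ((-1 : ℚ) : WithTop ℚ) ≤ (φ (c i) - HahnSeries.single (-2 : ℚ) β).orderTop := by
  obtain ⟨φ0, hφ0⟩ := exists_plInf hf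
  have ha := A_ne hF hA h0
  set a := A.coeff 0 with hadef
  have hδ' : ∀ φ : KK f →+* L0, IsPlInf φ → ∀ i j,
      ((-1 : ℚ) : WithTop ℚ) ≤ (φ (c i) - φ (c j)).orderTop := by
    intro φ hφ i j
    by_cases hij : i = j
    · rw [hij, sub_self, HahnSeries.orderTop_zero]
      exact le_top
    · exact hδ φ hφ i j hij
  -- the mean of the roots
  set M : Polynomial ℂ := Polynomial.C (-(3 * a)⁻¹) * Bj f 2 with hM
  have h3a : (3 : ℂ) * a ≠ 0 := mul_ne_zero (by norm_num) ha
  have hmean : ∀ φ : KK f →+* L0, IsPlInf φ →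
      3 * M.eval₂ (HahnSeries.C : ℂ →+* L0) (tau⁻¹) = φ (c 0) + φ (c 1) + φ (c 2) := by
    intro φ hφ
    have h1 := coeff_PL_L0 f (tau⁻¹ : L0) 2
    rw [fac_inf hF hm hA h0 hφ, coeff2] at h1
    rw [hM, Polynomial.eval₂_mul, Polynomial.eval₂_C, ← h1]
    have h2 : (HahnSeries.C (-(3 * a)⁻¹) : L0) * (3 * HahnSeries.C a) = -1 := by
      have h3 : (3 : L0) = HahnSeries.C (3 : ℂ) := by
        rw [map_ofNat]
      rw [h3, ← map_mul, ← map_mul, neg_mul, inv_mul_cancel₀ h3a, map_neg, map_one]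
    linear_combination (-(φ (c 0) + φ (c 1) + φ (c 2))) * h2
  have hdev : ∀ φ : KK f →+* L0, IsPlInf φ → ∀ i, ((-1 : ℚ) : WithTop ℚ) ≤
      (φ (c i) - M.eval₂ (HahnSeries.C : ℂ →+* L0) (tau⁻¹)).orderTop := by
    intro φ hφ i
    have h1 := hmean φ hφ
    have h2 : φ (c i) - M.eval₂ (HahnSeries.C : ℂ →+* L0) (tau⁻¹) =
        HahnSeries.C (1 / 3 : ℂ) * ((φ (c i) - φ (c 0)) + (φ (c i) - φ (c 1)) +
          (φ (c i) - φ (c 2))) := by
      have h3 : (HahnSeries.C (1 / 3 : ℂ) : L0) * 3 = 1 := by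
        have h4 : (3 : L0) = HahnSeries.C (3 : ℂ) := by
          rw [map_ofNat]
        rw [h4, ← map_mul]
        norm_num
      linear_combination (-(φ (c i) - M.eval₂ (HahnSeries.C : ℂ →+* L0) (tau⁻¹))) * h3 +
        (-HahnSeries.C (1 / 3 : ℂ)) * h1
    rw [h2]
    exact C_mul_ge _ (add_ge (add_ge (hδ' φ hφ i 0) (hδ' φ hφ i 1)) (hδ' φ hφ i 2))
  -- the product of the roots
  have hprod : (Bj f 0).eval₂ (HahnSeries.C : ℂ →+* L0) (tau⁻¹) =
      -(HahnSeries.C a * (φ0 (c 0) * φ0 (c 1) * φ0 (c 2))) := by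
    rw [← coeff_PL_L0, fac_inf hF hm hA h0 hφ0, coeff0]
  have hbig : 2 ≤ M.natDegree →
      ((Bj f 0).eval₂ (HahnSeries.C : ℂ →+* L0) (tau⁻¹)).orderTop =
        ((-(3 * (M.natDegree : ℚ)) : ℚ) : WithTop ℚ) := by
    intro h2
    have hM0 : M ≠ 0 := by
      rintro h3
      rw [h3, Polynomial.natDegree_zero] at h2
      omega
    have h3 : ∀ i, (φ0 (c i)).orderTop = ((-(M.natDegree : ℚ) : ℚ) : WithTop ℚ) := by
      intro i
      have h4 := order_inf hM0
      have h5 : φ0 (c i) = M.eval₂ (HahnSeries.C : ℂ →+* L0) (tau⁻¹) +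
          (φ0 (c i) - M.eval₂ (HahnSeries.C : ℂ →+* L0) (tau⁻¹)) := by ring
      rw [h5, HahnSeries.orderTop_add_eq_left, h4]
      rw [h4]
      refine lt_of_lt_of_le ?_ (hdev φ0 hφ0 i)
      rw [WithTop.coe_lt_coe]
      have : (2 : ℚ) ≤ M.natDegree := by exact_mod_cast h2
      linarith
    rw [hprod, HahnSeries.orderTop_neg, HahnSeries.orderTop_mul, HahnSeries.orderTop_mul,
      HahnSeries.orderTop_mul, h3, h3, h3, orderTop_C ha, zero_add, ← WithTop.coe_add,
      ← WithTop.coe_add, WithTop.coe_inj]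
    ring
  have hM2 : M.natDegree ≤ 2 := by
    by_contra h2
    have h3 := hbig (by omega)
    have h4 := order_inf_ge (natDegree_Bj_le hf 0)
    rw [h3, WithTop.coe_le_coe] at h4
    push_cast at h4
    have h5 : (M.natDegree : ℚ) ≤ 2 := by linarith
    exact h2 (by exact_mod_cast h5)
  rcases Nat.lt_or_ge M.natDegree 2 with h2 | h2
  · -- all roots are `O(t)`
    left
    have h3 : ∀ i, ((-1 : ℚ) : WithTop ℚ) ≤ (φ0 (c i)).orderTop := by
      intro i
      have h5 : φ0 (c i) = M.eval₂ (HahnSeries.C : ℂ →+* L0) (tau⁻¹) +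
          (φ0 (c i) - M.eval₂ (HahnSeries.C : ℂ →+* L0) (tau⁻¹)) := by ring
      rw [h5]
      refine add_ge ?_ (hdev φ0 hφ0 i)
      have h6 := order_inf_ge (n := 1) (p := M) (by omega)
      rwa [Nat.cast_one] at h6
    set κ : ℂ := (φ0 (c 0)).coeff (-1) with hκ
    refine ⟨![κ, 0, 1], ?_, multGe_of_order hf κ 2 fun w => ?_⟩
    · intro h4
      have h5 := congrFun h4 2
      simp at h5
    · have hκτ : ((-1 : ℚ) : WithTop ℚ) ≤ (HahnSeries.C κ * tau⁻¹ : L0).orderTop :=
        C_mul_ge _ tau_inv_order.ge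
      have hw : ((-1 : ℚ) : WithTop ℚ) < (HahnSeries.C w : L0).orderTop := by
        refine lt_of_lt_of_le ?_ (C_ge w)
        rw [← WithTop.coe_zero, WithTop.coe_lt_coe]
        norm_num
      have h4 : ((-1 : ℚ) : WithTop ℚ) < (HahnSeries.C κ * tau⁻¹ - φ0 (c 0)).orderTop := by
        refine lt_of_le_of_ne (sub_ge hκτ (h3 0)) (Ne.symm ?_)
        refine HahnSeries.orderTop_ne_of_coeff_eq_zero ?_
        rw [HahnSeries.coeff_sub, ← hκ, tau_inv_eq]
        have h5 : (HahnSeries.C κ * HahnSeries.single (-1 : ℚ) (1 : ℂ) : L0) =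
            HahnSeries.single (-1 : ℚ) κ := by
          have hC : (HahnSeries.C κ : L0) = HahnSeries.single 0 κ := rfl
          rw [hC, HahnSeries.single_mul_single, zero_add, mul_one]
        rw [h5, HahnSeries.coeff_single_same, sub_self]
      have h5 : ((-1 : ℚ) : WithTop ℚ) <
          (HahnSeries.C w + HahnSeries.C κ * tau⁻¹ - φ0 (c 0)).orderTop := by
        rw [add_sub_assoc]
        exact add_gt hw h4
      have h6 : ∀ i, ((-1 : ℚ) : WithTop ℚ) ≤
          (HahnSeries.C w + HahnSeries.C κ * tau⁻¹ - φ0 (c i)).orderTop :=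
        fun i => sub_ge (add_ge hw.le hκτ) (h3 i)
      rw [fac_inf hF hm hA h0 hφ0]
      simp only [Polynomial.eval_mul, Polynomial.eval_sub, Polynomial.eval_X, Polynomial.eval_C]
      have h7 := mul_gt (mul_gt h5 (h6 1)) (h6 2)
      refine lt_of_lt_of_le ?_ (C_mul_ge _ le_rfl)
      convert h7 using 2
      norm_num
  · -- the roots are `β t² + O(t)`
    right
    have hMd : M.natDegree = 2 := le_antisymm hM2 h2
    have hM0 : M ≠ 0 := by
      rintro h3
      rw [h3, Polynomial.natDegree_zero] at h2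
      omega
    refine ⟨M.coeff 2, ?_, ?_, fun φ hφ i => ?_⟩
    · rw [← hMd]
      exact Polynomial.leadingCoeff_ne_zero.2 hM0
    · have h3 := hbig h2
      have h4 : Bj f 0 ≠ 0 := by
        intro h4
        rw [h4, Polynomial.eval₂_zero, HahnSeries.orderTop_zero] at h3
        exact absurd h3 WithTop.top_ne_coe
      rw [order_inf h4, WithTop.coe_inj, hMd] at h3
      have h5 : ((Bj f 0).natDegree : ℚ) = 6 := by
        push_cast at h3
        linarith
      have h6 : (Bj f 0).natDegree = 6 := by exact_mod_cast h5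
      rw [← Bj_top hf, ← h6]
      exact Polynomial.leadingCoeff_ne_zero.2 h4
    · have h3 : φ (c i) - HahnSeries.single (-2 : ℚ) (M.coeff 2) =
          (φ (c i) - M.eval₂ (HahnSeries.C : ℂ →+* L0) (tau⁻¹)) +
            (M - Polynomial.C (M.coeff 2) * Polynomial.X ^ 2).eval₂
              (HahnSeries.C : ℂ →+* L0) (tau⁻¹) := by
        have h4 : (HahnSeries.C (M.coeff 2) * (tau⁻¹) ^ 2 : L0) =
            HahnSeries.single (-2 : ℚ) (M.coeff 2) := by
          have hC : (HahnSeries.C (M.coeff 2) : L0) = HahnSeries.single 0 (M.coeff 2) := rfl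
          rw [tau_inv_eq, HahnSeries.single_pow, hC, HahnSeries.single_mul_single]
          norm_num
        have h5 : (Polynomial.C (M.coeff 2) * Polynomial.X ^ 2).eval₂
            (HahnSeries.C : ℂ →+* L0) (tau⁻¹) = HahnSeries.C (M.coeff 2) * (tau⁻¹) ^ 2 := by
          rw [Polynomial.eval₂_mul, Polynomial.eval₂_C, Polynomial.eval₂_pow, Polynomial.eval₂_X]
        rw [Polynomial.eval₂_sub, h5, h4]
        ring
      rw [h3]
      refine add_ge (hdev φ hφ i) ?_
      have h4 : (M - Polynomial.C (M.coeff 2) * Polynomial.X ^ 2).natDegree ≤ 1 := by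
        rw [Polynomial.natDegree_le_iff_coeff_eq_zero]
        intro N hN
        rw [Polynomial.coeff_sub, Polynomial.coeff_C_mul_X_pow]
        split_ifs with h5
        · rw [h5, sub_self]
        · rw [sub_zero]
          exact Polynomial.coeff_eq_zero_of_natDegree_lt (by omega)
      have h5 := order_inf_ge h4
      rwa [Nat.cast_one] at h5

end MPb07157.TL
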