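import Pool.Agent.Lib.MP_b07157_agD6.Defs
import Pool.Agent.Lib.MP_b07157_agD6.GeoOne
import Pool.Agent.Lib.MP_b07157_agD6.GeoTwo
import Pool.Agent.Lib.MP_b07157_agD6.GeoZero
import Pool.Agent.Lib.MP_b07157_agC4.Defs

/-!
# Three branches: the geometry at the special line `x_1 = 0`
-/

noncomputable section

namespace MPb07157.TL

open MvPolynomial

variable {f : MvPolynomial (Fin 3) ℂ} {c : Fin 3 → KK f} {m : Fin 3 → ℕ} {A0 : KK f}
  {A : Polynomial ℂ}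

/-- `A_0` has degree one or two, and the differences of the roots are bounded at `t = ∞`: a point of
the line `x_1 = 0` has multiplicity at least four. -/
theorem geo_one (hf : f.IsHomogeneous 6) (hF : Fac f (tK f) c m A0) (hm : ∀ i, m i = 1)
    (hA : A0 = algebraMap (RatFunc ℂ) (KK f) (algebraMap (Polynomial ℂ) (RatFunc ℂ) A))
    (h1 : A.natDegree ≠ 0) (h2 : A.natDegree ≤ 2)
    (hδ : ∀ φ : KK f →+* L0, IsPlInf φ → ∀ i j, i ≠ j →
        0 ≤ (φ (c i) - φ (c j)).orderTop) : ∃ Q : Fin 3 → ℂ, Q ≠ 0 ∧ MultGe f Q 2 :=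
  geo_one' hf hF hm hA h1 h2 hδ

/-- `A_0` has degree three, and the differences of the roots vanish at `t = ∞`: the conditions
`CondPencil` hold at the point `Q ≠ P` of the line `x_1 = 0`. -/
theorem geo_two (hf : f.IsHomogeneous 6) (hF : Fac f (tK f) c m A0) (hm : ∀ i, m i = 1)
    (hA : A0 = algebraMap (RatFunc ℂ) (KK f) (algebraMap (Polynomial ℂ) (RatFunc ℂ) A))
    (h3 : A.natDegree = 3)
    (hδ : ∀ φ : KK f →+* L0, IsPlInf φ → ∀ i j, i ≠ j →
        ((1 : ℚ) : WithTop ℚ) ≤ (φ (c i) - φ (c j)).orderTop) : CondPencil f 6 :=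
  geo_two' hf hF hm hA h3 hδ

/-- `A_0` is constant, and the differences of the roots are `O(t)` at `t = ∞`: a point has
multiplicity at least four, or the roots are `β t² + O(t)` with `β ≠ 0`. -/
theorem geo_zero (hf : f.IsHomogeneous 6) (hF : Fac f (tK f) c m A0) (hm : ∀ i, m i = 1)
    (hA : A0 = algebraMap (RatFunc ℂ) (KK f) (algebraMap (Polynomial ℂ) (RatFunc ℂ) A))
    (h0 : A.natDegree = 0)
    (hδ : ∀ φ : KK f →+* L0, IsPlInf φ → ∀ i j, i ≠ j →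
        ((-1 : ℚ) : WithTop ℚ) ≤ (φ (c i) - φ (c j)).orderTop) :
    (∃ Q : Fin 3 → ℂ, Q ≠ 0 ∧ MultGe f Q 2) ∨ ∃ β : ℂ, β ≠ 0 ∧ eval ![0, 0, 1] f ≠ 0 ∧
      ∀ φ : KK f →+* L0, IsPlInf φ → ∀ i,
        ((-1 : ℚ) : WithTop ℚ) ≤ (φ (c i) - HahnSeries.single (-2 : ℚ) β).orderTop :=
  geo_zero' hf hF hm hA h0 hδ

end MPb07157.TL
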