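import Pool.Agent.Lib.MP_b07157_agD6.Defs

/-!
# Three branches: the second divided difference is rational

The Galois group permutes the roots `c_i`; the class of the vector field is unique up to a
constant, so the divided differences of `α` are invariant.
-/

noncomputable section

namespace MPb07157.TL

open MvPolynomial

namespace Inv3aux

section

variable {f : MvPolynomial (Fin 3) ℂ} {ι : Type} [Fintype ι]

/-- The multiplicity of the root `c i`. -/
theorem mult {L : Type} [Field L] [Algebra ℂ L] {t : L} {c : ι → L} {m : ι → ℕ} {A0 : L}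
    (hF : Fac f t c m A0) (i : ι) : (PL f t).rootMultiplicity (c i) = m i := by
  classical
  have h0 : ∏ i, (Polynomial.X - Polynomial.C (c i)) ^ m i ≠ 0 :=
    Finset.prod_ne_zero_iff.2 fun i _ => pow_ne_zero _ (Polynomial.X_sub_C_ne_zero _)
  rw [← Polynomial.count_roots, hF.eq, Polynomial.roots_C_mul _ hF.ne,
    Polynomial.roots_prod _ _ h0, Multiset.count_bind]
  simp only [Polynomial.roots_pow, Polynomial.roots_X_sub_C, Multiset.count_nsmul,
    Multiset.count_singleton]
  change (Finset.univ.sum fun j => m j * if c i = c j then 1 else 0) = m i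
  rw [Finset.sum_eq_single i]
  · rw [if_pos rfl, mul_one]
  · intro j _ hj
    rw [if_neg fun h => hj (hF.inj h).symm, mul_zero]
  · intro h
    exact absurd (Finset.mem_univ i) h

/-- The roots are the points `c i`. -/
theorem root {L : Type} [Field L] [Algebra ℂ L] {t : L} {c : ι → L} {m : ι → ℕ} {A0 : L}
    (hF : Fac f t c m A0) {x : L} (hx : (PL f t).eval x = 0) : ∃ i, x = c i := by
  rw [hF.eq, Polynomial.eval_mul, Polynomial.eval_C, Polynomial.eval_prod] at hx
  rcases mul_eq_zero.1 hx with h | h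
  · exact absurd h hF.ne
  · obtain ⟨i, -, hi⟩ := Finset.prod_eq_zero_iff.1 h
    rw [Polynomial.eval_pow, Polynomial.eval_sub, Polynomial.eval_X, Polynomial.eval_C] at hi
    exact ⟨i, sub_eq_zero.1 (pow_eq_zero_iff (hF.pos i).ne' |>.1 hi)⟩

theorem eval_root {L : Type} [Field L] [Algebra ℂ L] {t : L} {c : ι → L} {m : ι → ℕ} {A0 : L}
    (hF : Fac f t c m A0) (i : ι) : (PL f t).eval (c i) = 0 := by
  have h1 : 0 < (PL f t).rootMultiplicity (c i) := by
    rw [mult hF]
    exact hF.pos i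
  exact (Polynomial.rootMultiplicity_pos' .. |>.1 h1).2

/-- The class of the vector field, reindexed. -/
theorem cl_comp {d K : ℕ} {θ : Fin 3 → MvPolynomial (Fin 3) (Polynomial ℂ)} {L F : Type} [Field L]
    [Field F] [Algebra L F] [Algebra ℂ L] [Algebra ℂ F]
    {W : WF L F} {t : L} {c : ι → L} {m : ι → ℕ} {α : ι → L} (h : Cl f d K θ W t c m α)
    (e : ι ≃ ι) :
    Cl f d K θ W t (fun i => c (e i)) (fun i => m (e i)) (fun i => α (e i)) := by
  obtain ⟨r, hr, h1⟩ := h
  have hlg : ∀ a : ι → L, lg W (fun i => c (e i)) (fun i => a (e i)) = lg W c a := by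
    intro a
    unfold lg
    exact e.sum_comp (fun i => algebraMap L F (a i) * (W.w - algebraMap L F (c i))⁻¹)
  refine ⟨r, ?_, ?_⟩
  · unfold SS at hr ⊢
    have h2 : Set.range (fun i => (W.w - algebraMap L F (c (e i)))⁻¹) =
        Set.range (fun i => (W.w - algebraMap L F (c i))⁻¹) :=
      e.surjective.range_comp (fun i => (W.w - algebraMap L F (c i))⁻¹)
    rw [h2]
    exact hr
  · rw [h1]
    have h3 := hlg (fun i => s0m d m i * α i)
    have h4 := hlg (s0m d m)
    rw [← h3, ← h4]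
    rfl

/-- Uniqueness of the class up to a constant. -/
theorem cl_uniq [DecidableEq ι] {d K : ℕ} {θ : Fin 3 → MvPolynomial (Fin 3) (Polynomial ℂ)} {L F : Type} [Field L]
    [Field F] [Algebra L F] [Algebra ℂ L] [Algebra ℂ F]
    [CharZero L] {W : WF L F} {t : L} {c : ι → L} {m : ι → ℕ} {α β : ι → L}
    (hc : Function.Injective c) (hσ : NonRes (s0m d m : ι → L))
    (hσ0 : ∀ i, (s0m d m i : L) ≠ 0) (h : Cl f d K θ W t c m α) (h' : Cl f d K θ W t c m β) :
    ∃ κ : L, ∀ i, α i - β i = κ := by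
  obtain ⟨r, hr, h1⟩ := h
  obtain ⟨r', hr', h1'⟩ := h'
  rw [h1] at h1'
  obtain ⟨κ, -, hκ⟩ := uniq W hc hσ (a := fun i => s0m d m i * α i - s0m d m i * β i)
    (R := r' - r) (sub_mem hr' hr) (by
      have e1 : lg W c (fun i => s0m d m i * α i - s0m d m i * β i) =
          lg W c (fun i => s0m d m i * α i) - lg W c (fun i => s0m d m i * β i) := by
        unfold lg
        rw [← Finset.sum_sub_distrib]
        refine Finset.sum_congr rfl fun i _ => ?_
        rw [map_sub, sub_mul]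
      have e2 : nb W.dw (lg W c (s0m d m)) (r' - r) =
          nb W.dw (lg W c (s0m d m)) r' - nb W.dw (lg W c (s0m d m)) r := by
        unfold nb
        rw [map_sub]
        ring
      rw [e1, e2]
      linear_combination h1')
  refine ⟨κ, fun i => ?_⟩
  apply mul_left_cancel₀ (hσ0 i)
  rw [← hκ i]
  ring

end

section

variable {f : MvPolynomial (Fin 3) ℂ} {n : ℕ} {m : Fin n → ℕ} {A0 : KK f}

/-- The Galois group permutes the roots. -/
theorem gal_perm {c : Fin n → KK f} (hF : Fac f (tK f) c m A0)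
    (σ : KK f ≃ₐ[RatFunc ℂ] KK f) :
    ∃ e : Fin n ≃ Fin n, (∀ i, σ (c i) = c (e i)) ∧ ∀ i, m (e i) = m i := by
  have hσt : (σ : KK f →+* KK f) (tK f) = tK f := σ.commutes _
  have hF' := hF.map (σ : KK f →+* KK f) (fun z => by
    rw [algC]
    exact σ.commutes _)
  rw [hσt] at hF'
  have h0 : ∀ i, ∃ j, σ (c i) = c j := fun i => root hF (eval_root hF' i)
  choose e he using h0
  have hinj : Function.Injective e := by
    intro i j hij
    have h1 : σ (c i) = σ (c j) := by rw [he, he, hij]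
    exact hF.inj (σ.injective h1)
  refine ⟨Equiv.ofBijective e (Finite.injective_iff_bijective.1 hinj), he, fun i => ?_⟩
  have h2 := mult hF' i
  change (PL f (tK f)).rootMultiplicity (σ (c i)) = m i at h2
  rw [he, mult hF] at h2
  exact h2

end

section

variable {f : MvPolynomial (Fin 3) ℂ} {d : ℕ} {b : Polynomial ℂ} {K : ℕ}
  {θ : Fin 3 → MvPolynomial (Fin 3) (Polynomial ℂ)} {n : ℕ}
  {c : Fin n → KK f} {m : Fin n → ℕ} {A0 : KK f} {α : Fin n → KK f}
  {W : WF (KK f) (RatFunc (KK f))}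

/-- The Galois group acts on the differences of the coefficients of the class in the same way as
on the roots. -/
theorem gal_alpha (G : Glob f d b K θ c m A0 α W) (σ : KK f ≃ₐ[RatFunc ℂ] KK f) :
    ∃ e : Fin n ≃ Fin n, (∀ i, σ (c i) = c (e i)) ∧
      ∀ i j, σ (α i - α j) = α (e i) - α (e j) := by
  obtain ⟨e, he, hm⟩ := gal_perm G.hF σ
  refine ⟨e, he, ?_⟩
  have hσt : (σ : KK f →+* KK f) (tK f) = tK f := σ.commutes _
  have hcl := G.cl.map W (σ : KK f →+* KK f) (fun z => by
    rw [algC]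
    exact σ.commutes _)
  rw [hσt] at hcl
  obtain ⟨hσ, hσ0, -⟩ := nonRes_s0 (L := KK f) G.hF.pos G.hd G.h1 G.h2
  have h2 := cl_comp hcl e.symm
  have hc : (fun i => (fun i => (σ : KK f →+* KK f) (c i)) (e.symm i)) = c := by
    funext i
    change σ (c (e.symm i)) = c i
    rw [he, e.apply_symm_apply]
  have hmm : (fun i => m (e.symm i)) = m := by
    funext i
    rw [← hm (e.symm i), e.apply_symm_apply]
  rw [hc, hmm] at h2
  obtain ⟨κ, hκ⟩ := cl_uniq G.hF.inj hσ hσ0 G.cl h2
  intro i j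
  have h3 := hκ (e i)
  have h4 := hκ (e j)
  change α (e i) - σ (α (e.symm (e i))) = κ at h3
  change α (e j) - σ (α (e.symm (e j))) = κ at h4
  rw [e.symm_apply_apply] at h3 h4
  rw [map_sub]
  linear_combination h4 - h3

end

/-- The second divided difference is symmetric. -/
theorem lam3_perm {L : Type} [Field L] {c α : Fin 3 → L} (hc : Function.Injective c)
    (e : Fin 3 ≃ Fin 3) :
    ((α (e 0) - α (e 1)) / (c (e 0) - c (e 1)) - (α (e 0) - α (e 2)) / (c (e 0) - c (e 2))) /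
      (c (e 1) - c (e 2)) = lam3 c α := by
  have h01 : c 0 - c 1 ≠ 0 := sub_ne_zero.2 fun h => absurd (hc h) (by decide)
  have h02 : c 0 - c 2 ≠ 0 := sub_ne_zero.2 fun h => absurd (hc h) (by decide)
  have h12 : c 1 - c 2 ≠ 0 := sub_ne_zero.2 fun h => absurd (hc h) (by decide)
  have h10 : c 1 - c 0 ≠ 0 := sub_ne_zero.2 fun h => absurd (hc h) (by decide)
  have h20 : c 2 - c 0 ≠ 0 := sub_ne_zero.2 fun h => absurd (hc h) (by decide)
  have h21 : c 2 - c 1 ≠ 0 := sub_ne_zero.2 fun h => absurd (hc h) (by decide)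
  have key : ∀ e : Fin 3 ≃ Fin 3, (e 0 = 0 ∧ e 1 = 1 ∧ e 2 = 2) ∨ (e 0 = 0 ∧ e 1 = 2 ∧ e 2 = 1) ∨
      (e 0 = 1 ∧ e 1 = 0 ∧ e 2 = 2) ∨ (e 0 = 1 ∧ e 1 = 2 ∧ e 2 = 0) ∨
      (e 0 = 2 ∧ e 1 = 0 ∧ e 2 = 1) ∨ (e 0 = 2 ∧ e 1 = 1 ∧ e 2 = 0) := by
    decide
  unfold lam3
  rcases key e with ⟨h0, h1, h2⟩ | ⟨h0, h1, h2⟩ | ⟨h0, h1, h2⟩ | ⟨h0, h1, h2⟩ | ⟨h0, h1, h2⟩ |
    ⟨h0, h1, h2⟩ <;> rw [h0, h1, h2]
  · rw [div_eq_div_iff h21 h12]
    ring
  · rw [div_eq_div_iff h02 h12, sub_mul, sub_mul]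
    have e1 : (α 1 - α 0) / (c 1 - c 0) = (α 0 - α 1) / (c 0 - c 1) := by
      rw [div_eq_div_iff h10 h01]
      ring
    rw [e1]
    field_simp
    ring
  · field_simp
    ring
  · field_simp
    ring
  · field_simp
    ring

end Inv3aux

open Inv3aux

/-- The second divided difference is a rational function. -/
theorem Inv3aux.inv3 {f : MvPolynomial (Fin 3) ℂ} {d : ℕ} {b : Polynomial ℂ} {K : ℕ}
    {θ : Fin 3 → MvPolynomial (Fin 3) (Polynomial ℂ)}
    {c : Fin 3 → KK f} {m : Fin 3 → ℕ} {A0 : KK f} {α : Fin 3 → KK f}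
    {W : WF (KK f) (RatFunc (KK f))} (G : Glob f d b K θ c m A0 α W) :
    ∃ q : RatFunc ℂ, lam3 c α = algebraMap (RatFunc ℂ) (KK f) q := by
  refine Inv2aux.rational fun σ => ?_
  obtain ⟨e, he, hα⟩ := gal_alpha G σ
  refine Eq.trans ?_ (lam3_perm (α := α) G.hF.inj e)
  unfold lam3
  rw [map_div₀, map_sub, map_div₀, map_div₀, hα, hα, map_sub, map_sub, map_sub, he, he, he]

/-- The second divided difference vanishes: all difference quotients are equal. -/
theorem Inv3aux.eq_of_lam3 {L : Type} [Field L] {c α : Fin 3 → L} (hc : Function.Injective c)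
    (h : lam3 c α = 0) : ∃ x : L, ∀ i j, i ≠ j → α i - α j = x * (c i - c j) := by
  have h01 : c 0 - c 1 ≠ 0 := sub_ne_zero.2 fun h => absurd (hc h) (by decide)
  have h02 : c 0 - c 2 ≠ 0 := sub_ne_zero.2 fun h => absurd (hc h) (by decide)
  have h12 : c 1 - c 2 ≠ 0 := sub_ne_zero.2 fun h => absurd (hc h) (by decide)
  unfold lam3 at h
  rcases div_eq_zero_iff.1 h with h | h
  swap
  · exact absurd h h12
  have e1 : α 0 - α 1 = (α 0 - α 1) / (c 0 - c 1) * (c 0 - c 1) := (div_mul_cancel₀ _ h01).symm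
  have e2 : α 0 - α 2 = (α 0 - α 1) / (c 0 - c 1) * (c 0 - c 2) := by
    rw [sub_eq_zero.1 h, div_mul_cancel₀ _ h02]
  refine ⟨(α 0 - α 1) / (c 0 - c 1), fun i j hij => ?_⟩
  generalize (α 0 - α 1) / (c 0 - c 1) = x at e1 e2
  fin_cases i <;> fin_cases j
  · exact absurd rfl hij
  · exact e1
  · exact e2
  · change α 1 - α 0 = x * (c 1 - c 0)
    linear_combination -e1
  · exact absurd rfl hij
  · change α 1 - α 2 = x * (c 1 - c 2)
    linear_combination e2 - e1
  · change α 2 - α 0 = x * (c 2 - c 0)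
    linear_combination -e2
  · change α 2 - α 1 = x * (c 2 - c 1)
    linear_combination e1 - e2
  · exact absurd rfl hij

end MPb07157.TL
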