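import Pool.Agent.Lib.MP_b07157_agD6.LamB
import Pool.Agent.Lib.MP_b07157_agD6.Inv3

/-!
# Three branches: the second divided difference
-/

noncomputable section

namespace MPb07157.TL

open MvPolynomial

variable {f : MvPolynomial (Fin 3) ℂ} {d : ℕ} {b : Polynomial ℂ} {K : ℕ}
  {θ : Fin 3 → MvPolynomial (Fin 3) (Polynomial ℂ)}
  {c : Fin 3 → KK f} {m : Fin 3 → ℕ} {A0 : KK f} {α : Fin 3 → KK f}
  {W : WF (KK f) (RatFunc (KK f))}

/-- The second divided difference is a rational function. -/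
theorem Glob.inv3 (G : Glob f d b K θ c m A0 α W) :
    ∃ q : RatFunc ℂ, lam3 c α = algebraMap (RatFunc ℂ) (KK f) q :=
  Inv3aux.inv3 G

/-- The second divided difference vanishes: all difference quotients are equal. -/
theorem eq_of_lam3 {L : Type} [Field L] {c α : Fin 3 → L} (hc : Function.Injective c)
    (h : lam3 c α = 0) : ∃ x : L, ∀ i j, i ≠ j → α i - α j = x * (c i - c j) :=
  Inv3aux.eq_of_lam3 hc h

/-- **The second divided difference**: it vanishes, or the line `x_1 = 0` is special and the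
differences of the roots have order at least `k - 1` at this line, with `k = 0` only if `A_0` is
constant, and `k ≤ 1` only if the degree of `A_0` is at most two. -/
theorem Glob.lam_main (G : Glob f d b K θ c m A0 α W) (hC2 : Ch (sw f) K (sw (θ 2)))
    (hm : ∀ i, m i = 1) (hd6 : d = 6) (hns : ∀ t0 : ℂ, ¬ SpecL f 1 t0)
    (hinf : SpecL f 0 1 ∨
      ((Uf f 0 1).natDegree = 3 ∧ (Uf f 0 1).roots.toFinset.card = 3)) :
    lam3 c α = 0 ∨ (SpecL f 0 1 ∧ ∃ (A : Polynomial ℂ) (k : ℕ),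
      A0 = algebraMap (RatFunc ℂ) (KK f) (algebraMap (Polynomial ℂ) (RatFunc ℂ) A) ∧
      A.natDegree ≤ 3 ∧ (k = 0 → A.natDegree = 0) ∧ (k ≤ 1 → A.natDegree ≤ 2) ∧
      ∀ φ : KK f →+* L0, IsPlInf φ → ∀ i j, i ≠ j →
        (((k : ℚ) - 1 : ℚ) : WithTop ℚ) ≤ (φ (c i) - φ (c j)).orderTop) := by
  obtain ⟨q, hq⟩ := G.inv3
  exact LamAux.main G hC2 hm hd6 hns hinf hq

end MPb07157.TL
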