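import Pool.Agent.Lib.MP_b07157_agD6.Res0

/-!
# The residue along a special line
-/

noncomputable section

namespace MPb07157.TL

open MvPolynomial TLL

variable {f : MvPolynomial (Fin 3) ℂ} {d : ℕ} {b : Polynomial ℂ} {K : ℕ}
  {θ : Fin 3 → MvPolynomial (Fin 3) (Polynomial ℂ)} {n : ℕ}
  {c : Fin n → KK f} {m : Fin n → ℕ} {A0 : KK f} {α : Fin n → KK f}
  {W : WF (KK f) (RatFunc (KK f))}

theorem eval_sw_zero (f : MvPolynomial (Fin 3) ℂ) (z : ℂ) :
    eval ![z, 1, 0] (sw f) = eval ![z, 0, 1] f := by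
  unfold sw
  rw [eval_rename]
  congr 2
  exact InfAux.swap_eq z 1 0

theorem lo_tau : Lo 1 (tau : L0) := by
  intro q hq
  unfold tau
  rw [HahnSeries.coeff_single_of_ne hq.ne]

/-- **The residue lemma**. The line `x_1 = 0` is special and not contained in the curve, and the
roots are `β t² + O(t)` at this line, with `β ≠ 0`. Then `-3/d` is a root. -/
theorem Glob.residue (G : Glob f d b K θ c m A0 α W) (hC2 : Ch (sw f) K (sw (θ 2)))
    (hn : 0 < n) (hs : SpecL f 0 1) (h0 : eval ![0, 0, 1] f ≠ 0) {β : ℂ} (hβ : β ≠ 0)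
    (hc : ∀ φ : KK f →+* L0, IsPlInf φ → ∀ i,
        ((-1 : ℚ) : WithTop ℚ) ≤ (φ (c i) - HahnSeries.single (-2 : ℚ) β).orderTop) :
    b.eval (s0 d) = 0 := by
  obtain ⟨φ, hφ⟩ := exists_plInf G.hf
  obtain ⟨W0⟩ := exists_WF0
  have he : 0 < f.degreeOf 0 := by
    rw [← G.sum]
    have h1 : m ⟨0, hn⟩ ≤ ∑ i, m i := Finset.single_le_sum (fun i _ => Nat.zero_le (m i))
      (Finset.mem_univ _)
    have := G.hF.pos ⟨0, hn⟩
    omega
  have hF := G.hF.map φ hφ.alg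
  have hcl := G.cl.map W0 φ hφ.alg
  unfold tK at hF hcl
  rw [hφ.2] at hF hcl
  obtain ⟨A0', hF'⟩ := Fac.swap G.hf hF
  have hf' : (sw f).IsHomogeneous d := G.hf.rename_isHomogeneous
  have hcl' := Cl.swap G.hf G.h W0 hcl InfAux.tau_ne
  have hlc : ∀ i, Lo (-1) (φ (c i) - HahnSeries.single (-2 : ℚ) β) := fun i => lo_iff.2 (hc φ hφ i)
  have htau : (tau : L0) * HahnSeries.single (-2 : ℚ) β = HahnSeries.single (-1 : ℚ) β := by
    unfold tau
    rw [HahnSeries.single_mul_single]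
    norm_num
  have hc' : ∀ i, Lo 0 (tau * φ (c i) - HahnSeries.single (-1 : ℚ) β) := by
    intro i
    have h1 := lo_tau.mul (hlc i)
    rw [mul_sub, htau] at h1
    have e : (1 + -1 : ℚ) = 0 := by norm_num
    rwa [e] at h1
  refine Res.residue_local hf' G.h.swap (W0.scale tau InfAux.tau_ne) hF' G.hd G.h1 G.h2 hcl'
    (w0 := 0) ?_ ?_ ⟨0, hn⟩ ?_ hβ (hc' _)
  · intro i h1
    have h2 := hc' i (-1) (by norm_num)
    rw [← h1, map_zero, zero_sub, HahnSeries.coeff_neg, HahnSeries.coeff_single_same] at h2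
    exact hβ (neg_eq_zero.1 h2)
  · rw [eval_sw_zero]
    exact h0
  · intro i
    have h1 : -(tau ^ 3 * φ (α i)) - -(tau ^ 3 * φ (α ⟨0, hn⟩)) =
        -(tau ^ 3 * (φ (α i) - φ (α ⟨0, hn⟩))) := by ring
    show Lo 1 (-(tau ^ 3 * φ (α i)) - -(tau ^ 3 * φ (α ⟨0, hn⟩)))
    rw [h1]
    by_cases hi : i = ⟨0, hn⟩
    · rw [hi, sub_self, mul_zero, neg_zero]
      exact Lo.zero 1
    · have h2 := lo_iff.2 (G.regular_infL hC2 he hφ hs hi)
      have hne : c i - c ⟨0, hn⟩ ≠ 0 := sub_ne_zero.2 fun h => hi (G.hF.inj h)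
      have h3 : φ (α i) - φ (α ⟨0, hn⟩) = φ ((α i - α ⟨0, hn⟩) / (c i - c ⟨0, hn⟩)) *
          (φ (c i) - φ (c ⟨0, hn⟩)) := by
        rw [← map_sub, ← map_sub, ← map_mul, div_mul_cancel₀ _ hne]
      have h4 : Lo (-1) (φ (c i) - φ (c ⟨0, hn⟩)) := by
        have h5 := (hlc i).sub (hlc ⟨0, hn⟩)
        rwa [sub_sub_sub_cancel_right] at h5
      have h5 : Lo 3 ((tau : L0) ^ 3) := by
        have h6 := (lo_tau.mul lo_tau).mul lo_tau
        have e : (1 + 1 + 1 : ℚ) = 3 := by norm_num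
        rw [e] at h6
        have e2 : (tau : L0) ^ 3 = tau * tau * tau := by ring
        rwa [e2]
      rw [h3]
      have h6 := (h5.mul (h2.mul h4)).neg
      have e : (3 + (-1 + -1) : ℚ) = 1 := by norm_num
      rwa [e] at h6

end MPb07157.TL
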