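import Pool.Agent.Lib.MP_b07157_agD6.Eq
import Pool.Agent.Lib.MP_b07157_agD6.Lam
import Pool.Agent.Lib.MP_b07157_agD6.Geo
import Pool.Agent.Lib.MP_b07157_agD6.Res

/-!
# Sextic curves with a triple point, in suitable coordinates
-/

noncomputable section

namespace MPb07157.TL

open MvPolynomial InfBaux

/-- If there are at most two roots, then every line meets the curve in at most two points. -/
theorem card_Uf_le {f : MvPolynomial (Fin 3) ℂ} {d n : ℕ} (hf : f.IsHomogeneous d)
    {c : Fin n → KK f} {m : Fin n → ℕ} {A0 : KK f} (hF : Fac f (tK f) c m A0)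
    (hs : ∑ i, m i = f.degreeOf 0) (h0 : 0 < f.degreeOf 0) (h3 : f.degreeOf 0 ≤ 3) (hn : n ≤ 2)
    (a b : ℂ) : (Uf f a b).roots.toFinset.card ≤ 2 := by
  have hlt : ∀ p : Polynomial ℂ, p.natDegree ≤ 2 → p.roots.toFinset.card ≤ 2 := fun p hp =>
    (Multiset.toFinset_card_le _).trans ((Polynomial.card_roots' _).trans hp)
  by_cases ha : a = 0
  · subst ha
    rcases card_line0 hf b with h | h
    · exact h.trans (by norm_num)
    · refine h.trans ?_
      by_cases hU : (Uf f 0 1).natDegree = f.degreeOf 0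
      · obtain ⟨φ, hφ⟩ := exists_plInf hf
        have hF1 := hF.map φ hφ.alg
        unfold tK at hF1
        rw [hφ.2] at hF1
        obtain ⟨A0', hF'⟩ := Fac.swap hf hF1
        have h4 := card_roots_le hF' (by rw [hs]; exact h0) (by rw [Uf_sw, hs]; exact hU)
        rw [Uf_sw, Fintype.card_fin] at h4
        exact h4.trans hn
      · refine hlt _ ?_
        have h4 := natDegree_Uf_le f 0 1
        omega
  · rw [Uf_scale_card hf ha]
    by_cases hU : (Uf f 1 (b / a)).natDegree = f.degreeOf 0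
    · obtain ⟨φ, hφ⟩ := exists_pl f (b / a)
      have h4 := card_roots_le (Glob.facL hF hφ) (by rw [hs]; exact h0) (by rw [hs]; exact hU)
      rw [Fintype.card_fin] at h4
      exact h4.trans hn
    · refine hlt _ ?_
      have h4 := natDegree_Uf_le f 1 (b / a)
      omega

/-- **Sextic curves with a triple point** `p = (1, 0, 0)`, if no line through `p` but possibly
`x_1 = 0` is special. (If the line `x_1 = 0` is not special, we assume that it is not singular.) -/
theorem coord_six {g : MvPolynomial (Fin 3) ℂ} {B : Polynomial ℂ} (hg : g.IsHomogeneous 6)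
    (hg0 : g ≠ 0) (hdeg : g.degreeOf 0 = 3) (hns : ∀ t0 : ℂ, ¬ SpecL g 1 t0)
    (hinf : SpecL g 0 1 ∨
      ((Uf g 0 1).natDegree = 3 ∧ (Uf g 0 1).roots.toFinset.card = 3))
    (hB : IsBernsteinSato g B) :
    B.eval (s0 6) = 0 ∨ (∃ r : ℂ, Shr (lin 1 0 r 1 g)) ∨ CondPencil g 6 ∨
      (∃ Q : Fin 3 → ℂ, Q ≠ 0 ∧ MultGe g Q 2) ∨ ∀ a b : ℂ, (Uf g a b).roots.toFinset.card ≤ 2 := by
  obtain ⟨K, θ, n, c, m, A0, α, W, G, hC1, hC2⟩ := exists_glob2 hg hg0 (by rw [hdeg]; norm_num)
    (by rw [hdeg]; norm_num) (by rw [hdeg]; norm_num) hB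
  by_cases hb : B.eval (s0 6) = 0
  · exact Or.inl hb
  by_cases hn : n ≤ 2
  · exact Or.inr (Or.inr (Or.inr (Or.inr fun a b => card_Uf_le hg G.hF G.sum
      (by rw [hdeg]; norm_num) hdeg.le hn a b)))
  have hsum : ∑ i, m i = 3 := G.sum.trans hdeg
  have hn3 : n = 3 := by
    have h1 : ∑ _i : Fin n, 1 ≤ ∑ i, m i := Finset.sum_le_sum fun i _ => G.hF.pos i
    rw [Finset.sum_const, Finset.card_univ, Fintype.card_fin, smul_eq_mul, mul_one] at h1
    omega
  subst hn3
  have hm : ∀ i, m i = 1 := by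
    rw [Fin.sum_univ_three] at hsum
    have p0 := G.hF.pos 0
    have p1 := G.hF.pos 1
    have p2 := G.hF.pos 2
    intro i
    fin_cases i
    · show m 0 = 1
      omega
    · show m 1 = 1
      omega
    · show m 2 = 1
      omega
  rcases G.lam_main hC2 hm rfl hns hinf with h | ⟨hs, A, k, hA, hA3, hk0, hk1, hδ⟩
  · obtain ⟨x, hx⟩ := eq_of_lam3 G.hF.inj h
    right
    left
    exact G.equal_case hC1 hC2 (by norm_num) hx (fun i => by rw [hm]; norm_num) hns
      (by rw [hdeg]; exact hinf) hb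
  · have hmono : ∀ (a b : ℚ), a ≤ b → ((a : ℚ) : WithTop ℚ) ≤ (b : WithTop ℚ) := fun a b h => by
      exact_mod_cast h
    rcases Nat.eq_zero_or_pos A.natDegree with h0 | h0
    · have hk : (-1 : ℚ) ≤ (k : ℚ) - 1 := by
        have : (0 : ℚ) ≤ k := Nat.cast_nonneg k
        linarith
      rcases geo_zero hg G.hF hm hA h0 (fun φ hφ i j hij => (hmono _ _ hk).trans
        (hδ φ hφ i j hij)) with h | ⟨β, hβ, h1, hc⟩
      · exact Or.inr (Or.inr (Or.inr (Or.inl h)))
      · exact Or.inl (G.residue hC2 (by norm_num) hs h1 hβ hc)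
    · have hk1' : 1 ≤ k := by
        by_contra hcon
        exact h0.ne' (hk0 (by omega))
      have hk' : (1 : ℚ) ≤ k := by exact_mod_cast hk1'
      have h5 : (0 : ℚ) ≤ (k : ℚ) - 1 := by linarith
      by_cases h2 : A.natDegree ≤ 2
      · exact Or.inr (Or.inr (Or.inr (Or.inl (geo_one hg G.hF hm hA h0.ne' h2
          (fun φ hφ i j hij => (hmono _ _ h5).trans (hδ φ hφ i j hij))))))
      · have hk2 : 2 ≤ k := by
          by_contra hcon
          exact h2 (hk1 (by omega))
        have hk2' : (2 : ℚ) ≤ k := by exact_mod_cast hk2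
        have h6 : (1 : ℚ) ≤ (k : ℚ) - 1 := by linarith
        exact Or.inr (Or.inr (Or.inl (geo_two hg G.hF hm hA (by omega)
          (fun φ hφ i j hij => (hmono _ _ h6).trans (hδ φ hφ i j hij)))))

end MPb07157.TL
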