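import Pool.Agent.Lib.MP_b07157_agL3.Two

/-!
# Three branches: definitions
-/

noncomputable section

namespace MPb07157.TL

open MvPolynomial

/-- The second divided difference of `α`. -/
def lam3 {L : Type} [Field L] (c α : Fin 3 → L) : L :=
  ((α 0 - α 1) / (c 0 - c 1) - (α 0 - α 2) / (c 0 - c 2)) / (c 1 - c 2)

/-- The point `Q` has multiplicity at least `d - e`: the polynomials `f(q + X Q)` have degree at
most `e`. -/
def MultGe (f : MvPolynomial (Fin 3) ℂ) (Q : Fin 3 → ℂ) (e : ℕ) : Prop :=
  ∀ q : Fin 3 → ℂ, (aeval (fun i => Polynomial.C (q i) + Polynomial.C (Q i) * Polynomial.X) f :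
    Polynomial ℂ).natDegree ≤ e

end MPb07157.TL
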