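import Pool.Agent.Lib.MP_b07157_agD6.EqA

/-!
# All difference quotients are equal
-/

noncomputable section

namespace MPb07157.TL

open MvPolynomial

variable {f : MvPolynomial (Fin 3) ℂ} {d : ℕ} {b : Polynomial ℂ} {K : ℕ}
  {θ : Fin 3 → MvPolynomial (Fin 3) (Polynomial ℂ)} {n : ℕ}
  {c : Fin n → KK f} {m : Fin n → ℕ} {A0 : KK f} {α : Fin n → KK f}
  {W : WF (KK f) (RatFunc (KK f))}

namespace EqAux

open LamAux Zb TLL Finaux

/-- The common difference quotient is rational. -/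
theorem rational (G : Glob f d b K θ c m A0 α W) (hn : 1 < n) {x : KK f}
    (hx : ∀ i j, i ≠ j → α i - α j = x * (c i - c j)) :
    ∃ q : RatFunc ℂ, x = algebraMap (RatFunc ℂ) (KK f) q := by
  refine Inv2aux.rational fun σ => ?_
  obtain ⟨e, he, hα⟩ := Inv3aux.gal_alpha G σ
  have h01 : (⟨0, by omega⟩ : Fin n) ≠ ⟨1, hn⟩ := by
    intro h6
    have := congrArg Fin.val h6
    simp at this
  have h1 := hα ⟨0, by omega⟩ ⟨1, hn⟩
  have h2 : e ⟨0, by omega⟩ ≠ e ⟨1, hn⟩ := fun h => h01 (e.injective h)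
  rw [hx _ _ h01, hx _ _ h2, map_mul, map_sub, he, he] at h1
  exact mul_right_cancel₀ (sub_ne_zero.2 fun h => h2 (G.hF.inj h)) h1

/-- The equations at a place. -/
theorem ode (G : Glob f d b K θ c m A0 α W) {x : KK f}
    (hx : ∀ i j, i ≠ j → α i - α j = x * (c i - c j)) {t0 : ℂ} {φ : KK f →+* L0}
    (hφ : IsPl t0 φ) (i j : Fin n) :
    dtau (φ x) * (φ (c i) - φ (c j)) +
      (HahnSeries.C (s0 d) * (dtau (φ A0) / φ A0)) * (φ x * (φ (c i) - φ (c j))) +
      HahnSeries.C (1 + s0 d * ((∑ l, m l : ℕ) : ℂ)) * (φ x * dtau (φ (c i) - φ (c j))) +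
      HahnSeries.C (b.eval (s0 d) / (1 + s0 d * ((∑ i, m i : ℕ) : ℂ))) *
        (φ (c i) - φ (c j)) = 0 := by
  obtain ⟨κ, hκ⟩ := G.eq0 hφ
  exact eps_sub (c := fun i => φ (c i)) (α := fun i => φ (α i)) (G.fac hφ).inj (fun i j hij => by
    rw [← map_sub, hx i j hij, map_mul, map_sub]) hκ i j

/-- A polynomial without zeros outside `r`. -/
theorem mono_at {A : Polynomial ℂ} (hA : A ≠ 0) {r : ℂ} (h : ∀ z, z ≠ r → A.eval z ≠ 0) :
    ∃ (κ : ℂ) (k : ℕ), κ ≠ 0 ∧
      A.eval₂ (HahnSeries.C : ℂ →+* L0) (HahnSeries.C r + tau) = HahnSeries.single (k : ℚ) κ := by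
  set B : Polynomial ℂ := A.comp (Polynomial.X + Polynomial.C r) with hB
  have hB0 : B ≠ 0 := by
    intro h1
    apply hA
    have h2 := congrArg (fun P : Polynomial ℂ => P.comp (Polynomial.X - Polynomial.C r)) h1
    simp only [hB, Polynomial.comp_assoc, Polynomial.add_comp, Polynomial.X_comp,
      Polynomial.C_comp, sub_add_cancel, Polynomial.comp_X, Polynomial.zero_comp] at h2
    exact h2
  have hB1 : ∀ z : ℂ, z ≠ 0 → B.eval z ≠ 0 := by
    intro z hz
    rw [hB, Polynomial.eval_comp, Polynomial.eval_add, Polynomial.eval_X, Polynomial.eval_C]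
    exact h _ fun h1 => hz (by linear_combination h1)
  have h1 := PolAux.eq_mul_X_pow hB0 hB1
  refine ⟨B.leadingCoeff, B.natDegree, Polynomial.leadingCoeff_ne_zero.2 hB0, ?_⟩
  have h2 : A.eval₂ (HahnSeries.C : ℂ →+* L0) (HahnSeries.C r + tau) =
      B.eval₂ (HahnSeries.C : ℂ →+* L0) tau := by
    rw [hB, Polynomial.eval₂_comp, Polynomial.eval₂_add, Polynomial.eval₂_X, Polynomial.eval₂_C,
      add_comm]
  rw [h2]
  conv_lhs => rw [h1]
  rw [Polynomial.eval₂_mul, Polynomial.eval₂_pow, Polynomial.eval₂_X, Polynomial.eval₂_C]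
  have h3 : (HahnSeries.C B.leadingCoeff : L0) = HahnSeries.single 0 B.leadingCoeff := rfl
  unfold tau
  rw [h3, HahnSeries.single_pow, HahnSeries.single_mul_single]
  congr 1
  · simp
  · simp

/-- `f(X, 1, r + τ)`. -/
theorem PL_lin (f : MvPolynomial (Fin 3) ℂ) (r : ℂ) :
    PL (lin 1 0 r 1 f) (tau : L0) = PL f (HahnSeries.C r + tau) := by
  have h : (aeval ![Polynomial.X, 1, Polynomial.C tau] :
      MvPolynomial (Fin 3) ℂ →ₐ[ℂ] Polynomial L0).comp (lin 1 0 r 1) =
      aeval ![Polynomial.X, 1, Polynomial.C (HahnSeries.C r + tau)] := by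
    refine MvPolynomial.algHom_ext fun i => ?_
    rw [AlgHom.comp_apply, lin, aeval_X, aeval_X]
    have hC : ∀ z : ℂ, (algebraMap ℂ (Polynomial L0)) z = Polynomial.C (HahnSeries.C z) := by
      intro z
      rw [Polynomial.algebraMap_apply, algebraMap_L0]
    fin_cases i
    · simp
    · simp
    · simp [hC]
  exact congrArg (fun φ => φ f) h

/-- A nonvanishing polynomial is constant. -/
theorem const_of_eval {P : Polynomial ℂ} (h : ∀ z : ℂ, P.eval z ≠ 0) :
    ∃ z : ℂ, z ≠ 0 ∧ P = Polynomial.C z := by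
  have h1 : P.natDegree = 0 := by
    by_contra h2
    obtain ⟨t0, ht0⟩ := IsAlgClosed.exists_root P (by
      intro h3
      exact h2 (Polynomial.natDegree_eq_of_degree_eq_some (by rw [h3]; rfl)))
    exact h t0 ht0
  refine ⟨P.coeff 0, ?_, Polynomial.eq_C_of_natDegree_eq_zero h1⟩
  intro h2
  apply h 0
  rw [Polynomial.eq_C_of_natDegree_eq_zero h1, h2, Polynomial.C_0, Polynomial.eval_zero]

end EqAux

open EqAux LamAux Zb TLL Finaux

/-- All difference quotients are equal, and no line through `p = (1, 0, 0)` but possibly `x_1 = 0`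
is special: then `-3/d` is a root or `f` is shear-symmetric, up to a translation of `t`.
(If the line `x_1 = 0` is not special, we assume that it is not singular.) -/
theorem Glob.equal_case (G : Glob f d b K θ c m A0 α W) (hC1 : Ch f K (θ 1))
    (hC2 : Ch (sw f) K (sw (θ 2))) (hn : 1 < n) {x : KK f}
    (hx : ∀ i j, i ≠ j → α i - α j = x * (c i - c j)) (hcm : ∀ i, 3 * m i ≠ d)
    (hns : ∀ t0 : ℂ, ¬ SpecL f 1 t0)
    (hinf : SpecL f 0 1 ∨
      ((Uf f 0 1).natDegree = f.degreeOf 0 ∧ (Uf f 0 1).roots.toFinset.card = n))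
    (hb : b.eval (s0 d) ≠ 0) : ∃ r : ℂ, Shr (lin 1 0 r 1 f) := by
  classical
  have h01 : (⟨0, by omega⟩ : Fin n) ≠ ⟨1, hn⟩ := by
    intro h6
    have := congrArg Fin.val h6
    simp at this
  generalize (⟨0, by omega⟩ : Fin n) = i0 at h01
  generalize (⟨1, hn⟩ : Fin n) = i1 at h01
  have hm : 0 < ∑ i, m i := by
    have h5 : m i0 ≤ ∑ i, m i := Finset.single_le_sum (fun i _ => Nat.zero_le (m i))
      (Finset.mem_univ _)
    have := G.hF.pos i0
    omega
  have he : 0 < f.degreeOf 0 := by rw [← G.sum]; exact hm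
  have hdC : (d : ℂ) ≠ 0 := d_ne_of (f := f) (by rw [← G.sum]; exact G.hd)
  have hNR := nonRes_s0 (L := L0) G.hF.pos G.hd G.h1 G.h2
  have hbS := div_ne_zero hb hNR.2.2
  obtain ⟨q, hq⟩ := EqAux.rational G hn hx
  have hxe : ∀ i j, i ≠ j → (α i - α j) / (c i - c j) = x := by
    intro i j hij
    rw [hx i j hij, mul_div_assoc, div_self, mul_one]
    exact sub_ne_zero.2 fun h => hij (G.hF.inj h)
  obtain ⟨Q, hQ⟩ := poly_of_finite (K' := KK f) q (fun t0 φ hφ => by
    have h1 := (G.regular hφ h01).1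
    rwa [hxe _ _ h01, hq] at h1) (exists_pl f)
  rw [hQ] at hq
  have hode := fun (t0 : ℂ) (φ : KK f →+* L0) (hφ : IsPl t0 φ) => EqAux.ode G hx hφ
  have hφx : ∀ (t0 : ℂ) (φ : KK f →+* L0), IsPl t0 φ →
      φ x = Q.eval₂ (HahnSeries.C : ℂ →+* L0) (HahnSeries.C t0 + tau) := by
    intro t0 φ hφ
    rw [hq, pl_poly hφ]
  have hne : ∀ φ : KK f →+* L0, ∀ i j, i ≠ j → φ (c i) - φ (c j) ≠ 0 := by
    intro φ i j hij h
    rw [← map_sub] at h
    exact hij (G.hF.inj (sub_eq_zero.1 ((map_eq_zero φ).1 h)))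
  have hnd : ∀ t0, (Uf f 1 t0).natDegree ≠ 0 := fun t0 h =>
    hns t0 (Or.inl (spec_of_natDegree h))
  -- places at which the vector field does not vanish
  have hunit : ∀ (t0 : ℂ) (φ : KK f →+* L0), IsPl t0 φ → Q.eval t0 ≠ 0 →
      (φ A0).order = 0 ∧ ∀ i j, i ≠ j → (φ (c i) - φ (c j)).order = 0 := by
    intro t0 φ hφ h0
    have hF := G.fac hφ
    refine claim0 hF h01 hdC (hnd t0) hNR.2.2 (fun i j hij => ?_) hcm
    exact ord_unit hF.ne (hne φ i j hij) (hode t0 φ hφ i j) (by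
      rw [hφx t0 φ hφ]
      exact Gaux.orderTop_eval2 h0 Gaux.tau_pos)
  have hzero : ∀ (t0 : ℂ) (φ : KK f →+* L0), IsPl t0 φ → Q.eval t0 = 0 →
      ∀ i j, i ≠ j → (φ (c i) - φ (c j)).order = (φ (c i0) - φ (c i1)).order := by
    intro t0 φ hφ h0
    have hF := G.fac hφ
    have hlo : Lo 1 (φ x) := by
      rw [hφx t0 φ hφ]
      exact lo_poly h0
    have h1 : ∀ i j, i ≠ j → _ := fun i j hij =>
      ord_zero hF.ne (hne φ i j hij) (hode t0 φ hφ i j) hlo
    have h2 : (φ x).coeff 1 ≠ 0 := by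
      intro h3
      have h4 := h1 i0 i1 h01
      rw [h3] at h4
      apply hbS
      rw [← h4]
      ring
    intro i j hij
    have h3 := h1 i j hij
    have h4 := h1 i0 i1 h01
    have h5 : ((1 + s0 d * ((∑ l, m l : ℕ) : ℂ)) * (φ x).coeff 1) *
        (((φ (c i) - φ (c j)).order : ℂ) - ((φ (c i0) - φ (c i1)).order : ℂ)) = 0 := by
      linear_combination h3 - h4
    have h6 := (mul_eq_zero.1 h5).resolve_left (mul_ne_zero hNR.2.2 h2)
    exact_mod_cast sub_eq_zero.1 h6
  have hQ0 : Q ≠ 0 := by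
    rintro rfl
    obtain ⟨φ, hφ⟩ := exists_pl f 0
    have hF := G.fac hφ
    have hx0 : φ x = 0 := by rw [hφx 0 φ hφ, Polynomial.eval₂_zero]
    have h1 := ord_zero hF.ne (hne φ i0 i1 h01) (hode 0 φ hφ i0 i1) (by
      rw [hx0]
      exact Lo.zero 1)
    rw [hx0, HahnSeries.coeff_zero] at h1
    apply hbS
    rw [← h1]
    ring
  -- the leading coefficient
  set A : Polynomial ℂ := leadP f (∑ i, m i) with hAdef
  have hA : A0 = algebraMap (RatFunc ℂ) (KK f) (algebraMap (Polynomial ℂ) (RatFunc ℂ) A) :=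
    lead_eq G.hF
  have hAne : A ≠ 0 := by
    intro h
    rw [h, map_zero, map_zero] at hA
    exact G.hF.ne hA
  have hAev : ∀ t0, Q.eval t0 ≠ 0 → A.eval t0 ≠ 0 := by
    intro t0 h0 h1
    obtain ⟨φ, hφ⟩ := exists_pl f t0
    have h2 := (hunit t0 φ hφ h0).1
    have h3 : 0 < (φ A0).orderTop := by
      rw [hA, pl_poly hφ]
      exact Gaux.orderTop_eval2_pos h1 Gaux.tau_pos
    rw [orderTop_eq_zero (G.fac hφ).ne h2] at h3
    exact lt_irrefl _ h3
  rcases hinf with hinf | ⟨hinf, hinf'⟩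
  swap
  · -- the line at infinity is not special
    exfalso
    have hle : ∀ (t0 : ℂ) (φ : KK f →+* L0), IsPl t0 φ →
        (φ (c i0) - φ (c i1)).order ≤ 0 := by
      intro t0 φ hφ
      by_cases h0 : Q.eval t0 = 0
      swap
      · exact ((hunit t0 φ hφ h0).2 i0 i1 h01).le
      by_contra hr
      have hF := G.fac hφ
      have h1 := hzero t0 φ hφ h0
      by_cases h2 : (Uf f 1 t0).natDegree = ∑ i, m i
      · apply hns t0
        right
        refine ⟨by rw [h2, G.sum], ?_⟩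
        have h3 : 0 < (Uf f 1 t0).roots.toFinset.card := by
          rw [Finset.card_pos, Multiset.toFinset_nonempty, Ne, ← Multiset.card_eq_zero,
            (IsAlgClosed.splits (Uf f 1 t0)).natDegree_eq_card_roots.symm]
          exact hnd t0
        by_contra h4
        obtain ⟨i, j, hij, h5⟩ := exists_pair hF (by omega)
        rw [h1 i j hij] at h5
        exact hr h5.le
      · obtain ⟨-, h3, -⟩ := tangent_one hF (hnd t0) h2 h1
        have h4 : 0 ≤ (φ A0).order := by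
          have h5 := (rd_PL f t0 (∑ i, m i)).nonneg
          rw [(coeff_top hF).1] at h5
          have h6 : Ge (φ A0) 0 := h5
          exact (ge_order hF.ne).1 h6
        have h5 : (Uf f 1 t0).natDegree < ∑ i, m i := by
          refine lt_of_le_of_ne ?_ h2
          rw [G.sum]
          exact natDegree_Uf_le f 1 t0
        have h6 : (0 : ℚ) < ((∑ i, m i : ℕ) : ℚ) - ((Uf f 1 t0).natDegree : ℚ) := by
          have h7 : ((Uf f 1 t0).natDegree : ℚ) < ((∑ i, m i : ℕ) : ℚ) := by exact_mod_cast h5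
          linarith
        rw [h3] at h4
        have h7 := mul_pos (not_le.1 hr) h6
        linarith
    have hyne : c i0 - c i1 ≠ 0 := sub_ne_zero.2 fun h => h01 (G.hF.inj h)
    have hinv : ∀ φ : KK f →+* L0, (φ (c i0) - φ (c i1)).order ≤ 0 →
        0 ≤ (φ (c i0 - c i1)⁻¹).orderTop := by
      intro φ h1
      have h2 : φ (c i0 - c i1) ≠ 0 := (map_ne_zero φ).2 hyne
      have h3 : φ (c i0 - c i1)⁻¹ ≠ 0 := (map_ne_zero φ).2 (inv_ne_zero hyne)
      have h4 : (φ (c i0 - c i1) * φ (c i0 - c i1)⁻¹).order = 0 := by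
        rw [← map_mul, mul_inv_cancel₀ hyne, map_one, HahnSeries.order_one]
      rw [HahnSeries.order_mul h2 h3, map_sub] at h4
      rw [← HahnSeries.order_eq_orderTop_of_ne_zero h3]
      have h5 : (0 : ℚ) ≤ (φ (c i0 - c i1)⁻¹).order := by linarith
      exact_mod_cast h5
    have hinf1 : ∀ φ : KK f →+* L0, IsPlInf φ → (φ (c i0) - φ (c i1)).order = -1 := by
      intro φ hφ
      have h1 := G.hF.map φ hφ.alg
      unfold tK at h1
      rw [hφ.2] at h1
      obtain ⟨A0', h3⟩ := h1.swap G.hf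
      have h4 := red_inj h3 (by
        rw [InfBaux.Uf_sw]
        intro h5
        rw [h5, Polynomial.natDegree_zero] at hinf
        omega) (by rw [InfBaux.Uf_sw, hinf', Fintype.card_fin]) h01
      have h5 : φ (c i0) - φ (c i1) ≠ 0 := hne φ i0 i1 h01
      rw [← mul_sub, HahnSeries.order_mul InfAux.tau_ne h5] at h4
      have h6 : (tau : L0).order = 1 := by
        unfold tau
        exact HahnSeries.order_single one_ne_zero
      rw [h6] at h4
      linarith
    obtain ⟨z, hz⟩ := const_of_regular (c i0 - c i1)⁻¹ (fun t0 φ hφ => hinv φ (hle t0 φ hφ))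
      (fun φ hφ => hinv φ (by rw [hinf1 φ hφ]; norm_num)) (exists_pl f) (exists_plInf G.hf)
    obtain ⟨φ, hφ⟩ := exists_plInf G.hf
    have h1 := hinf1 φ hφ
    have h2 : φ (c i0 - c i1)⁻¹ = HahnSeries.C z := by rw [hz, hφ.1]
    have h3 : z ≠ 0 := by
      rintro rfl
      rw [map_zero, map_zero] at hz
      exact inv_ne_zero hyne hz
    have h4 : φ (c i0) - φ (c i1) = HahnSeries.C z⁻¹ := by
      rw [← map_sub, map_inv₀, ← h2, map_inv₀, inv_inv]
    rw [h4] at h1
    have h5 : (HahnSeries.C z⁻¹ : L0).order = 0 := order_eq_zero (Zb.orderTop_C (inv_ne_zero h3))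
    rw [h5] at h1
    norm_num at h1
  -- the line at infinity is special
  have hdeg : Q.natDegree ≤ 1 := by
    obtain ⟨φ, hφ⟩ := exists_plInf G.hf
    have h1 := G.regular_infL hC2 he hφ hinf h01
    rw [hxe _ _ h01, hq, plInf_poly hφ] at h1
    obtain ⟨h2, h3⟩ := order_inf hQ0
    rw [← HahnSeries.order_eq_orderTop_of_ne_zero h2, h3] at h1
    have h4 : (-1 : ℚ) ≤ -(Q.natDegree : ℚ) := by exact_mod_cast h1
    have h5 : (Q.natDegree : ℚ) ≤ 1 := by linarith
    exact_mod_cast h5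
  by_cases hev : ∀ z : ℂ, Q.eval z ≠ 0
  · -- the vector field is constant
    exfalso
    obtain ⟨q1, hq1, rfl⟩ := const_of_eval hev
    obtain ⟨a, ha, hAa⟩ := const_of_eval fun z => hAev z (by
      rw [Polynomial.eval_C]
      exact hq1)
    set y : KK f := c i0 - c i1 with hy
    set N : RatFunc ℂ := Algebra.norm (RatFunc ℂ) y with hN
    have hnorm : algebraMap (RatFunc ℂ) (KK f) N =
        ∏ σ : KK f ≃ₐ[RatFunc ℂ] KK f, σ y := Algebra.norm_eq_prod_automorphisms _ _
    have hconj : ∀ σ : KK f ≃ₐ[RatFunc ℂ] KK f, ∃ i j, i ≠ j ∧ σ y = c i - c j := by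
      intro σ
      obtain ⟨e, he, -⟩ := Inv3aux.gal_alpha G σ
      refine ⟨e i0, e i1, fun h => h01 (e.injective h), ?_⟩
      rw [hy, map_sub, he, he]
    have hord : ∀ (t0 : ℂ) (φ : KK f →+* L0), IsPl t0 φ →
        (φ (algebraMap (RatFunc ℂ) (KK f) N)).orderTop = 0 := by
      intro t0 φ hφ
      rw [hnorm, map_prod]
      refine order_prod0 _ (fun σ _ => ?_) (fun σ _ => ?_)
      · obtain ⟨i, j, hij, h1⟩ := hconj σ
        rw [h1, map_sub]
        exact hne φ i j hij
      · obtain ⟨i, j, hij, h1⟩ := hconj σ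
        rw [h1, map_sub]
        exact (hunit t0 φ hφ (hev t0)).2 i j hij
    obtain ⟨P, hP⟩ := poly_of_finite (K' := KK f) N (fun t0 φ hφ => (hord t0 φ hφ).ge)
      (exists_pl f)
    obtain ⟨z, hz, hPz⟩ := const_of_eval (P := P) fun t0 h0 => by
      obtain ⟨φ, hφ⟩ := exists_pl f t0
      have h1 := hord t0 φ hφ
      rw [hP, pl_poly hφ] at h1
      have h2 := Gaux.orderTop_eval2_pos h0 Gaux.tau_pos
      rw [h1] at h2
      exact lt_irrefl _ h2
    obtain ⟨φ, hφ⟩ := exists_pl f 0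
    have hN0 : φ (algebraMap (RatFunc ℂ) (KK f) N) = HahnSeries.C z := by
      rw [hP, pl_poly hφ, hPz, Polynomial.eval₂_C]
    have hA1 : φ A0 = HahnSeries.C a := by
      rw [hA, pl_poly hφ, hAa, Polynomial.eval₂_C]
    have hX1 : φ x = HahnSeries.C q1 := by
      rw [hφx 0 φ hφ, Polynomial.eval₂_C]
    have hdC0 : ∀ w : ℂ, dtau (HahnSeries.C w : L0) = 0 := by
      intro w
      rw [← algebraMap_L0, Derivation.map_algebraMap]
    set S : ℂ := 1 + s0 d * ((∑ l, m l : ℕ) : ℂ) with hS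
    set b' : ℂ := b.eval (s0 d) / S with hb'
    have hSq : S * q1 ≠ 0 := mul_ne_zero hNR.2.2 hq1
    have hsol : ∀ σ ∈ (Finset.univ : Finset (KK f ≃ₐ[RatFunc ℂ] KK f)),
        dtau (φ (σ y)) = HahnSeries.C (-b' / (S * q1)) * φ (σ y) := by
      intro σ _
      obtain ⟨i, j, hij, h1⟩ := hconj σ
      have h2 := hode 0 φ hφ i j
      rw [← map_sub, ← h1, hX1, hA1, hdC0, hdC0, zero_div, mul_zero, zero_mul, zero_mul,
        add_zero, zero_add] at h2
      have h3 : (HahnSeries.C (S * q1) : L0) ≠ 0 := by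
        rw [Ne, map_eq_zero_iff _ HahnSeries.C_injective]
        exact hSq
      apply mul_left_cancel₀ h3
      rw [← mul_assoc, ← map_mul, mul_div_cancel₀ _ hSq, map_neg, map_mul]
      linear_combination h2
    have h1 := dtau_prod Finset.univ hsol
    rw [← map_prod, ← hnorm, hN0, hdC0] at h1
    have h2 : (((Finset.univ : Finset (KK f ≃ₐ[RatFunc ℂ] KK f)).card : ℕ) : L0) ≠ 0 := by
      rw [← map_natCast (HahnSeries.C : ℂ →+* L0), Ne, map_eq_zero_iff _ HahnSeries.C_injective,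
        Nat.cast_eq_zero, Finset.card_eq_zero]
      exact Finset.univ_nonempty.ne_empty
    have h3 : (HahnSeries.C (-b' / (S * q1)) * HahnSeries.C z : L0) ≠ 0 := by
      rw [← map_mul, Ne, map_eq_zero_iff _ HahnSeries.C_injective]
      exact mul_ne_zero (div_ne_zero (neg_ne_zero.2 hbS) hSq) hz
    exact mul_ne_zero h2 h3 h1.symm
  -- the vector field has one zero
  push Not at hev
  obtain ⟨r, hr⟩ := hev
  obtain ⟨P, hP⟩ := Polynomial.dvd_iff_isRoot.2 hr
  have hP0 : P ≠ 0 := by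
    rintro rfl
    rw [mul_zero] at hP
    exact hQ0 hP
  have hPd : P.natDegree = 0 := by
    rw [hP, Polynomial.natDegree_mul (Polynomial.X_sub_C_ne_zero _) hP0,
      Polynomial.natDegree_X_sub_C] at hdeg
    omega
  obtain ⟨q1, hq1, hPq⟩ := const_of_eval (P := P) fun z h1 => by
    rw [Polynomial.eq_C_of_natDegree_eq_zero hPd, Polynomial.eval_C] at h1
    apply hP0
    rw [Polynomial.eq_C_of_natDegree_eq_zero hPd, h1, Polynomial.C_0]
  rw [hPq] at hP
  have hQev : ∀ z, z ≠ r → Q.eval z ≠ 0 := by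
    intro z hz
    rw [hP, Polynomial.eval_mul, Polynomial.eval_sub, Polynomial.eval_X, Polynomial.eval_C,
      Polynomial.eval_C]
    exact mul_ne_zero (sub_ne_zero.2 hz) hq1
  obtain ⟨κ, k, hκ, hk⟩ := mono_at hAne fun z hz => hAev z (hQev z hz)
  obtain ⟨φ, hφ⟩ := exists_pl f r
  have hF := G.fac hφ
  have hA1 : φ A0 = HahnSeries.single (k : ℚ) κ := by
    rw [hA, pl_poly hφ, hk]
  have hX1 : φ x = HahnSeries.C q1 * tau := by
    rw [hφx r φ hφ, hP, Polynomial.eval₂_mul, Polynomial.eval₂_sub, Polynomial.eval₂_X,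
      Polynomial.eval₂_C, Polynomial.eval₂_C, add_sub_cancel_left, mul_comm]
  have hdX : dtau (φ x) = HahnSeries.C q1 := by
    rw [hX1, Derivation.leibniz, smul_eq_mul, smul_eq_mul, dtau_tau, mul_one, ← algebraMap_L0,
      Derivation.map_algebraMap, mul_zero, add_zero]
  set S : ℂ := 1 + s0 d * ((∑ l, m l : ℕ) : ℂ) with hS
  set b' : ℂ := b.eval (s0 d) / S with hb'
  have hSq : S * q1 ≠ 0 := mul_ne_zero hNR.2.2 hq1
  have hlam : ∀ i j, tau * dtau (φ (c i) - φ (c j)) =
      HahnSeries.C (-(q1 * (1 + s0 d * k) + b') / (S * q1)) * (φ (c i) - φ (c j)) := by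
    intro i j
    have h1 := hode r φ hφ i j
    have h2 : dtau (φ A0) / φ A0 * tau = HahnSeries.C (k : ℂ) := by
      have h3 := Shraux.dtau_single (k : ℂ) κ (k : ℚ) (by push_cast; rfl)
      have h4 : (HahnSeries.single (k : ℚ) κ : L0) ≠ 0 := HahnSeries.single_ne_zero hκ
      rw [hA1, div_mul_eq_mul_div, div_eq_iff h4, mul_comm, h3]
    rw [hdX, hX1] at h1
    have h3 : (HahnSeries.C (S * q1) : L0) ≠ 0 := by
      rw [Ne, map_eq_zero_iff _ HahnSeries.C_injective]
      exact hSq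
    apply mul_left_cancel₀ h3
    have h5 : (HahnSeries.C (S * q1) : L0) * (HahnSeries.C (-(q1 * (1 + s0 d * k) + b') /
        (S * q1)) * (φ (c i) - φ (c j))) = HahnSeries.C (-(q1 * (1 + s0 d * k) + b')) *
          (φ (c i) - φ (c j)) := by
      rw [← mul_assoc, ← map_mul, mul_div_cancel₀ _ hSq]
    rw [h5]
    simp only [map_mul, map_add, map_neg, map_one] at h1 ⊢
    linear_combination h1 - HahnSeries.C (s0 d) * HahnSeries.C q1 * (φ (c i) - φ (c j)) * h2
  obtain ⟨l, hl⟩ : ∃ l : ℚ, (l : ℂ) = -(q1 * (1 + s0 d * k) + b') / (S * q1) := by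
    have h5 : φ (c i0) - φ (c i1) ≠ 0 := hne φ i0 i1 h01
    obtain ⟨p, hp⟩ : ∃ p, (φ (c i0) - φ (c i1)).coeff p ≠ 0 := by
      by_contra h6
      push Not at h6
      exact h5 (HahnSeries.ext (funext h6))
    exact ⟨p, Shraux.single_of_ode (hlam _ _) p hp⟩
  refine ⟨r, n, fun i => φ (c i), m, κ, k, l, fun i j => (φ (c i) - φ (c j)).coeff l,
    ?_, ?_, fun i j => ?_⟩
  · refine ⟨hF.inj, hF.pos, HahnSeries.single_ne_zero hκ, ?_⟩
    rw [PL_lin, hF.eq, hA1]
  · rw [lin_degreeOf (by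
      rw [zero_mul, sub_zero, one_mul]
      exact one_ne_zero), G.sum]
  · ext p
    by_cases hp : p = l
    · rw [hp, HahnSeries.coeff_single_same]
    · rw [HahnSeries.coeff_single_of_ne hp]
      by_contra h6
      apply hp
      have h7 := Shraux.single_of_ode (hlam i j) p h6
      rw [← hl] at h7
      exact_mod_cast h7

end MPb07157.TL
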