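import Pool.Agent.Lib.MP_b07157_agD6.LamB
import Pool.Agent.Lib.MP_b07157_agD6.Inv3

/-!
# All difference quotients are equal: local lemmas
-/

noncomputable section

namespace MPb07157.TL

open MvPolynomial

namespace EqAux

open LamAux Zb TLL Finaux

/-- The difference of two equations. -/
theorem eps_sub {n : ℕ} {c : Fin n → L0} (hc : Function.Injective c) {A X : L0} {m : Fin n → ℕ}
    {s b : ℂ} {κ : L0} {α : Fin n → L0} (hx : ∀ i j, i ≠ j → α i - α j = X * (c i - c j))
    (hE : ∀ i, eps dtau c (fun i => algebraMap ℂ L0 (s * (m i : ℂ))) α A i +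
      HahnSeries.C b * c i = κ) (i j : Fin n) :
    dtau X * (c i - c j) + A * (X * (c i - c j)) +
      HahnSeries.C (1 + s * ((∑ l, m l : ℕ) : ℂ)) * (X * dtau (c i - c j)) +
      HahnSeries.C b * (c i - c j) = 0 := by
  have hx' : ∀ i j, α i - α j = X * (c i - c j) := by
    intro i j
    by_cases hij : i = j
    · rw [hij, sub_self, sub_self, mul_zero]
    · exact hx i j hij
  have hs : ∀ i, ∑ l ∈ Finset.univ.erase i, algebraMap ℂ L0 (s * (m l : ℂ)) * (α i - α l) *
      (dtau (c i - c l) / (c i - c l)) =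
      HahnSeries.C (s * ((∑ l, m l : ℕ) : ℂ)) * (X * dtau (c i)) -
        X * ∑ l, algebraMap ℂ L0 (s * (m l : ℂ)) * dtau (c l) := by
    intro i
    have h1 : ∑ l ∈ Finset.univ.erase i, algebraMap ℂ L0 (s * (m l : ℂ)) * (α i - α l) *
        (dtau (c i - c l) / (c i - c l)) = ∑ l ∈ Finset.univ.erase i,
          algebraMap ℂ L0 (s * (m l : ℂ)) * (X * (dtau (c i) - dtau (c l))) := by
      refine Finset.sum_congr rfl fun l hl => ?_
      have hil : i ≠ l := (Finset.ne_of_mem_erase hl).symm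
      have h4 : c i - c l ≠ 0 := sub_ne_zero.2 fun h => hil (hc h)
      rw [hx' i l, map_sub]
      field_simp
    have h2 : ∑ l ∈ Finset.univ.erase i,
          algebraMap ℂ L0 (s * (m l : ℂ)) * (X * (dtau (c i) - dtau (c l))) =
        ∑ l, algebraMap ℂ L0 (s * (m l : ℂ)) * (X * (dtau (c i) - dtau (c l))) := by
      rw [← Finset.add_sum_erase Finset.univ _ (Finset.mem_univ i), sub_self, mul_zero, mul_zero,
        zero_add]
    have h3 : (HahnSeries.C (s * ((∑ l, m l : ℕ) : ℂ)) : L0) =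
        ∑ l, algebraMap ℂ L0 (s * (m l : ℂ)) := by
      rw [← algebraMap_L0, ← map_sum, ← Finset.mul_sum, Nat.cast_sum]
    rw [h1, h2, h3, Finset.sum_mul, Finset.mul_sum, ← Finset.sum_sub_distrib]
    refine Finset.sum_congr rfl fun l _ => ?_
    ring
  have h0 := hE i
  have h1 := hE j
  rw [eps, hs] at h0 h1
  have h2 : dtau (α i - α j) = X * dtau (c i - c j) + (c i - c j) * dtau X := by
    rw [hx' i j, Derivation.leibniz, smul_eq_mul, smul_eq_mul]
  have h3 := hx' i j
  rw [map_sub] at h2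
  have h4 : (HahnSeries.C (1 + s * ((∑ l, m l : ℕ) : ℂ)) : L0) =
      1 + HahnSeries.C (s * ((∑ l, m l : ℕ) : ℂ)) := by
    rw [map_add, map_one]
  rw [h4, map_sub]
  rw [map_sub] at h2
  linear_combination h0 - h1 - h2 - A * h3

/-- The order of a solution at a place where the vector field does not vanish. -/
theorem ord_unit {A0 : L0} (hA0 : A0 ≠ 0) {s b S : ℂ} {X y : L0} (hy : y ≠ 0)
    (h : dtau X * y + (HahnSeries.C s * (dtau A0 / A0)) * (X * y) +
      HahnSeries.C S * (X * dtau y) + HahnSeries.C b * y = 0) (hX : X.orderTop = 0) :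
    S * (y.order : ℂ) + s * (A0.order : ℂ) = 0 := by
  obtain ⟨hπ, hπ0⟩ := LLaux.logd hA0 s
  generalize hA : (HahnSeries.C s * (dtau A0 / A0) : L0) = A at h hπ hπ0
  have hx0 : X.orderTop = ((0 : ℚ) : WithTop ℚ) := hX
  have hlx : Lo 0 X := lo_of_eq hx0
  have hX0 : X.coeff 0 ≠ 0 := coeff_ne hx0
  have hly : Lo y.order y := lo_order y
  have hldy : Lo (y.order - 1) (dtau y) := LLaux.isD.lo hly
  have hldx : Lo (-1) (dtau X) := by
    have h2 := LLaux.isD.lo hlx
    rwa [zero_sub] at h2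
  have hY : y.coeff y.order ≠ 0 := coeff_ne (ord_top hy)
  have c1 : (dtau X * y).coeff (y.order - 1) = 0 := by
    have h3 := hldx.coeff_mul hly
    rw [show (-1 + y.order : ℚ) = y.order - 1 by ring] at h3
    rw [h3, coeff_dtau]
    norm_num
  have c2 : (X * dtau y).coeff (y.order - 1) =
      X.coeff 0 * ((y.order : ℂ) * y.coeff y.order) := by
    have h3 := hlx.coeff_mul hldy
    rw [zero_add] at h3
    rw [h3]
    congr 1
    exact LLaux.isD.coeff' y.order y
  have c3 : (A * (X * y)).coeff (y.order - 1) =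
      s * (A0.order : ℂ) * (X.coeff 0 * y.coeff y.order) := by
    have h3 := hπ.coeff_mul (hlx.mul hly)
    rw [hlx.coeff_mul hly, hπ0, show (-1 + (0 + y.order) : ℚ) = y.order - 1 by ring] at h3
    exact h3
  have c4 : y.coeff (y.order - 1) = 0 := hly _ (by linarith)
  have h3 := congrArg (fun z : L0 => z.coeff (y.order - 1)) h
  have h4 : (dtau X * y + A * (X * y) + HahnSeries.C S * (X * dtau y) +
      HahnSeries.C b * y : L0).coeff (y.order - 1) =
      0 + s * (A0.order : ℂ) * (X.coeff 0 * y.coeff y.order) +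
        S * (X.coeff 0 * ((y.order : ℂ) * y.coeff y.order)) + 0 := by
    rw [HahnSeries.coeff_add, HahnSeries.coeff_add, HahnSeries.coeff_add,
      coeff_C_mul, coeff_C_mul, c1, c2, c3, c4, mul_zero]
  have h5 := h4.symm.trans (h3.trans (HahnSeries.coeff_zero (Γ := ℚ) (R := ℂ)))
  apply mul_left_cancel₀ (mul_ne_zero hX0 hY)
  rw [mul_zero, ← h5]
  ring

/-- The order of a solution at a zero of the vector field. -/
theorem ord_zero {A0 : L0} (hA0 : A0 ≠ 0) {s b S : ℂ} {X y : L0} (hy : y ≠ 0)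
    (h : dtau X * y + (HahnSeries.C s * (dtau A0 / A0)) * (X * y) +
      HahnSeries.C S * (X * dtau y) + HahnSeries.C b * y = 0) (hX : Lo 1 X) :
    S * X.coeff 1 * (y.order : ℂ) + X.coeff 1 * (1 + s * (A0.order : ℂ)) + b = 0 := by
  obtain ⟨hπ, hπ0⟩ := LLaux.logd hA0 s
  generalize hA : (HahnSeries.C s * (dtau A0 / A0) : L0) = A at h hπ hπ0
  have hly : Lo y.order y := lo_order y
  have hldy : Lo (y.order - 1) (dtau y) := LLaux.isD.lo hly
  have hldx : Lo 0 (dtau X) := by
    have h2 := LLaux.isD.lo hX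
    rwa [sub_self] at h2
  have hY : y.coeff y.order ≠ 0 := coeff_ne (ord_top hy)
  have c1 : (dtau X * y).coeff y.order = X.coeff 1 * y.coeff y.order := by
    have h3 := hldx.coeff_mul hly
    rw [zero_add] at h3
    rw [h3, coeff_dtau]
    norm_num
  have c2 : (X * dtau y).coeff y.order =
      X.coeff 1 * ((y.order : ℂ) * y.coeff y.order) := by
    have h3 := hX.coeff_mul hldy
    rw [show (1 + (y.order - 1) : ℚ) = y.order by ring] at h3
    rw [h3]
    congr 1
    exact LLaux.isD.coeff' y.order y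
  have c3 : (A * (X * y)).coeff y.order =
      s * (A0.order : ℂ) * (X.coeff 1 * y.coeff y.order) := by
    have h3 := hπ.coeff_mul (hX.mul hly)
    rw [hX.coeff_mul hly, hπ0, show (-1 + (1 + y.order) : ℚ) = y.order by ring] at h3
    exact h3
  have h3 := congrArg (fun z : L0 => z.coeff y.order) h
  have h4 : (dtau X * y + A * (X * y) + HahnSeries.C S * (X * dtau y) +
      HahnSeries.C b * y : L0).coeff y.order =
      X.coeff 1 * y.coeff y.order + s * (A0.order : ℂ) * (X.coeff 1 * y.coeff y.order) +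
        S * (X.coeff 1 * ((y.order : ℂ) * y.coeff y.order)) + b * y.coeff y.order := by
    rw [HahnSeries.coeff_add, HahnSeries.coeff_add, HahnSeries.coeff_add,
      coeff_C_mul, coeff_C_mul, c1, c2, c3]
  have h5 := h4.symm.trans (h3.trans (HahnSeries.coeff_zero (Γ := ℚ) (R := ℂ)))
  apply mul_left_cancel₀ hY
  rw [mul_zero, ← h5]
  ring

/-- A polynomial at a zero. -/
theorem lo_poly {Q : Polynomial ℂ} {t0 : ℂ} (h : Q.eval t0 = 0) :
    Lo 1 (Q.eval₂ (HahnSeries.C : ℂ →+* L0) (HahnSeries.C t0 + tau)) := by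
  obtain ⟨P, rfl⟩ := Polynomial.dvd_iff_isRoot.2 h
  rw [Polynomial.eval₂_mul, Polynomial.eval₂_sub, Polynomial.eval₂_X, Polynomial.eval₂_C,
    add_sub_cancel_left]
  have h1 : Lo 1 (tau : L0) := lo_of_eq Gaux.orderTop_tau
  have h2 : Lo 0 (P.eval₂ (HahnSeries.C : ℂ →+* L0) (HahnSeries.C t0 + tau)) :=
    lo_iff.2 (Gaux.eval2_mem P (Gaux.RG.add_mem (Gaux.C_mem t0) (Gaux.mem_RG.2 Gaux.tau_pos.le)))
  have h3 := h1.mul h2
  rwa [add_zero] at h3

/-- If the number of the roots of `f(X, 1, t0)` is maximal, the roots do not collide. -/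
theorem red_inj {ι : Type} [Fintype ι] [DecidableEq ι] {f : MvPolynomial (Fin 3) ℂ} {t0 : ℂ}
    {c : ι → L0} {m : ι → ℕ} {A0 : L0} (h : Fac f (HahnSeries.C t0 + tau) c m A0)
    (hU : Uf f 1 t0 ≠ 0) (hcard : (Uf f 1 t0).roots.toFinset.card = Fintype.card ι) {i j : ι}
    (hij : i ≠ j) : (c i - c j).order = 0 := by
  have h3 : ∀ z : ℂ, ∃ i : Option ι, z ∈ (Uf f 1 t0).roots.toFinset →
      ∃ j, i = some j ∧ Rd (c j) z := by
    intro z
    by_cases hz : z ∈ (Uf f 1 t0).roots.toFinset
    · obtain ⟨i, hi⟩ := exists_red h hU ((Polynomial.mem_roots hU).1 (Multiset.mem_toFinset.1 hz))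
      exact ⟨some i, fun _ => ⟨i, rfl, hi⟩⟩
    · exact ⟨none, fun h4 => absurd h4 hz⟩
  choose g hg using h3
  have hinj : Set.InjOn g ((Uf f 1 t0).roots.toFinset : Set ℂ) := by
    intro z hz w hw hzw
    obtain ⟨i, hi, hi'⟩ := hg z hz
    obtain ⟨j, hj, hj'⟩ := hg w hw
    rw [hzw, hj] at hi
    rw [Option.some.inj hi] at hj'
    exact hi'.uniq hj'
  have himg : (Uf f 1 t0).roots.toFinset.image g =
      Finset.univ.map (Function.Embedding.some : ι ↪ Option ι) := by
    refine Finset.eq_of_subset_of_card_le (fun x hx => ?_) ?_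
    · obtain ⟨z, hz, rfl⟩ := Finset.mem_image.1 hx
      obtain ⟨i, hi, -⟩ := hg z hz
      rw [hi]
      exact Finset.mem_map.2 ⟨i, Finset.mem_univ i, rfl⟩
    · rw [Finset.card_image_of_injOn hinj, Finset.card_map, hcard, Finset.card_univ]
  have hall : ∀ i, ∃ z ∈ (Uf f 1 t0).roots.toFinset, g z = some i ∧ Rd (c i) z := by
    intro i
    have h4 : some i ∈ (Uf f 1 t0).roots.toFinset.image g := by
      rw [himg]
      exact Finset.mem_map.2 ⟨i, Finset.mem_univ i, rfl⟩
    obtain ⟨z, hz, hz'⟩ := Finset.mem_image.1 h4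
    obtain ⟨j, hj, hj'⟩ := hg z hz
    rw [hz'] at hj
    have h5 := Option.some.inj hj
    subst h5
    exact ⟨z, hz, hz', hj'⟩
  obtain ⟨z, hz, hz1, hz2⟩ := hall i
  obtain ⟨w, hw, hw1, hw2⟩ := hall j
  have hzw : z ≠ w := by
    rintro rfl
    rw [hz1] at hw1
    exact hij (Option.some.inj hw1)
  exact order_eq_zero ((hz2.sub hw2).orderTop_eq (sub_ne_zero.2 hzw))

/-- The derivative of a product of solutions. -/
theorem dtau_prod {κ : Type*} (s : Finset κ) {u : κ → L0} {Λ : L0}
    (h : ∀ i ∈ s, dtau (u i) = Λ * u i) :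
    dtau (∏ i ∈ s, u i) = (s.card : L0) * (Λ * ∏ i ∈ s, u i) := by
  classical
  induction s using Finset.induction_on with
  | empty =>
    rw [Finset.prod_empty, Finset.card_empty, Nat.cast_zero, zero_mul]
    exact Derivation.map_one_eq_zero dtau
  | insert a s ha ih =>
    rw [Finset.prod_insert ha, Finset.card_insert_of_notMem ha, Derivation.leibniz, smul_eq_mul,
      smul_eq_mul, ih fun i hi => h i (Finset.mem_insert_of_mem hi),
      h a (Finset.mem_insert_self a s)]
    push_cast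
    ring

theorem order_prod0 {κ : Type*} (s : Finset κ) {u : κ → L0} (h0 : ∀ i ∈ s, u i ≠ 0)
    (h : ∀ i ∈ s, (u i).order = 0) : (∏ i ∈ s, u i).orderTop = 0 := by
  classical
  induction s using Finset.induction_on with
  | empty => rw [Finset.prod_empty, HahnSeries.orderTop_one]
  | insert a s ha ih =>
    rw [Finset.prod_insert ha, HahnSeries.orderTop_mul,
      ih (fun i hi => h0 i (Finset.mem_insert_of_mem hi))
        (fun i hi => h i (Finset.mem_insert_of_mem hi)),
      orderTop_eq_zero (h0 a (Finset.mem_insert_self a s)) (h a (Finset.mem_insert_self a s)),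
      add_zero]

end EqAux

end MPb07157.TL
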