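import Pool.Agent.Lib.MP_b07157_agL3.Fin

/-!
# All difference quotients are equal: the differential equation and its leading terms
-/

noncomputable section

namespace MPb07157.TL

variable {ι : Type} [Fintype ι] [DecidableEq ι]

/-- The sum over the other points, if all difference quotients are equal. -/
theorem eps_eq_sum {c : ι → L0} (hc : Function.Injective c) {σ : ι → L0} {α : ι → L0} {x : L0}
    (hx : ∀ i j, i ≠ j → α i - α j = x * (c i - c j)) (i : ι) :
    ∑ l ∈ Finset.univ.erase i, σ l * (α i - α l) * (dtau (c i - c l) / (c i - c l)) =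
      x * ((∑ l, σ l) * dtau (c i) - ∑ l, σ l * dtau (c l)) := by
  have h1 : x * ((∑ l, σ l) * dtau (c i) - ∑ l, σ l * dtau (c l)) =
      ∑ l, σ l * (x * (dtau (c i) - dtau (c l))) := by
    rw [Finset.sum_mul, ← Finset.sum_sub_distrib, Finset.mul_sum]
    refine Finset.sum_congr rfl fun l _ => ?_
    ring
  rw [h1, ← Finset.add_sum_erase Finset.univ _ (Finset.mem_univ i), sub_self, mul_zero, mul_zero,
    zero_add]
  refine Finset.sum_congr rfl fun l hl => ?_
  have hil : i ≠ l := (Finset.ne_of_mem_erase hl).symm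
  have h4 : c i - c l ≠ 0 := sub_ne_zero.2 fun h => hil (hc h)
  rw [hx i l hil, map_sub]
  field_simp

/-- The difference of two equations, if all difference quotients are equal. -/
theorem eps_sub_n {c : ι → L0} (hc : Function.Injective c) {A : L0} {m : ι → ℕ} {s b : ℂ}
    {κ : L0} {α : ι → L0} {x : L0} (hx : ∀ i j, i ≠ j → α i - α j = x * (c i - c j))
    (hE : ∀ i, eps dtau c (fun i => algebraMap ℂ L0 (s * (m i : ℂ))) α A i +
      HahnSeries.C b * c i = κ) {i j : ι} (hij : i ≠ j) :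
    dtau x * (c i - c j) + x * dtau (c i - c j) + A * (x * (c i - c j)) +
      HahnSeries.C (s * ((∑ l, m l : ℕ) : ℂ)) * (x * dtau (c i - c j)) +
      HahnSeries.C b * (c i - c j) = 0 := by
  have h0 := hE i
  have h1 := hE j
  unfold eps at h0 h1
  rw [eps_eq_sum hc hx] at h0 h1
  have hs : ∑ l, (algebraMap ℂ L0 (s * (m l : ℂ)) : L0) =
      HahnSeries.C (s * ((∑ l, m l : ℕ) : ℂ)) := by
    rw [← map_sum, ← Finset.mul_sum, algebraMap_L0]
    push_cast
    rfl
  rw [hs] at h0 h1
  have h2 := hx i j hij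
  have h3 := congrArg (fun z => dtau z) h2
  simp only [Derivation.leibniz, smul_eq_mul, map_sub] at h3
  rw [map_sub]
  linear_combination h0 - h1 - h3 - A * h2

open TLL Finaux in
/-- The leading terms, if the common difference quotient is a unit. -/
theorem eps_lead0 {c : ι → L0} (hc : Function.Injective c) {A0 : L0} (hA0 : A0 ≠ 0)
    {m : ι → ℕ} {s b : ℂ} {κ : L0} {α : ι → L0} {x : L0}
    (hx : ∀ i j, i ≠ j → α i - α j = x * (c i - c j))
    (hE : ∀ i, eps dtau c (fun i => algebraMap ℂ L0 (s * (m i : ℂ))) α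
      (HahnSeries.C s * (dtau A0 / A0)) i + HahnSeries.C b * c i = κ)
    (h0 : x.orderTop = 0) {i j : ι} (hij : i ≠ j) :
    (1 + s * ((∑ l, m l : ℕ) : ℂ)) * ((c i - c j).order : ℂ) + s * (A0.order : ℂ) = 0 := by
  have h2 := eps_sub_n hc hx hE hij
  have hy : c i - c j ≠ 0 := sub_ne_zero.2 fun h => hij (hc h)
  obtain ⟨hπ, hπ0⟩ := LLaux.logd hA0 s
  generalize hA : (HahnSeries.C s * (dtau A0 / A0) : L0) = A at h2 hπ hπ0
  generalize c i - c j = y at hy h2 ⊢
  generalize s * ((∑ l, m l : ℕ) : ℂ) = σ at h2 ⊢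
  have hx0 : x.orderTop = ((0 : ℚ) : WithTop ℚ) := h0
  have hlx : Lo 0 x := lo_of_eq hx0
  have hX : x.coeff 0 ≠ 0 := coeff_ne hx0
  have hly : Lo y.order y := lo_order y
  have hldy : Lo (y.order - 1) (dtau y) := LLaux.isD.lo hly
  have hldx : Lo (-1) (dtau x) := by
    have h3 := LLaux.isD.lo hlx
    rwa [zero_sub] at h3
  have hY : y.coeff y.order ≠ 0 := coeff_ne (ord_top hy)
  have c1 : (dtau x * y).coeff (y.order - 1) = 0 := by
    have h3 := hldx.coeff_mul hly
    rw [show (-1 + y.order : ℚ) = y.order - 1 by ring] at h3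
    rw [h3, coeff_dtau]
    norm_num
  have c2 : (x * dtau y).coeff (y.order - 1) =
      x.coeff 0 * ((y.order : ℂ) * y.coeff y.order) := by
    have h3 := hlx.coeff_mul hldy
    rw [zero_add] at h3
    rw [h3]
    congr 1
    exact LLaux.isD.coeff' y.order y
  have c3 : (A * (x * y)).coeff (y.order - 1) =
      s * (A0.order : ℂ) * (x.coeff 0 * y.coeff y.order) := by
    have h3 := hπ.coeff_mul (hlx.mul hly)
    rw [hlx.coeff_mul hly, hπ0, show (-1 + (0 + y.order) : ℚ) = y.order - 1 by ring] at h3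
    exact h3
  have c4 : y.coeff (y.order - 1) = 0 := hly _ (by linarith)
  have h3 := congrArg (fun z : L0 => z.coeff (y.order - 1)) h2
  have h4 : (dtau x * y + x * dtau y + A * (x * y) + HahnSeries.C σ * (x * dtau y) +
      HahnSeries.C b * y : L0).coeff (y.order - 1) =
      0 + x.coeff 0 * ((y.order : ℂ) * y.coeff y.order) +
        s * (A0.order : ℂ) * (x.coeff 0 * y.coeff y.order) +
        σ * (x.coeff 0 * ((y.order : ℂ) * y.coeff y.order)) + 0 := by
    rw [HahnSeries.coeff_add, HahnSeries.coeff_add, HahnSeries.coeff_add, HahnSeries.coeff_add,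
      coeff_C_mul, coeff_C_mul, c1, c2, c3, c4, mul_zero]
  have h5 := h4.symm.trans (h3.trans (HahnSeries.coeff_zero (Γ := ℚ) (R := ℂ)))
  apply mul_left_cancel₀ (mul_ne_zero hX hY)
  rw [mul_zero, ← h5]
  ring

open TLL Finaux in
/-- The leading terms, if the common difference quotient has order at least one. -/
theorem eps_lead1 {c : ι → L0} (hc : Function.Injective c) {A0 : L0} (hA0 : A0 ≠ 0)
    {m : ι → ℕ} {s b : ℂ} {κ : L0} {α : ι → L0} {x : L0}
    (hx : ∀ i j, i ≠ j → α i - α j = x * (c i - c j))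
    (hE : ∀ i, eps dtau c (fun i => algebraMap ℂ L0 (s * (m i : ℂ))) α
      (HahnSeries.C s * (dtau A0 / A0)) i + HahnSeries.C b * c i = κ)
    (h0 : ((1 : ℚ) : WithTop ℚ) ≤ x.orderTop) {i j : ι} (hij : i ≠ j) :
    x.coeff 1 * ((1 + s * ((∑ l, m l : ℕ) : ℂ)) * ((c i - c j).order : ℂ) +
      s * (A0.order : ℂ) + 1) + b = 0 := by
  have h2 := eps_sub_n hc hx hE hij
  have hy : c i - c j ≠ 0 := sub_ne_zero.2 fun h => hij (hc h)
  obtain ⟨hπ, hπ0⟩ := LLaux.logd hA0 s
  generalize hA : (HahnSeries.C s * (dtau A0 / A0) : L0) = A at h2 hπ hπ0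
  generalize c i - c j = y at hy h2 ⊢
  generalize s * ((∑ l, m l : ℕ) : ℂ) = σ at h2 ⊢
  have hlx : Lo 1 x := lo_iff.2 h0
  have hly : Lo y.order y := lo_order y
  have hldy : Lo (y.order - 1) (dtau y) := LLaux.isD.lo hly
  have hldx : Lo 0 (dtau x) := by
    have h3 := LLaux.isD.lo hlx
    rwa [sub_self] at h3
  have hY : y.coeff y.order ≠ 0 := coeff_ne (ord_top hy)
  have c1 : (dtau x * y).coeff y.order = x.coeff 1 * y.coeff y.order := by
    have h3 := hldx.coeff_mul hly
    rw [zero_add] at h3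
    rw [h3, coeff_dtau]
    norm_num
  have c2 : (x * dtau y).coeff y.order =
      x.coeff 1 * ((y.order : ℂ) * y.coeff y.order) := by
    have h3 := hlx.coeff_mul hldy
    rw [show (1 + (y.order - 1) : ℚ) = y.order by ring] at h3
    rw [h3]
    congr 1
    exact LLaux.isD.coeff' y.order y
  have c3 : (A * (x * y)).coeff y.order =
      s * (A0.order : ℂ) * (x.coeff 1 * y.coeff y.order) := by
    have h3 := hπ.coeff_mul (hlx.mul hly)
    rw [hlx.coeff_mul hly, hπ0, show (-1 + (1 + y.order) : ℚ) = y.order by ring] at h3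
    exact h3
  have h3 := congrArg (fun z : L0 => z.coeff y.order) h2
  have h4 : (dtau x * y + x * dtau y + A * (x * y) + HahnSeries.C σ * (x * dtau y) +
      HahnSeries.C b * y : L0).coeff y.order =
      x.coeff 1 * y.coeff y.order + x.coeff 1 * ((y.order : ℂ) * y.coeff y.order) +
        s * (A0.order : ℂ) * (x.coeff 1 * y.coeff y.order) +
        σ * (x.coeff 1 * ((y.order : ℂ) * y.coeff y.order)) + b * y.coeff y.order := by
    rw [HahnSeries.coeff_add, HahnSeries.coeff_add, HahnSeries.coeff_add, HahnSeries.coeff_add,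
      coeff_C_mul, coeff_C_mul, c1, c2, c3]
  have h5 := h4.symm.trans (h3.trans (HahnSeries.coeff_zero (Γ := ℚ) (R := ℂ)))
  apply mul_right_cancel₀ hY
  rw [zero_mul, ← h5]
  ring

/-- If the common difference quotient has order greater than one, then `b = 0`. -/
theorem eps_lead2 {c : ι → L0} (hc : Function.Injective c) {A0 : L0} (hA0 : A0 ≠ 0)
    {m : ι → ℕ} {s b : ℂ} {κ : L0} {α : ι → L0} {x : L0}
    (hx : ∀ i j, i ≠ j → α i - α j = x * (c i - c j))
    (hE : ∀ i, eps dtau c (fun i => algebraMap ℂ L0 (s * (m i : ℂ))) α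
      (HahnSeries.C s * (dtau A0 / A0)) i + HahnSeries.C b * c i = κ)
    (h0 : ((1 : ℚ) : WithTop ℚ) < x.orderTop) {i j : ι} (hij : i ≠ j) : b = 0 := by
  have h1 := eps_lead1 hc hA0 hx hE h0.le hij
  rwa [HahnSeries.coeff_eq_zero_of_lt_orderTop h0, zero_mul, zero_add] at h1

/-- If the common difference quotient has order at least one, it has order one, and the orders of
the differences of the points are equal. -/
theorem eps_lead1' {c : ι → L0} (hc : Function.Injective c) {A0 : L0} (hA0 : A0 ≠ 0)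
    {m : ι → ℕ} {s b : ℂ} {κ : L0} {α : ι → L0} {x : L0}
    (hx : ∀ i j, i ≠ j → α i - α j = x * (c i - c j))
    (hE : ∀ i, eps dtau c (fun i => algebraMap ℂ L0 (s * (m i : ℂ))) α
      (HahnSeries.C s * (dtau A0 / A0)) i + HahnSeries.C b * c i = κ)
    (h0 : ((1 : ℚ) : WithTop ℚ) ≤ x.orderTop) (hb : b ≠ 0)
    (hS : 1 + s * ((∑ l, m l : ℕ) : ℂ) ≠ 0) {i j k l : ι} (hij : i ≠ j) (hkl : k ≠ l) :
    x.coeff 1 ≠ 0 ∧ (c i - c j).order = (c k - c l).order := by
  have h1 := eps_lead1 hc hA0 hx hE h0 hij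
  have h2 := eps_lead1 hc hA0 hx hE h0 hkl
  have h3 : x.coeff 1 ≠ 0 := by
    intro h
    rw [h, zero_mul, zero_add] at h1
    exact hb h1
  refine ⟨h3, ?_⟩
  have h4 : x.coeff 1 * ((1 + s * ((∑ l, m l : ℕ) : ℂ)) *
      (((c i - c j).order : ℂ) - ((c k - c l).order : ℂ))) = 0 := by
    linear_combination h1 - h2
  have h5 := ((mul_eq_zero.1 ((mul_eq_zero.1 h4).resolve_left h3)).resolve_left hS)
  exact_mod_cast sub_eq_zero.1 h5

end MPb07157.TL
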