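import Pool.Agent.Lib.MP_b07157_agD6.Defs

/-!
# Values of rational functions of `w` at a point
-/

noncomputable section

namespace MPb07157.TL

open MvPolynomial

variable {L F : Type} [Field L] [Field F] [Algebra L F] [Algebra ℂ L] [Algebra ℂ F]
  [IsScalarTower ℂ L F] {ι : Type} [Fintype ι] [DecidableEq ι]

/-- `y` is the value of `x` at `w = w0`. -/
def Ev (W : WF L F) (w0 : L) (x : F) (y : L) : Prop :=
  ∃ p q : Polynomial L, q.eval w0 ≠ 0 ∧ x * Polynomial.aeval W.w q = Polynomial.aeval W.w p ∧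
    y * q.eval w0 = p.eval w0

namespace Ev

variable {W : WF L F} {w0 : L} {x x' : F} {y y' : L}

omit [Algebra ℂ L] [Algebra ℂ F] [IsScalarTower ℂ L F]

theorem unique (h : Ev W w0 x y) (h' : Ev W w0 x y') : y = y' := by
  obtain ⟨p, q, h1, h2, h3⟩ := h
  obtain ⟨p', q', h1', h2', h3'⟩ := h'
  have h4 : p * q' = p' * q := by
    apply W.inj
    rw [map_mul, map_mul, ← h2, ← h2']
    ring
  have h5 := congrArg (Polynomial.eval w0) h4
  rw [Polynomial.eval_mul, Polynomial.eval_mul, ← h3, ← h3'] at h5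
  apply mul_right_cancel₀ (mul_ne_zero h1 h1')
  linear_combination h5

theorem add (h : Ev W w0 x y) (h' : Ev W w0 x' y') : Ev W w0 (x + x') (y + y') := by
  obtain ⟨p, q, h1, h2, h3⟩ := h
  obtain ⟨p', q', h1', h2', h3'⟩ := h'
  refine ⟨p * q' + p' * q, q * q', ?_, ?_, ?_⟩
  · rw [Polynomial.eval_mul]
    exact mul_ne_zero h1 h1'
  · rw [map_mul, map_add, map_mul, map_mul, ← h2, ← h2']
    ring
  · rw [Polynomial.eval_mul, Polynomial.eval_add, Polynomial.eval_mul, Polynomial.eval_mul, ← h3,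
      ← h3']
    ring

theorem mul (h : Ev W w0 x y) (h' : Ev W w0 x' y') : Ev W w0 (x * x') (y * y') := by
  obtain ⟨p, q, h1, h2, h3⟩ := h
  obtain ⟨p', q', h1', h2', h3'⟩ := h'
  refine ⟨p * p', q * q', ?_, ?_, ?_⟩
  · rw [Polynomial.eval_mul]
    exact mul_ne_zero h1 h1'
  · rw [map_mul, map_mul, ← h2, ← h2']
    ring
  · rw [Polynomial.eval_mul, Polynomial.eval_mul, ← h3, ← h3']
    ring

theorem alg (W : WF L F) (w0 a : L) : Ev W w0 (algebraMap L F a) a :=
  ⟨Polynomial.C a, 1, by simp, by simp, by simp⟩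

theorem w (W : WF L F) (w0 : L) : Ev W w0 W.w w0 :=
  ⟨Polynomial.X, 1, by simp, by simp, by simp⟩

theorem neg (h : Ev W w0 x y) : Ev W w0 (-x) (-y) := by
  obtain ⟨p, q, h1, h2, h3⟩ := h
  refine ⟨-p, q, h1, ?_, ?_⟩
  · rw [map_neg, ← h2]
    ring
  · rw [Polynomial.eval_neg, ← h3]
    ring

theorem sub (h : Ev W w0 x y) (h' : Ev W w0 x' y') : Ev W w0 (x - x') (y - y') := by
  rw [sub_eq_add_neg, sub_eq_add_neg]
  exact h.add h'.neg

theorem inv (h : Ev W w0 x y) (hy : y ≠ 0) : Ev W w0 x⁻¹ y⁻¹ := by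
  obtain ⟨p, q, h1, h2, h3⟩ := h
  have hp : p.eval w0 ≠ 0 := by
    rw [← h3]
    exact mul_ne_zero hy h1
  have hx : x ≠ 0 := by
    rintro rfl
    rw [zero_mul] at h2
    apply hp
    have h4 : p = 0 := by
      apply W.inj
      rw [← h2, map_zero]
    rw [h4, Polynomial.eval_zero]
  refine ⟨q, p, hp, ?_, ?_⟩
  · rw [← h2, inv_mul_cancel_left₀ hx]
  · rw [← h3, inv_mul_cancel_left₀ hy]

theorem pow (h : Ev W w0 x y) (k : ℕ) : Ev W w0 (x ^ k) (y ^ k) := by
  induction k with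
  | zero =>
    rw [pow_zero, pow_zero]
    have := alg W w0 1
    rwa [map_one] at this
  | succ k ih =>
    rw [pow_succ, pow_succ]
    exact ih.mul h

theorem sum {κ : Type} (s : Finset κ) {x : κ → F} {y : κ → L} (h : ∀ i ∈ s, Ev W w0 (x i) (y i)) :
    Ev W w0 (∑ i ∈ s, x i) (∑ i ∈ s, y i) := by
  classical
  induction s using Finset.induction_on with
  | empty =>
    rw [Finset.sum_empty, Finset.sum_empty]
    have := alg W w0 0
    rwa [map_zero] at this
  | insert a s ha ih =>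
    rw [Finset.sum_insert ha, Finset.sum_insert ha]
    exact (h a (Finset.mem_insert_self a s)).add
      (ih fun i hi => h i (Finset.mem_insert_of_mem hi))

theorem lg {c : ι → L} (hw : ∀ i, w0 ≠ c i) (a : ι → L) :
    Ev W w0 (TL.lg W c a) (∑ i, a i * (w0 - c i)⁻¹) := by
  unfold TL.lg
  exact Ev.sum _ fun i _ => (alg W w0 (a i)).mul
    (((Ev.w W w0).sub (alg W w0 (c i))).inv (sub_ne_zero.2 (hw i)))

theorem exists_of_mem {c : ι → L} (hw : ∀ i, w0 ≠ c i) (hx : x ∈ SS W c) :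
    ∃ y, Ev W w0 x y := by
  unfold SS at hx
  induction hx using Algebra.adjoin_induction with
  | mem x hx =>
    rcases hx with rfl | ⟨i, rfl⟩
    · exact ⟨_, Ev.w W w0⟩
    · exact ⟨_, ((Ev.w W w0).sub (alg W w0 (c i))).inv (sub_ne_zero.2 (hw i))⟩
  | algebraMap a => exact ⟨_, alg W w0 a⟩
  | add x y _ _ hx hy =>
    obtain ⟨a, ha⟩ := hx
    obtain ⟨b, hb⟩ := hy
    exact ⟨_, ha.add hb⟩
  | mul x y _ _ hx hy =>
    obtain ⟨a, ha⟩ := hx
    obtain ⟨b, hb⟩ := hy
    exact ⟨_, ha.mul hb⟩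

end Ev

section

variable {W : WF L F} {w0 : L} {x : F} {y : L}

omit [IsScalarTower ℂ L F] in
theorem Ev.poly_dt (T : TF W) (hδ : T.δ w0 = 0) (p : Polynomial L) :
    ∃ p' : Polynomial L, T.dt (Polynomial.aeval W.w p) = Polynomial.aeval W.w p' ∧
      T.δ (p.eval w0) = p'.eval w0 := by
  have h1 : ∀ n : ℕ, T.dt (W.w ^ n) = 0 := by
    intro n
    rw [Derivation.leibniz_pow, T.dt_w, smul_zero, smul_zero]
  have h2 : ∀ n : ℕ, T.δ (w0 ^ n) = 0 := by
    intro n
    rw [Derivation.leibniz_pow, hδ, smul_zero, smul_zero]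
  induction p using Polynomial.induction_on' with
  | add p q hp hq =>
    obtain ⟨p', h3, h4⟩ := hp
    obtain ⟨q', h5, h6⟩ := hq
    exact ⟨p' + q', by rw [map_add, map_add, h3, h5, map_add],
      by rw [Polynomial.eval_add, map_add, h4, h6, Polynomial.eval_add]⟩
  | monomial n a =>
    refine ⟨Polynomial.monomial n (T.δ a), ?_, ?_⟩
    · rw [Polynomial.aeval_monomial, Polynomial.aeval_monomial, Derivation.leibniz, h1, smul_zero,
        zero_add, T.dt_alg, smul_eq_mul, mul_comm]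
    · rw [Polynomial.eval_monomial, Polynomial.eval_monomial, Derivation.leibniz, h2, smul_zero,
        zero_add, smul_eq_mul, mul_comm]

omit [IsScalarTower ℂ L F] in
theorem Ev.dt (T : TF W) (hδ : T.δ w0 = 0) (h : Ev W w0 x y) : Ev W w0 (T.dt x) (T.δ y) := by
  obtain ⟨p, q, h1, h2, h3⟩ := h
  obtain ⟨p', hp1, hp2⟩ := Ev.poly_dt T hδ p
  obtain ⟨q', hq1, hq2⟩ := Ev.poly_dt T hδ q
  have h4 := congrArg T.dt h2
  have h5 := congrArg T.δ h3
  rw [Derivation.leibniz, smul_eq_mul, smul_eq_mul, hp1, hq1] at h4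
  rw [Derivation.leibniz, smul_eq_mul, smul_eq_mul, hp2, hq2] at h5
  refine ⟨p' * q - p * q', q * q, ?_, ?_, ?_⟩
  · rw [Polynomial.eval_mul]
    exact mul_ne_zero h1 h1
  · rw [map_mul, map_sub, map_mul, map_mul, ← h4, ← h2]
    ring
  · rw [Polynomial.eval_mul, Polynomial.eval_sub, Polynomial.eval_mul, Polynomial.eval_mul, ← h5,
      ← h3]
    ring

theorem Ev.wt {c : ι → L} (T : TF W) (hw : ∀ i, w0 ≠ c i) (σ : ι → L) (A : L) :
    Ev W w0 (wt T c σ A) (A - ∑ i, σ i * T.δ (c i) * (w0 - c i)⁻¹) := by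
  unfold TL.wt
  exact (Ev.alg W w0 A).sub (Ev.lg hw _)

/-- Values of polynomials at `(w, 1, t)`. -/
theorem Ev.mv (W : WF L F) (w0 t : L) (p : MvPolynomial (Fin 3) ℂ) :
    Ev W w0 (aeval (pt W.w (algebraMap L F t)) p) (aeval (pt w0 t) p) := by
  induction p using MvPolynomial.induction_on with
  | C a =>
    have h := Ev.alg W w0 (algebraMap ℂ L a)
    rw [← IsScalarTower.algebraMap_apply] at h
    rwa [MvPolynomial.algHom_C, MvPolynomial.algHom_C]
  | add p q hp hq =>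
    rw [map_add, map_add]
    exact hp.add hq
  | mul_X p i hp =>
    rw [map_mul, map_mul, aeval_X, aeval_X]
    refine hp.mul ?_
    fin_cases i
    · exact Ev.w W w0
    · have h := Ev.alg W w0 (1 : L)
      rw [map_one] at h
      exact h
    · exact Ev.alg W w0 t

end

end MPb07157.TL
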