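import Pool.Agent.Lib.MP_b07157_agD6.Defs
import Pool.Agent.Lib.MP_b07157_agC4.Defs
import Pool.Agent.Lib.MP_b07157_agL3.Pol

/-!
# The geometry at the special line: helper lemmas
-/

noncomputable section

namespace MPb07157.TL

open MvPolynomial

namespace GeoAux

theorem eval_PL {L : Type} [Field L] [Algebra ℂ L] {t : L} (c : L) (q : MvPolynomial (Fin 3) ℂ) :
    (PL q t).eval c = aeval ![c, 1, t] q := by
  induction q using MvPolynomial.induction_on with
  | C a =>
    show (PL (algebraMap ℂ _ a) t).eval c = aeval ![c, 1, t] (algebraMap ℂ _ a)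
    rw [PL, AlgHom.commutes, AlgHom.commutes]
    exact Polynomial.eval_C
  | add p q hp hq => rw [PL, map_add, Polynomial.eval_add, map_add, ← hp, ← hq, PL, PL]
  | mul_X p j hp =>
    rw [PL, map_mul, Polynomial.eval_mul, map_mul, ← hp, PL, aeval_X, aeval_X]
    congr 1
    fin_cases j
    · exact Polynomial.eval_X
    · exact Polynomial.eval_one
    · exact Polynomial.eval_C

/-- Evaluation of the polynomial `f(q + X P)` at a series. -/
theorem eval₂_aeval (g : Fin 3 → Polynomial ℂ) (f : MvPolynomial (Fin 3) ℂ) (y : L0) :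
    (aeval g f : Polynomial ℂ).eval₂ (HahnSeries.C : ℂ →+* L0) y =
      aeval (fun i => (g i).eval₂ (HahnSeries.C : ℂ →+* L0) y) f := by
  have h : (Polynomial.eval₂RingHom (HahnSeries.C : ℂ →+* L0) y).comp
      ((aeval g : MvPolynomial (Fin 3) ℂ →ₐ[ℂ] Polynomial ℂ) : MvPolynomial (Fin 3) ℂ →+* _) =
      ((aeval (fun i => (g i).eval₂ (HahnSeries.C : ℂ →+* L0) y) :
        MvPolynomial (Fin 3) ℂ →ₐ[ℂ] L0) : MvPolynomial (Fin 3) ℂ →+* L0) := by
    refine MvPolynomial.ringHom_ext (fun z => ?_) (fun i => ?_)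
    · rw [RingHom.comp_apply, RingHom.coe_coe, RingHom.coe_coe, aeval_C, aeval_C,
        Polynomial.algebraMap_eq, Polynomial.coe_eval₂RingHom, Polynomial.eval₂_C, algebraMap_L0]
    · rw [RingHom.comp_apply, RingHom.coe_coe, RingHom.coe_coe, aeval_X, aeval_X,
        Polynomial.coe_eval₂RingHom]
  exact congrArg (fun φ => φ f) h

/-- The value of `f` on a line through `(κ, 0, 1)`. -/
theorem eval_line {f : MvPolynomial (Fin 3) ℂ} {d : ℕ} (hf : f.IsHomogeneous d) {ι : Type}
    [Fintype ι] {c : ι → L0} {m : ι → ℕ} {A0 : L0} (h : Fac f tau⁻¹ c m A0) (κ : ℂ)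
    {q : Fin 3 → ℂ} (hq : q 1 ≠ 0) :
    ((lineP f ![κ, 0, 1] q).comp (Polynomial.C (q 1) * Polynomial.X -
        Polynomial.C (q 2))).eval₂ (HahnSeries.C : ℂ →+* L0) tau⁻¹ =
      HahnSeries.C (q 1) ^ d * (A0 * ∏ i, (HahnSeries.C ((q 0 - κ * q 2) / q 1) +
        HahnSeries.C κ * tau⁻¹ - c i) ^ m i) := by
  set w : L0 := HahnSeries.C ((q 0 - κ * q 2) / q 1) + HahnSeries.C κ * tau⁻¹ with hw
  have h1 : (PL f (tau⁻¹ : L0)).eval w = A0 * ∏ i, (w - c i) ^ m i := by
    rw [h.eq, Polynomial.eval_mul, Polynomial.eval_C, Polynomial.eval_prod]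
    congr 1
    refine Finset.prod_congr rfl fun i _ => ?_
    rw [Polynomial.eval_pow, Polynomial.eval_sub, Polynomial.eval_X, Polynomial.eval_C]
  rw [← h1, eval_PL, ← Embaux.aeval_homog hf, Polynomial.eval₂_comp, lineP, eval₂_aeval]
  have h2 : (HahnSeries.C (q 1) : L0) * HahnSeries.C ((q 0 - κ * q 2) / q 1) =
      HahnSeries.C (q 0) - HahnSeries.C κ * HahnSeries.C (q 2) := by
    rw [← map_mul, mul_div_cancel₀ _ hq, map_sub, map_mul]
  congr 2
  funext i
  rw [Polynomial.eval₂_add, Polynomial.eval₂_mul, Polynomial.eval₂_C, Polynomial.eval₂_C,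
    Polynomial.eval₂_X, Polynomial.eval₂_sub, Polynomial.eval₂_mul, Polynomial.eval₂_C,
    Polynomial.eval₂_C, Polynomial.eval₂_X]
  fin_cases i
  · show HahnSeries.C (q 0) + HahnSeries.C κ * _ = HahnSeries.C (q 1) * w
    rw [hw, mul_add, h2]
    ring
  · show HahnSeries.C (q 1) + HahnSeries.C 0 * _ = HahnSeries.C (q 1) * 1
    rw [map_zero, zero_mul, add_zero, mul_one]
  · show HahnSeries.C (q 2) + HahnSeries.C 1 * _ = HahnSeries.C (q 1) * tau⁻¹
    rw [map_one]
    ring

theorem natDegree_comp_line (p : Polynomial ℂ) {a b : ℂ} (ha : a ≠ 0) :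
    (p.comp (Polynomial.C a * Polynomial.X - Polynomial.C b)).natDegree = p.natDegree := by
  rw [Polynomial.natDegree_comp, Polynomial.natDegree_sub_C, Polynomial.natDegree_C_mul_X _ ha,
    mul_one]

/-- The order at infinity bounds the degree. -/
theorem natDegree_le_of_orderTop {p : Polynomial ℂ} {n : ℕ}
    (h : ((-(n : ℚ) : ℚ) : WithTop ℚ) ≤ (p.eval₂ (HahnSeries.C : ℂ →+* L0) tau⁻¹).orderTop) :
    p.natDegree ≤ n := by
  by_cases hp : p = 0
  · rw [hp, Polynomial.natDegree_zero]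
    exact Nat.zero_le n
  have h1 := PolAux.orderTop_inf hp
  rw [PolAux.orderTop_tau_pow] at h1
  cases h2 : (p.eval₂ (HahnSeries.C : ℂ →+* L0) tau⁻¹).orderTop with
  | top =>
    rw [h2] at h1
    exact absurd h1 (by simp)
  | coe x =>
    rw [h2] at h h1
    have h3 : -(n : ℚ) ≤ x := WithTop.coe_le_coe.1 h
    have h4 : x + (p.natDegree : ℚ) = 0 := by exact_mod_cast h1
    have h5 : (p.natDegree : ℚ) ≤ n := by linarith
    exact_mod_cast h5

/-- The order at infinity determines the degree. -/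
theorem natDegree_eq_of_orderTop {p : Polynomial ℂ} {n : ℕ}
    (h : (p.eval₂ (HahnSeries.C : ℂ →+* L0) tau⁻¹).orderTop = ((-(n : ℚ) : ℚ) : WithTop ℚ)) :
    p.natDegree = n := by
  have hp : p ≠ 0 := by
    rintro rfl
    rw [Polynomial.eval₂_zero, HahnSeries.orderTop_zero] at h
    exact WithTop.top_ne_coe h
  have h1 := PolAux.orderTop_inf hp
  rw [PolAux.orderTop_tau_pow, h] at h1
  have h4 : -(n : ℚ) + (p.natDegree : ℚ) = 0 := by exact_mod_cast h1
  have h5 : (p.natDegree : ℚ) = n := by linarith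
  exact_mod_cast h5

/-- Density: it suffices to bound the degree for the lines outside `x_1 = 0`. -/
theorem natDegree_le_of_dense {f : MvPolynomial (Fin 3) ℂ} {P : Fin 3 → ℂ} {e : ℕ}
    (h : ∀ q : Fin 3 → ℂ, q 1 ≠ 0 → (lineP f P q).natDegree ≤ e) (q : Fin 3 → ℂ) :
    (lineP f P q).natDegree ≤ e := by
  set F : Polynomial (MvPolynomial (Fin 3) ℂ) :=
    aeval (fun i => Polynomial.C (X i) + Polynomial.C (C (P i)) * Polynomial.X) f with hF
  have h1 : ∀ q : Fin 3 → ℂ, F.map (eval q) = lineP f P q := by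
    intro q
    rw [hF, Embaux.map_aeval _ (fun z => by rw [MvPolynomial.algebraMap_eq, eval_C]; rfl), lineP]
    congr 2
    funext i
    rw [Polynomial.map_add, Polynomial.map_mul, Polynomial.map_C, Polynomial.map_C,
      Polynomial.map_X, eval_X, eval_C]
  rw [Polynomial.natDegree_le_iff_coeff_eq_zero]
  intro N hN
  have h2 : F.coeff N * X 1 = 0 := by
    refine MvPolynomial.funext fun x => ?_
    rw [map_mul, eval_X, map_zero]
    by_cases hx : x 1 = 0
    · rw [hx, mul_zero]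
    · have h3 : eval x (F.coeff N) = (lineP f P x).coeff N := by
        rw [← h1, Polynomial.coeff_map]
      rw [h3, Polynomial.coeff_eq_zero_of_natDegree_lt (lt_of_le_of_lt (h x hx) hN), zero_mul]
  have h3 : F.coeff N = 0 := (mul_eq_zero.1 h2).resolve_right (X_ne_zero 1)
  rw [← h1, Polynomial.coeff_map, h3, map_zero]

end GeoAux

end MPb07157.TL
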