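import Pool.Agent.Lib.MP_b07157_agD6.Defs

/-!
# Multiplicities and orders at `t = ∞`; the coefficients of `f(X, 1, t)`
-/

noncomputable section

namespace MPb07157.TL

open MvPolynomial

namespace GeoQ

open Gaux PolAux InfAux

/-- The polynomial `f(w + κ X, 1, X)`. -/
def hw (f : MvPolynomial (Fin 3) ℂ) (κ w : ℂ) : Polynomial ℂ :=
  aeval ![Polynomial.C w + Polynomial.C κ * Polynomial.X, 1, Polynomial.X] f

theorem hw_eval (f : MvPolynomial (Fin 3) ℂ) (κ w : ℂ) (t : L0) :
    (hw f κ w).eval₂ (HahnSeries.C : ℂ →+* L0) t =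
      (PL f t).eval (HahnSeries.C w + HahnSeries.C κ * t) := by
  unfold hw PL
  have h : (Polynomial.eval₂RingHom (HahnSeries.C : ℂ →+* L0) t).comp
      ((aeval ![Polynomial.C w + Polynomial.C κ * Polynomial.X, 1, Polynomial.X] :
        MvPolynomial (Fin 3) ℂ →ₐ[ℂ] Polynomial ℂ) : MvPolynomial (Fin 3) ℂ →+* _) =
      (Polynomial.evalRingHom (HahnSeries.C w + HahnSeries.C κ * t)).comp
      ((aeval ![Polynomial.X, 1, Polynomial.C t] :
        MvPolynomial (Fin 3) ℂ →ₐ[ℂ] Polynomial L0) : MvPolynomial (Fin 3) ℂ →+* _) := by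
    refine MvPolynomial.ringHom_ext (fun z => ?_) (fun i => ?_)
    · simp only [RingHom.comp_apply, RingHom.coe_coe, algHom_C, Polynomial.algebraMap_eq,
        Polynomial.coe_eval₂RingHom, Polynomial.eval₂_C, Polynomial.coe_evalRingHom]
      rw [IsScalarTower.algebraMap_apply ℂ L0 (Polynomial L0), Polynomial.algebraMap_eq,
        Polynomial.eval_C, algebraMap_L0]
    · rw [RingHom.comp_apply, RingHom.comp_apply, RingHom.coe_coe, RingHom.coe_coe, aeval_X,
        aeval_X]
      fin_cases i <;> simp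
  exact congrArg (fun φ => φ f) h

theorem hw_natDegree {f : MvPolynomial (Fin 3) ℂ} {κ w : ℂ} {e : ℕ}
    (h : ((-((e : ℚ) + 1) : ℚ) : WithTop ℚ) <
      ((PL f (tau⁻¹ : L0)).eval (HahnSeries.C w + HahnSeries.C κ * tau⁻¹)).orderTop) :
    (hw f κ w).natDegree ≤ e := by
  rw [← hw_eval] at h
  by_cases hp : hw f κ w = 0
  · rw [hp, Polynomial.natDegree_zero]
    exact Nat.zero_le e
  have h1 := orderTop_inf hp
  rw [orderTop_tau_pow] at h1
  have h2 : ((hw f κ w).eval₂ (HahnSeries.C : ℂ →+* L0) (tau⁻¹)).orderTop ≠ ⊤ := by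
    intro h3
    rw [h3, WithTop.top_add] at h1
    exact absurd h1 WithTop.top_ne_zero
  obtain ⟨a, ha⟩ := WithTop.ne_top_iff_exists.1 h2
  rw [← ha] at h h1
  rw [← WithTop.coe_add, ← WithTop.coe_zero, WithTop.coe_inj] at h1
  rw [WithTop.coe_lt_coe] at h
  have h3 : ((hw f κ w).natDegree : ℚ) < e + 1 := by linarith
  have h4 : (hw f κ w).natDegree < e + 1 := by exact_mod_cast h3
  omega

/-- The polynomial `f(q + X Q)`. -/
def gq (f : MvPolynomial (Fin 3) ℂ) (Q q : Fin 3 → ℂ) : Polynomial ℂ :=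
  aeval (fun i => Polynomial.C (q i) + Polynomial.C (Q i) * Polynomial.X) f

theorem gq_comp {f : MvPolynomial (Fin 3) ℂ} {d : ℕ} (hf : f.IsHomogeneous d) (κ : ℂ)
    (q : Fin 3 → ℂ) (hq : q 1 ≠ 0) :
    (gq f ![κ, 0, 1] q).comp (Polynomial.C (q 1) * Polynomial.X - Polynomial.C (q 2)) =
      Polynomial.C (q 1 ^ d) * hw f κ ((q 0 - κ * q 2) / q 1) := by
  unfold gq hw
  have h1 : (Polynomial.aeval (Polynomial.C (q 1) * Polynomial.X - Polynomial.C (q 2) :
      Polynomial ℂ)).comp (aeval (fun i => Polynomial.C (q i) + Polynomial.C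
        ((![κ, 0, 1] : Fin 3 → ℂ) i) * Polynomial.X) : MvPolynomial (Fin 3) ℂ →ₐ[ℂ] Polynomial ℂ) =
      aeval (fun i => Polynomial.C (q 1) * (![Polynomial.C ((q 0 - κ * q 2) / q 1) +
        Polynomial.C κ * Polynomial.X, 1, Polynomial.X] : Fin 3 → Polynomial ℂ) i) := by
    refine MvPolynomial.algHom_ext fun i => ?_
    rw [AlgHom.comp_apply, aeval_X, aeval_X]
    fin_cases i
    · have h2 : Polynomial.C (q 1) * Polynomial.C ((q 0 - κ * q 2) / q 1) =
          Polynomial.C (q 0) - Polynomial.C κ * Polynomial.C (q 2) := by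
        rw [← Polynomial.C_mul, mul_div_cancel₀ _ hq, Polynomial.C_sub, Polynomial.C_mul]
      simp only [Fin.zero_eta, Matrix.cons_val_zero, map_add, map_mul, Polynomial.aeval_C,
        Polynomial.aeval_X, Polynomial.algebraMap_eq]
      linear_combination -h2
    · simp
    · simp only [Fin.reduceFinMk, Matrix.cons_val, map_add, map_mul, Polynomial.aeval_C,
        Polynomial.aeval_X, Polynomial.algebraMap_eq, map_one]
      ring
  have h2 := DFunLike.congr_fun h1 f
  rw [AlgHom.comp_apply] at h2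
  rw [Polynomial.comp_eq_aeval, h2, aeval_def, hom_eval₂ _ hf, ← aeval_def, Polynomial.C_pow]

theorem gq_natDegree {f : MvPolynomial (Fin 3) ℂ} {d : ℕ} (hf : f.IsHomogeneous d) {κ : ℂ}
    {e : ℕ} (h : ∀ w : ℂ, (hw f κ w).natDegree ≤ e) (q : Fin 3 → ℂ) (hq : q 1 ≠ 0) :
    (gq f ![κ, 0, 1] q).natDegree ≤ e := by
  have h1 := congrArg Polynomial.natDegree (gq_comp hf κ q hq)
  rw [Polynomial.natDegree_comp, Polynomial.natDegree_C_mul (pow_ne_zero d hq)] at h1
  have h2 : (Polynomial.C (q 1) * Polynomial.X - Polynomial.C (q 2) : Polynomial ℂ).natDegree =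
      1 := by
    rw [sub_eq_add_neg, ← Polynomial.C_neg]
    exact Polynomial.natDegree_linear hq
  rw [h2, mul_one] at h1
  rw [h1]
  exact h _

theorem gq_map (f : MvPolynomial (Fin 3) ℂ) (Q : Fin 3 → ℂ) (a b y : ℂ) :
    (aeval (fun i => Polynomial.C ((![Polynomial.C a, Polynomial.X, Polynomial.C b] :
      Fin 3 → Polynomial ℂ) i) + Polynomial.C (Polynomial.C (Q i)) * Polynomial.X) f :
        Polynomial (Polynomial ℂ)).map (Polynomial.evalRingHom y) = gq f Q ![a, y, b] := by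
  unfold gq
  have h : (Polynomial.mapRingHom (Polynomial.evalRingHom y)).comp
      ((aeval (fun i => Polynomial.C ((![Polynomial.C a, Polynomial.X, Polynomial.C b] :
      Fin 3 → Polynomial ℂ) i) + Polynomial.C (Polynomial.C (Q i)) * Polynomial.X) :
        MvPolynomial (Fin 3) ℂ →ₐ[ℂ] Polynomial (Polynomial ℂ)) :
          MvPolynomial (Fin 3) ℂ →+* _) =
      ((aeval (fun i => Polynomial.C ((![a, y, b] : Fin 3 → ℂ) i) +
        Polynomial.C (Q i) * Polynomial.X) :
        MvPolynomial (Fin 3) ℂ →ₐ[ℂ] Polynomial ℂ) : MvPolynomial (Fin 3) ℂ →+* _) := by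
    refine MvPolynomial.ringHom_ext (fun z => ?_) (fun i => ?_)
    · simp only [RingHom.comp_apply, RingHom.coe_coe, algHom_C, Polynomial.algebraMap_eq,
        Polynomial.coe_mapRingHom]
      rw [IsScalarTower.algebraMap_apply ℂ (Polynomial ℂ) (Polynomial (Polynomial ℂ)),
        Polynomial.algebraMap_eq, Polynomial.algebraMap_eq, Polynomial.map_C,
        Polynomial.coe_evalRingHom, Polynomial.eval_C]
    · rw [RingHom.comp_apply, RingHom.coe_coe, RingHom.coe_coe, aeval_X, aeval_X]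
      fin_cases i <;> simp
  exact congrArg (fun φ => φ f) h

end GeoQ

open GeoQ

/-- **The multiplicity of the point `(κ, 0, 1)`** is bounded from below by the orders at infinity
of the functions `f(w + κ t, 1, t)`. -/
theorem multGe_of_order {f : MvPolynomial (Fin 3) ℂ} {d : ℕ} (hf : f.IsHomogeneous d) (κ : ℂ)
    (e : ℕ) (h : ∀ w : ℂ, ((-((e : ℚ) + 1) : ℚ) : WithTop ℚ) <
      ((PL f (tau⁻¹ : L0)).eval (HahnSeries.C w + HahnSeries.C κ * tau⁻¹)).orderTop) :
    MultGe f ![κ, 0, 1] e := by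
  have h1 := gq_natDegree hf (fun w => hw_natDegree (h w))
  intro q
  change (gq f ![κ, 0, 1] q).natDegree ≤ e
  rw [Polynomial.natDegree_le_iff_coeff_eq_zero]
  intro N hN
  set G : Polynomial (Polynomial ℂ) := aeval (fun i => Polynomial.C
    ((![Polynomial.C (q 0), Polynomial.X, Polynomial.C (q 2)] : Fin 3 → Polynomial ℂ) i) +
      Polynomial.C (Polynomial.C ((![κ, 0, 1] : Fin 3 → ℂ) i)) * Polynomial.X) f with hG
  have h2 : ∀ y : ℂ, (G.coeff N).eval y = (gq f ![κ, 0, 1] ![q 0, y, q 2]).coeff N := by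
    intro y
    rw [← gq_map, Polynomial.coeff_map]
    rfl
  have h3 : G.coeff N = 0 := by
    refine Polynomial.eq_of_infinite_eval_eq _ _ ?_
    refine Set.Infinite.mono (s := {y : ℂ | y ≠ 0}) (fun y hy => ?_) ?_
    · show Polynomial.eval y (G.coeff N) = Polynomial.eval y 0
      rw [h2, Polynomial.eval_zero]
      exact (Polynomial.natDegree_le_iff_coeff_eq_zero.1 (h1 ![q 0, y, q 2] hy)) N hN
    · have h6 : ({0} : Set ℂ)ᶜ.Infinite := (Set.finite_singleton (0 : ℂ)).infinite_compl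
      exact h6
  have h4 := h2 (q 1)
  rw [h3, Polynomial.eval_zero] at h4
  have h5 : (![q 0, q 1, q 2] : Fin 3 → ℂ) = q := by
    funext i
    fin_cases i <;> rfl
  rw [h5] at h4
  exact h4.symm

/-- The coefficient of `X^j` in `f(X, 1, t)`, a polynomial of `t`. -/
def Bj (f : MvPolynomial (Fin 3) ℂ) (j : ℕ) : Polynomial ℂ :=
  (aeval ![Polynomial.X, 1, Polynomial.C Polynomial.X] f : Polynomial (Polynomial ℂ)).coeff j

theorem Bj_eq (f : MvPolynomial (Fin 3) ℂ) (j : ℕ) :
    Bj f j = ∑ v ∈ f.support, if j = v 0 then Polynomial.C (coeff v f) * Polynomial.X ^ v 2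
      else 0 := by
  unfold Bj
  rw [aeval_def, eval₂_eq', Polynomial.finsetSum_coeff]
  refine Finset.sum_congr rfl fun v _ => ?_
  rw [Fin.prod_univ_three]
  have h2 : algebraMap ℂ (Polynomial (Polynomial ℂ)) (coeff v f) *
      ((![Polynomial.X, 1, Polynomial.C Polynomial.X] : Fin 3 → Polynomial (Polynomial ℂ)) 0 ^ v 0 *
        (![Polynomial.X, 1, Polynomial.C Polynomial.X] : Fin 3 → Polynomial (Polynomial ℂ)) 1 ^ v 1 *
        (![Polynomial.X, 1, Polynomial.C Polynomial.X] :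
          Fin 3 → Polynomial (Polynomial ℂ)) 2 ^ v 2) =
      Polynomial.C (Polynomial.C (coeff v f) * Polynomial.X ^ v 2) * Polynomial.X ^ v 0 := by
    simp only [Matrix.cons_val_zero, Matrix.cons_val_one, Matrix.cons_val, map_mul, map_pow,
      one_pow, mul_one]
    rw [IsScalarTower.algebraMap_apply ℂ (Polynomial ℂ) (Polynomial (Polynomial ℂ)),
      Polynomial.algebraMap_eq, Polynomial.algebraMap_eq]
    ring
  rw [h2, Polynomial.coeff_C_mul_X_pow]

theorem sum_of_hom {f : MvPolynomial (Fin 3) ℂ} {d : ℕ} (hf : f.IsHomogeneous d) {v : Fin 3 →₀ ℕ}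
    (hv : v ∈ f.support) : v 0 + v 1 + v 2 = d := by
  have := hf (mem_support_iff.1 hv)
  rwa [Finsupp.weight_apply, Finsupp.sum_fintype _ _ (fun _ => by simp),
    show (∑ i, v i • (1 : Fin 3 → ℕ) i) = ∑ i, v i from
      Finset.sum_congr rfl fun i _ => by simp, Fin.sum_univ_three] at this

theorem natDegree_Bj_le {f : MvPolynomial (Fin 3) ℂ} {d : ℕ} (hf : f.IsHomogeneous d) (j : ℕ) :
    (Bj f j).natDegree ≤ d - j := by
  rw [Bj_eq]
  refine Polynomial.natDegree_sum_le_of_forall_le _ _ fun v hv => ?_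
  have h := sum_of_hom hf hv
  split_ifs with h1
  · refine (Polynomial.natDegree_C_mul_X_pow_le _ _).trans ?_
    omega
  · rw [Polynomial.natDegree_zero]
    exact Nat.zero_le _

theorem coeff_PL {L : Type} [Field L] [Algebra ℂ L] (f : MvPolynomial (Fin 3) ℂ) (t : L) (j : ℕ) :
    (PL f t).coeff j = (Bj f j).eval₂ (algebraMap ℂ L) t := by
  unfold Bj PL
  have h : (Polynomial.mapRingHom (Polynomial.eval₂RingHom (algebraMap ℂ L) t)).comp
      ((aeval ![Polynomial.X, 1, Polynomial.C Polynomial.X] :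
        MvPolynomial (Fin 3) ℂ →ₐ[ℂ] Polynomial (Polynomial ℂ)) :
          MvPolynomial (Fin 3) ℂ →+* _) =
      ((aeval ![Polynomial.X, 1, Polynomial.C t] :
        MvPolynomial (Fin 3) ℂ →ₐ[ℂ] Polynomial L) : MvPolynomial (Fin 3) ℂ →+* _) := by
    refine MvPolynomial.ringHom_ext (fun z => ?_) (fun i => ?_)
    · simp only [RingHom.comp_apply, RingHom.coe_coe, algHom_C, Polynomial.coe_mapRingHom]
      rw [IsScalarTower.algebraMap_apply ℂ (Polynomial ℂ) (Polynomial (Polynomial ℂ)),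
        IsScalarTower.algebraMap_apply ℂ L (Polynomial L),
        Polynomial.algebraMap_eq, Polynomial.algebraMap_eq, Polynomial.algebraMap_eq,
        Polynomial.map_C, Polynomial.coe_eval₂RingHom, Polynomial.eval₂_C]
    · rw [RingHom.comp_apply, RingHom.coe_coe, RingHom.coe_coe, aeval_X, aeval_X]
      fin_cases i <;> simp
  have h2 : (PL f t) = (aeval ![Polynomial.X, 1, Polynomial.C Polynomial.X] f :
      Polynomial (Polynomial ℂ)).map (Polynomial.eval₂RingHom (algebraMap ℂ L) t) :=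
    (congrArg (fun φ => φ f) h).symm
  change (PL f t).coeff j = _
  rw [h2, Polynomial.coeff_map, Polynomial.coe_eval₂RingHom]

/-- The coefficients at a place at infinity. -/
theorem coeff_PL_L0 (f : MvPolynomial (Fin 3) ℂ) (t : L0) (j : ℕ) :
    (PL f t).coeff j = (Bj f j).eval₂ (HahnSeries.C : ℂ →+* L0) t := by
  rw [coeff_PL]
  rfl

theorem Bj_top {f : MvPolynomial (Fin 3) ℂ} {d : ℕ} (hf : f.IsHomogeneous d) :
    (Bj f 0).coeff d = eval ![0, 0, 1] f := by
  rw [Bj_eq, Polynomial.finsetSum_coeff, eval_eq']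
  refine Finset.sum_congr rfl fun v hv => ?_
  have h := sum_of_hom hf hv
  rw [Fin.prod_univ_three]
  simp only [Matrix.cons_val_zero, Matrix.cons_val_one, Matrix.cons_val, one_pow, mul_one]
  split_ifs with h1
  · rw [Polynomial.coeff_C_mul, Polynomial.coeff_X_pow, ← h1, pow_zero, one_mul]
    by_cases h2 : v 1 = 0
    · rw [if_pos (by omega), h2, pow_zero]
    · rw [if_neg (by omega), zero_pow h2]
  · rw [zero_pow (fun h2 => h1 h2.symm), zero_mul, mul_zero, Polynomial.coeff_zero]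

end MPb07157.TL
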