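import Pool.Agent.Lib.MP_b07157_agD6.Defs

/-!
# Three branches: the second divided difference, proofs
-/

noncomputable section

namespace MPb07157.TL

open MvPolynomial

namespace LamAux

open Zb

variable {f : MvPolynomial (Fin 3) ℂ} {d : ℕ}

/-! ### Orders -/

/-- `x` has order at least `r`. -/
def Ge (x : L0) (r : ℚ) : Prop := ((r : ℚ) : WithTop ℚ) ≤ x.orderTop

theorem Ge.add {x y : L0} {r : ℚ} (hx : Ge x r) (hy : Ge y r) : Ge (x + y) r :=
  le_trans (le_min hx hy) HahnSeries.min_orderTop_le_orderTop_add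

theorem Ge.sub {x y : L0} {r : ℚ} (hx : Ge x r) (hy : Ge y r) : Ge (x - y) r :=
  le_trans (le_min hx hy) HahnSeries.min_orderTop_le_orderTop_sub

theorem Ge.neg {x : L0} {r : ℚ} (hx : Ge x r) : Ge (-x) r := by
  unfold Ge
  rw [HahnSeries.orderTop_neg]
  exact hx

theorem Ge.mul {x y : L0} {r s : ℚ} (hx : Ge x r) (hy : Ge y s) : Ge (x * y) (r + s) := by
  unfold Ge
  rw [HahnSeries.orderTop_mul, WithTop.coe_add]
  exact add_le_add hx hy

theorem Ge.mono {x : L0} {r s : ℚ} (h : Ge x r) (hs : s ≤ r) : Ge x s :=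
  le_trans (WithTop.coe_le_coe.2 hs) h

theorem ge_order {x : L0} (hx : x ≠ 0) {r : ℚ} : Ge x r ↔ r ≤ x.order := by
  unfold Ge
  rw [← HahnSeries.order_eq_orderTop_of_ne_zero hx]
  exact WithTop.coe_le_coe

theorem Ge.pos {x : L0} {r : ℚ} (h : Ge x r) (hr : 0 < r) : 0 < x.orderTop :=
  lt_of_lt_of_le (by exact_mod_cast hr) h

theorem not_ge {x : L0} {r : ℚ} (h : ¬ Ge x r) : x ≠ 0 ∧ x.order < r := by
  have hx : x ≠ 0 := by
    rintro rfl
    apply h
    unfold Ge
    rw [HahnSeries.orderTop_zero]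
    exact le_top
  exact ⟨hx, not_le.1 fun h1 => h ((ge_order hx).2 h1)⟩

/-- Division. -/
theorem ge_of_mul {x y : L0} {r s : ℚ} (h : Ge (x * y) r) (hy : y ≠ 0) (hs : y.order ≤ s) :
    Ge x (r - s) := by
  by_cases hx : x = 0
  · rw [hx]
    unfold Ge
    rw [HahnSeries.orderTop_zero]
    exact le_top
  rw [ge_order (mul_ne_zero hx hy), HahnSeries.order_mul hx hy] at h
  rw [ge_order hx]
  linarith

/-! ### The coefficients -/

theorem coeffs {t : L0} {c : Fin 3 → L0} {m : Fin 3 → ℕ} {A0 : L0} (hm : ∀ i, m i = 1)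
    (h : Fac f t c m A0) :
    (PL f t).coeff 0 = A0 * -(c 0 * c 1 * c 2) ∧
    (PL f t).coeff 1 = A0 * (c 0 * c 1 + c 0 * c 2 + c 1 * c 2) ∧
    (PL f t).coeff 2 = A0 * -(c 0 + c 1 + c 2) ∧ (PL f t).coeff 3 = A0 ∧
    ∀ n, 3 < n → (PL f t).coeff n = 0 := by
  have h1 : PL f t = Cubic.toPoly ⟨A0, A0 * -(c 0 + c 1 + c 2),
      A0 * (c 0 * c 1 + c 0 * c 2 + c 1 * c 2), A0 * -(c 0 * c 1 * c 2)⟩ := by
    rw [← Cubic.C_mul_prod_X_sub_C_eq, h.eq, Fin.prod_univ_three, hm, hm, hm, pow_one, pow_one,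
      pow_one, mul_assoc, mul_assoc, mul_assoc]
  rw [h1]
  exact ⟨Cubic.coeff_eq_d, Cubic.coeff_eq_c, Cubic.coeff_eq_b, Cubic.coeff_eq_a,
    fun n hn => Cubic.coeff_eq_zero hn⟩

theorem coeff_zero_of_pos {t0 : ℂ} {n : ℕ}
    (h : 0 < ((PL f (HahnSeries.C t0 + tau)).coeff n).orderTop) : (Uf f 1 t0).coeff n = 0 :=
  (rd_PL f t0 n).uniq (rd_zero_iff.2 h)

/-- A line is special if the roots are close to each other in comparison with the order of the
leading coefficient. -/
theorem tangent3 {t0 : ℂ} {c : Fin 3 → L0} {m : Fin 3 → ℕ} {A0 : L0} (hm : ∀ i, m i = 1)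
    (h : Fac f (HahnSeries.C t0 + tau) c m A0) {q : ℚ} (hq : 0 ≤ q)
    (hc : ∀ i j, i ≠ j → Ge (c i - c j) (-q)) (hA : 2 * q < A0.order) :
    (Uf f 1 t0).natDegree = 0 := by
  obtain ⟨e0, e1, e2, e3, e4⟩ := coeffs hm h
  have hA0 : Ge A0 A0.order := (ge_order h.ne).2 le_rfl
  have key : ∃ r : ℚ, (∀ i, Ge (c i) r) ∧ 0 < A0.order + r ∧ 0 < A0.order + (r + r) := by
    by_cases h0 : Ge (c 0) (-q)
    · refine ⟨-q, fun i => ?_, by linarith, by linarith⟩
      by_cases hi : i = 0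
      · rw [hi]
        exact h0
      · have h1 := (hc i 0 hi).add h0
        rwa [sub_add_cancel] at h1
    · obtain ⟨hne, hlt⟩ := not_ge h0
      have h1 : ∀ i, c i ≠ 0 ∧ (c i).order = (c 0).order := by
        intro i
        by_cases hi : i = 0
        · rw [hi]
          exact ⟨hne, rfl⟩
        have h2 : (c 0).orderTop < (c i - c 0).orderTop := by
          rw [← HahnSeries.order_eq_orderTop_of_ne_zero hne]
          exact lt_of_lt_of_le (WithTop.coe_lt_coe.2 hlt) (hc i 0 hi)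
        have h3 : (c i).orderTop = (c 0).orderTop := by
          have h4 : c i = c 0 + (c i - c 0) := by ring
          rw [h4]
          exact HahnSeries.orderTop_add_eq_left h2
        have h4 : c i ≠ 0 := by
          intro h5
          rw [h5, HahnSeries.orderTop_zero, ← HahnSeries.order_eq_orderTop_of_ne_zero hne] at h3
          exact absurd h3 WithTop.top_ne_coe
        refine ⟨h4, ?_⟩
        rw [← HahnSeries.order_eq_orderTop_of_ne_zero hne,
          ← HahnSeries.order_eq_orderTop_of_ne_zero h4] at h3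
        exact WithTop.coe_injective h3
      have h2 := (rd_PL f t0 0).nonneg
      rw [e0] at h2
      have h3 : c 0 * c 1 * c 2 ≠ 0 := mul_ne_zero (mul_ne_zero (h1 0).1 (h1 1).1) (h1 2).1
      have h4 : Ge (A0 * -(c 0 * c 1 * c 2)) 0 := h2
      rw [ge_order (mul_ne_zero h.ne (neg_ne_zero.2 h3)),
        HahnSeries.order_mul h.ne (neg_ne_zero.2 h3), HahnSeries.order_neg,
        HahnSeries.order_mul (mul_ne_zero (h1 0).1 (h1 1).1) (h1 2).1,
        HahnSeries.order_mul (h1 0).1 (h1 1).1, (h1 1).2, (h1 2).2] at h4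
      refine ⟨(c 0).order, fun i => (ge_order (h1 i).1).2 (h1 i).2.ge, by linarith, by linarith⟩
  obtain ⟨r, hr, hr1, hr2⟩ := key
  have h3 : A0.order ≤ 0 → False := by
    intro h5
    linarith
  refine Nat.le_zero.1 (Polynomial.natDegree_le_iff_coeff_eq_zero.2 fun n hn => ?_)
  apply coeff_zero_of_pos
  rcases Nat.lt_or_ge 3 n with h4 | h4
  · rw [e4 n h4, HahnSeries.orderTop_zero]
    exact zero_lt_top'
  · interval_cases n
    · rw [e1]
      exact (hA0.mul (((hr 0).mul (hr 1)).add ((hr 0).mul (hr 2)) |>.add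
        ((hr 1).mul (hr 2)))).pos hr2
    · rw [e2]
      exact (hA0.mul (((hr 0).add (hr 1)).add (hr 2)).neg).pos hr1
    · rw [e3]
      exact hA0.pos (not_le.1 h3)

/-! ### The divided difference -/

theorem lam_mul {L : Type} [Field L] {c α : Fin 3 → L} (hc : Function.Injective c)
    {j k : Fin 3} (hjk : j ≠ k) : ∃ i, i ≠ j ∧ i ≠ k ∧
      lam3 c α * (c j - c k) = (α i - α j) / (c i - c j) - (α i - α k) / (c i - c k) := by
  have h01 : c 0 - c 1 ≠ 0 := sub_ne_zero.2 fun h => absurd (hc h) (by decide)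
  have h02 : c 0 - c 2 ≠ 0 := sub_ne_zero.2 fun h => absurd (hc h) (by decide)
  have h12 : c 1 - c 2 ≠ 0 := sub_ne_zero.2 fun h => absurd (hc h) (by decide)
  have h10 : c 1 - c 0 ≠ 0 := sub_ne_zero.2 fun h => absurd (hc h) (by decide)
  have h20 : c 2 - c 0 ≠ 0 := sub_ne_zero.2 fun h => absurd (hc h) (by decide)
  have h21 : c 2 - c 1 ≠ 0 := sub_ne_zero.2 fun h => absurd (hc h) (by decide)
  unfold lam3
  fin_cases j <;> fin_cases k
  · exact absurd rfl hjk
  · refine ⟨2, by decide, by decide, ?_⟩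
    simp only [Fin.zero_eta, Fin.mk_one, Fin.isValue]
    field_simp
    ring
  · refine ⟨1, by decide, by decide, ?_⟩
    simp only [Fin.zero_eta, Fin.reduceFinMk, Fin.isValue]
    field_simp
    ring
  · refine ⟨2, by decide, by decide, ?_⟩
    simp only [Fin.zero_eta, Fin.mk_one, Fin.isValue]
    field_simp
    ring
  · exact absurd rfl hjk
  · refine ⟨0, by decide, by decide, ?_⟩
    simp only [Fin.reduceFinMk, Fin.mk_one, Fin.isValue]
    field_simp
  · refine ⟨1, by decide, by decide, ?_⟩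
    simp only [Fin.zero_eta, Fin.reduceFinMk, Fin.isValue]
    field_simp
    ring
  · refine ⟨0, by decide, by decide, ?_⟩
    simp only [Fin.reduceFinMk, Fin.mk_one, Fin.isValue]
    field_simp
    ring
  · exact absurd rfl hjk

end LamAux

end MPb07157.TL
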