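import Pool.Agent.Lib.MP_b07157_agD6.LamA

/-!
# Three branches: the second divided difference, proofs, second part
-/

noncomputable section

namespace MPb07157.TL

open MvPolynomial

namespace LamAux

open Zb Gaux PolAux

variable {f : MvPolynomial (Fin 3) ℂ} {d : ℕ}

/-! ### The leading coefficient -/

/-- The coefficient of `X^e` in `f(X, 1, t)`. -/
def leadP (f : MvPolynomial (Fin 3) ℂ) (e : ℕ) : Polynomial ℂ :=
  ∑ v ∈ f.support, if v 0 = e then Polynomial.C (f.coeff v) * Polynomial.X ^ v 2 else 0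

theorem coeff_leadP {L : Type} [Field L] [Algebra ℂ L] (f : MvPolynomial (Fin 3) ℂ) (t : L)
    (e : ℕ) : (PL f t).coeff e = Polynomial.aeval t (leadP f e) := by
  rw [Embb.PL_eq, Embb.coeff_aeval, leadP, map_sum]
  refine Finset.sum_congr rfl fun v _ => ?_
  by_cases h : v 0 = e
  · rw [if_pos h, if_pos h, map_mul, map_pow, Polynomial.aeval_X, Polynomial.aeval_C,
      one_pow, one_mul]
  · rw [if_neg h, if_neg h, map_zero]

theorem natDegree_leadP (hf : f.IsHomogeneous d) (e : ℕ) : (leadP f e).natDegree ≤ d - e := by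
  unfold leadP
  refine Polynomial.natDegree_sum_le_of_forall_le _ _ fun v hv => ?_
  have h1 := Embb.sum_eq hf hv
  by_cases h : v 0 = e
  · rw [if_pos h]
    refine (Polynomial.natDegree_C_mul_X_pow_le _ _).trans ?_
    omega
  · rw [if_neg h, Polynomial.natDegree_zero]
    exact Nat.zero_le _

theorem coeff_leadP_top (hf : f.IsHomogeneous d) {e : ℕ} (he : e ≤ d) :
    (leadP f e).coeff (d - e) = (Uf f 0 1).coeff e := by
  have h1 := Embb.coeff_aeval f (0 : ℂ) (1 : ℂ) e
  unfold Uf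
  rw [h1, leadP, Polynomial.finsetSum_coeff]
  refine Finset.sum_congr rfl fun v hv => ?_
  have h2 := Embb.sum_eq hf hv
  by_cases h : v 0 = e
  · rw [if_pos h, if_pos h, Polynomial.coeff_C_mul_X_pow, one_pow, mul_one]
    by_cases h3 : v 1 = 0
    · rw [if_pos (by omega), h3, pow_zero, mul_one]
      rfl
    · rw [if_neg (by omega), zero_pow h3, mul_zero]
  · rw [if_neg h, if_neg h, Polynomial.coeff_zero]

theorem aeval_tK (p : Polynomial ℂ) : Polynomial.aeval (tK f) p =
    algebraMap (RatFunc ℂ) (KK f) (algebraMap (Polynomial ℂ) (RatFunc ℂ) p) := by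
  have h : ((Polynomial.aeval (tK f) : Polynomial ℂ →ₐ[ℂ] KK f) : Polynomial ℂ →+* KK f) =
      (algebraMap (RatFunc ℂ) (KK f)).comp (algebraMap (Polynomial ℂ) (RatFunc ℂ)) := by
    refine Polynomial.ringHom_ext (fun z => ?_) ?_
    · rw [RingHom.coe_coe, Polynomial.aeval_C, RingHom.comp_apply, RatFunc.algebraMap_C, algC]
    · rw [RingHom.coe_coe, Polynomial.aeval_X, RingHom.comp_apply, RatFunc.algebraMap_X]
      rfl
  exact congrArg (fun φ => φ p) h

theorem lead_eq {n : ℕ} {c : Fin n → KK f} {m : Fin n → ℕ} {A0 : KK f}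
    (hF : Fac f (tK f) c m A0) :
    A0 = algebraMap (RatFunc ℂ) (KK f) (algebraMap (Polynomial ℂ) (RatFunc ℂ)
      (leadP f (∑ i, m i))) := by
  rw [← aeval_tK, ← coeff_leadP]
  have hmon : (∏ i, (Polynomial.X - Polynomial.C (c i)) ^ m i).Monic :=
    Polynomial.monic_prod_of_monic _ _ fun i _ => (Polynomial.monic_X_sub_C (c i)).pow (m i)
  have hdeg : (∏ i, (Polynomial.X - Polynomial.C (c i)) ^ m i).natDegree = ∑ i, m i := by
    rw [Polynomial.natDegree_prod_of_monic _ _ fun i _ =>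
      (Polynomial.monic_X_sub_C (c i)).pow (m i)]
    refine Finset.sum_congr rfl fun i _ => ?_
    rw [(Polynomial.monic_X_sub_C (c i)).natDegree_pow, Polynomial.natDegree_X_sub_C, mul_one]
  rw [hF.eq, Polynomial.coeff_C_mul, ← hdeg, hmon.coeff_natDegree, mul_one]

/-! ### Polynomials and places -/

theorem pl_poly {t0 : ℂ} {φ : KK f →+* L0} (hφ : IsPl t0 φ) (p : Polynomial ℂ) :
    φ (algebraMap (RatFunc ℂ) (KK f) (algebraMap (Polynomial ℂ) (RatFunc ℂ) p)) =
      p.eval₂ (HahnSeries.C : ℂ →+* L0) (HahnSeries.C t0 + tau) := by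
  have h3 := hom_poly (φ.comp (algebraMap (RatFunc ℂ) (KK f))) (fun z => hφ.1 z) p
  rw [RingHom.comp_apply, RingHom.comp_apply, hφ.2] at h3
  exact h3

theorem plInf_poly {φ : KK f →+* L0} (hφ : IsPlInf φ) (p : Polynomial ℂ) :
    φ (algebraMap (RatFunc ℂ) (KK f) (algebraMap (Polynomial ℂ) (RatFunc ℂ) p)) =
      p.eval₂ (HahnSeries.C : ℂ →+* L0) (tau⁻¹) := by
  have h3 := hom_poly (φ.comp (algebraMap (RatFunc ℂ) (KK f))) (fun z => hφ.1 z) p
  rw [RingHom.comp_apply, RingHom.comp_apply, hφ.2] at h3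
  exact h3

/-- The order of a polynomial at infinity. -/
theorem order_inf {p : Polynomial ℂ} (hp : p ≠ 0) :
    (p.eval₂ (HahnSeries.C : ℂ →+* L0) (tau⁻¹) : L0) ≠ 0 ∧
    (p.eval₂ (HahnSeries.C : ℂ →+* L0) (tau⁻¹) : L0).order = -(p.natDegree : ℚ) := by
  have h1 := orderTop_inf hp
  rw [orderTop_tau_pow] at h1
  have h2 : (p.eval₂ (HahnSeries.C : ℂ →+* L0) (tau⁻¹) : L0) ≠ 0 := by
    intro h3
    rw [h3, HahnSeries.orderTop_zero, WithTop.top_add] at h1
    exact absurd h1 WithTop.top_ne_zero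
  refine ⟨h2, ?_⟩
  rw [← HahnSeries.order_eq_orderTop_of_ne_zero h2, ← WithTop.coe_add] at h1
  have h3 : (p.eval₂ (HahnSeries.C : ℂ →+* L0) (tau⁻¹) : L0).order + (p.natDegree : ℚ) = 0 := by
    exact_mod_cast h1
  linarith

/-- A polynomial of order greater than one at a place has a double root. -/
theorem two_le_of_order {p : Polynomial ℂ} (hp : p ≠ 0) {t0 : ℂ}
    (h : ((1 : ℚ) : WithTop ℚ) <
      (p.eval₂ (HahnSeries.C : ℂ →+* L0) (HahnSeries.C t0 + tau)).orderTop) :
    2 ≤ p.natDegree := by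
  have h0 : p.eval t0 = 0 := by
    by_contra h1
    rw [orderTop_eval2 h1 tau_pos] at h
    have h2 : (1 : ℚ) < 0 := by exact_mod_cast h
    linarith
  obtain ⟨q, rfl⟩ := Polynomial.dvd_iff_isRoot.2 h0
  have hq : q ≠ 0 := right_ne_zero_of_mul hp
  rw [Polynomial.eval₂_mul, Polynomial.eval₂_sub, Polynomial.eval₂_X, Polynomial.eval₂_C,
    add_sub_cancel_left, HahnSeries.orderTop_mul, Gaux.orderTop_tau] at h
  have h2 : q.eval t0 = 0 := by
    by_contra h1
    rw [orderTop_eval2 h1 tau_pos, add_zero] at h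
    exact lt_irrefl _ h
  obtain ⟨r, rfl⟩ := Polynomial.dvd_iff_isRoot.2 h2
  have hr : r ≠ 0 := right_ne_zero_of_mul hq
  rw [Polynomial.natDegree_mul (Polynomial.X_sub_C_ne_zero _) hq,
    Polynomial.natDegree_mul (Polynomial.X_sub_C_ne_zero _) hr, Polynomial.natDegree_X_sub_C]
  omega

/-- A rational function which is regular at all finite places is a polynomial. -/
theorem poly_of_finite {K' : Type} [Field K'] [Algebra (RatFunc ℂ) K'] (q : RatFunc ℂ)
    (h0 : ∀ (t0 : ℂ) (φ : K' →+* L0), IsPl t0 φ →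
      0 ≤ (φ (algebraMap (RatFunc ℂ) K' q)).orderTop)
    (he0 : ∀ t0 : ℂ, ∃ φ : K' →+* L0, IsPl t0 φ) :
    ∃ Q : Polynomial ℂ, q = algebraMap (Polynomial ℂ) (RatFunc ℂ) Q := by
  have hd : q.denom.natDegree = 0 := by
    by_contra hne
    obtain ⟨t0, ht0⟩ := IsAlgClosed.exists_root q.denom (by
      intro h1
      exact hne (Polynomial.natDegree_eq_of_degree_eq_some (by rw [h1]; rfl)))
    obtain ⟨φ, hφ⟩ := he0 t0
    exact denom_eval_ne q (ψ := φ.comp (algebraMap (RatFunc ℂ) K')) hφ.1 hφ.2 (h0 t0 φ hφ) ht0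
  have hd1 : q.denom = 1 :=
    Polynomial.eq_one_of_monic_natDegree_zero (RatFunc.monic_denom q) hd
  refine ⟨q.num, ?_⟩
  have h4 := RatFunc.num_div_denom q
  rw [hd1, map_one, div_one] at h4
  exact h4.symm

/-- A cubic polynomial with only one root. -/
theorem cube_of_root {A Q : Polynomial ℂ} (hA : A.natDegree = 3) (hQ : Q ≠ 0)
    (hk : Q.natDegree ≤ 1) (h : ∀ t0, A.eval t0 = 0 → Q.eval t0 = 0) :
    ∃ t0 z : ℂ, z ≠ 0 ∧ A = Polynomial.C z * (Polynomial.X - Polynomial.C t0) ^ 3 := by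
  have hA0 : A ≠ 0 := by
    rintro rfl
    rw [Polynomial.natDegree_zero] at hA
    omega
  obtain ⟨t0, ht0⟩ := IsAlgClosed.exists_root A (by
    rw [Polynomial.degree_eq_natDegree hA0, hA]
    decide)
  have hQt := h t0 ht0
  obtain ⟨R, hR⟩ := Polynomial.dvd_iff_isRoot.2 hQt
  have hR0 : R ≠ 0 := by
    rintro rfl
    rw [mul_zero] at hR
    exact hQ hR
  have hR1 : R.natDegree = 0 := by
    rw [hR, Polynomial.natDegree_mul (Polynomial.X_sub_C_ne_zero _) hR0,
      Polynomial.natDegree_X_sub_C] at hk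
    omega
  have huniq : ∀ r ∈ A.roots, r = t0 := by
    intro r hr
    have h1 := h r ((Polynomial.mem_roots hA0).1 hr)
    rw [hR, Polynomial.eval_mul, Polynomial.eval_sub, Polynomial.eval_X, Polynomial.eval_C,
      Polynomial.eq_C_of_natDegree_eq_zero hR1, Polynomial.eval_C] at h1
    rcases mul_eq_zero.1 h1 with h2 | h2
    · exact sub_eq_zero.1 h2
    · exfalso
      apply hR0
      rw [Polynomial.eq_C_of_natDegree_eq_zero hR1, h2, Polynomial.C_0]
  have hs : A.Splits := IsAlgClosed.splits A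
  have h1 := hs.eq_prod_roots
  have h3 : A.roots = Multiset.replicate (Multiset.card A.roots) t0 :=
    Multiset.eq_replicate.2 ⟨rfl, huniq⟩
  have h4 : Multiset.card A.roots = 3 := by
    rw [← hs.natDegree_eq_card_roots, hA]
  rw [h3, h4, Multiset.map_replicate, Multiset.prod_replicate] at h1
  exact ⟨t0, A.leadingCoeff, Polynomial.leadingCoeff_ne_zero.2 hA0, h1⟩

theorem order_cube {z t0 : ℂ} (hz : z ≠ 0) :
    (((Polynomial.C z * (Polynomial.X - Polynomial.C t0) ^ 3 : Polynomial ℂ)).eval₂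
      (HahnSeries.C : ℂ →+* L0) (HahnSeries.C t0 + tau) : L0).order = 3 := by
  rw [Polynomial.eval₂_mul, Polynomial.eval₂_pow, Polynomial.eval₂_sub, Polynomial.eval₂_X,
    Polynomial.eval₂_C, Polynomial.eval₂_C, add_sub_cancel_left]
  have h1 : (HahnSeries.C z : L0) = HahnSeries.single 0 z := rfl
  unfold tau
  rw [h1, HahnSeries.single_pow, HahnSeries.single_mul_single, HahnSeries.order_single]
  · norm_num
  · rw [one_pow, mul_one]
    exact hz

end LamAux

open LamAux Zb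

variable {f : MvPolynomial (Fin 3) ℂ} {d : ℕ} {b : Polynomial ℂ} {K : ℕ}
  {θ : Fin 3 → MvPolynomial (Fin 3) (Polynomial ℂ)}
  {c : Fin 3 → KK f} {m : Fin 3 → ℕ} {A0 : KK f} {α : Fin 3 → KK f}
  {W : WF (KK f) (RatFunc (KK f))}

/-- The order of the divided difference times a difference of roots. -/
theorem LamAux.lam_order (hinj : Function.Injective c) {φ : KK f →+* L0} {r : ℚ}
    (h : ∀ i j, i ≠ j → Ge (φ ((α i - α j) / (c i - c j))) r) {j k : Fin 3} (hjk : j ≠ k) :
    Ge (φ (lam3 c α) * (φ (c j) - φ (c k))) r := by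
  obtain ⟨i, hij, hik, h1⟩ := lam_mul (α := α) hinj hjk
  rw [← map_sub, ← map_mul, h1, map_sub]
  exact (h i j hij).sub (h i k hik)

/-- The divided difference at the finite places. -/
theorem LamAux.lam_fin (G : Glob f d b K θ c m A0 α W) (hm : ∀ i, m i = 1)
    (hns : ∀ t0 : ℂ, ¬ SpecL f 1 t0) {t0 : ℂ} {φ : KK f →+* L0} (hφ : IsPl t0 φ) :
    Ge (φ (lam3 c α)) 0 ∧ (0 < (φ A0).order → 0 < (φ (lam3 c α)).orderTop) ∧
      (2 < (φ A0).order → ((1 : ℚ) : WithTop ℚ) < (φ (lam3 c α)).orderTop) := by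
  have hF := G.fac hφ
  have hinj := G.hF.inj
  have hreg : ∀ {j k : Fin 3}, j ≠ k → Ge (φ (lam3 c α) * (φ (c j) - φ (c k))) 0 :=
    fun hjk => lam_order hinj (fun i j hij => (G.regular hφ hij).1) hjk
  have hne : ∀ j k, j ≠ k → φ (c j) - φ (c k) ≠ 0 := fun j k hjk =>
    sub_ne_zero.2 fun h => hjk (hF.inj h)
  have hsp : ∀ q : ℚ, 0 ≤ q → 2 * q < (φ A0).order →
      ∃ r : ℚ, q < r ∧ Ge (φ (lam3 c α)) r := by
    intro q hq hA
    by_contra hcon
    have h1 := tangent3 hm hF hq (fun i j hij => by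
      by_contra h2
      obtain ⟨h3, h4⟩ := not_ge h2
      have h5 := ge_of_mul (hreg hij) h3 le_rfl
      refine hcon ⟨_, ?_, h5⟩
      linarith) hA
    exact hns t0 (Or.inl (spec_of_natDegree h1))
  have hA0 : 0 ≤ (φ A0).order := by
    have h1 := (rd_PL f t0 (∑ i, m i)).nonneg
    rw [(coeff_top hF).1] at h1
    have h2 : Ge (φ A0) 0 := h1
    exact (ge_order hF.ne).1 h2
  refine ⟨?_, fun h => ?_, fun h => ?_⟩
  · rcases hA0.lt_or_eq with h | h
    · obtain ⟨r, hr, h1⟩ := hsp 0 le_rfl (by linarith)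
      exact h1.mono hr.le
    · have hsum : ∑ i, m i = 3 := by
        rw [Fin.sum_univ_three, hm, hm, hm]
      have h1 := natDegree_of_order hF G.sum h.symm
      have h2 : (Uf f 1 t0).roots.toFinset.card ≠ 1 := fun h3 => hns t0 (Or.inr ⟨h1, h3⟩)
      have h3 : 0 < (Uf f 1 t0).roots.toFinset.card := by
        rw [Finset.card_pos, Multiset.toFinset_nonempty, Ne, ← Multiset.card_eq_zero,
          (IsAlgClosed.splits (Uf f 1 t0)).natDegree_eq_card_roots.symm, h1, ← G.sum, hsum]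
        decide
      obtain ⟨i, j, hij, h4⟩ := exists_pair hF (by omega)
      have h5 := ge_of_mul (hreg hij) (hne i j hij) h4.le
      rwa [sub_zero] at h5
  · obtain ⟨r, hr, h1⟩ := hsp 0 le_rfl (by linarith)
    exact h1.pos hr
  · obtain ⟨r, hr, h1⟩ := hsp 1 (by norm_num) (by linarith)
    exact lt_of_lt_of_le (WithTop.coe_lt_coe.2 hr) h1

/-- The order of the differences of the roots at infinity, if the line at infinity meets the
curve in several points. -/
theorem LamAux.pair_inf (G : Glob f d b K θ c m A0 α W) (h2 : 2 ≤ (Uf f 0 1).roots.toFinset.card)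
    {φ : KK f →+* L0} (hφ : IsPlInf φ) : ∃ i j, i ≠ j ∧ (φ (c i) - φ (c j)).order = -1 := by
  have h1 := G.hF.map φ hφ.alg
  unfold tK at h1
  rw [hφ.2] at h1
  obtain ⟨A0', h3⟩ := h1.swap G.hf
  obtain ⟨i, j, hij, h4⟩ := exists_pair h3 (by rwa [InfBaux.Uf_sw])
  refine ⟨i, j, hij, ?_⟩
  have h5 : φ (c i) - φ (c j) ≠ 0 := sub_ne_zero.2 fun h => hij (h1.inj h)
  rw [← mul_sub, HahnSeries.order_mul InfAux.tau_ne h5] at h4
  have h6 : (tau : L0).order = 1 := by
    unfold tau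
    exact HahnSeries.order_single one_ne_zero
  rw [h6] at h4
  linarith

/-- **The second divided difference**, which is assumed to be rational. -/
theorem LamAux.main (G : Glob f d b K θ c m A0 α W) (hC2 : Ch (sw f) K (sw (θ 2)))
    (hm : ∀ i, m i = 1) (hd6 : d = 6) (hns : ∀ t0 : ℂ, ¬ SpecL f 1 t0)
    (hinf : SpecL f 0 1 ∨
      ((Uf f 0 1).natDegree = 3 ∧ (Uf f 0 1).roots.toFinset.card = 3)) {q : RatFunc ℂ}
    (hq : lam3 c α = algebraMap (RatFunc ℂ) (KK f) q) :
    lam3 c α = 0 ∨ (SpecL f 0 1 ∧ ∃ (A : Polynomial ℂ) (k : ℕ),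
      A0 = algebraMap (RatFunc ℂ) (KK f) (algebraMap (Polynomial ℂ) (RatFunc ℂ) A) ∧
      A.natDegree ≤ 3 ∧ (k = 0 → A.natDegree = 0) ∧ (k ≤ 1 → A.natDegree ≤ 2) ∧
      ∀ φ : KK f →+* L0, IsPlInf φ → ∀ i j, i ≠ j →
        (((k : ℚ) - 1 : ℚ) : WithTop ℚ) ≤ (φ (c i) - φ (c j)).orderTop) := by
  have hsum : ∑ i, m i = 3 := by
    rw [Fin.sum_univ_three, hm, hm, hm]
  have he : f.degreeOf 0 = 3 := by rw [← G.sum, hsum]
  obtain ⟨Q, hQ⟩ := poly_of_finite (K' := KK f) q (fun t0 φ hφ => by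
    rw [← hq]
    exact (lam_fin G hm hns hφ).1) (exists_pl f)
  by_cases hQ0 : Q = 0
  · left
    rw [hq, hQ, hQ0, map_zero, map_zero]
  rw [hQ] at hq
  set A : Polynomial ℂ := leadP f (∑ i, m i) with hAdef
  have hA : A0 = algebraMap (RatFunc ℂ) (KK f) (algebraMap (Polynomial ℂ) (RatFunc ℂ) A) :=
    lead_eq G.hF
  have hAne : A ≠ 0 := by
    intro h
    rw [h, map_zero, map_zero] at hA
    exact G.hF.ne hA
  have hA3 : A.natDegree ≤ 3 := by
    have h1 := natDegree_leadP G.hf (∑ i, m i)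
    rw [hsum, hd6] at h1
    rw [hAdef, hsum]
    exact h1
  -- the roots of the leading coefficient are roots of `Q`
  have hroot : ∀ t0, A.eval t0 = 0 → Q.eval t0 = 0 := by
    intro t0 ht0
    obtain ⟨φ, hφ⟩ := exists_pl f t0
    have hF := G.fac hφ
    have h1 : 0 < (φ A0).order := by
      have h2 : 0 < (φ A0).orderTop := by
        rw [hA, pl_poly hφ]
        exact Gaux.orderTop_eval2_pos ht0 Gaux.tau_pos
      rw [← HahnSeries.order_eq_orderTop_of_ne_zero hF.ne] at h2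
      exact_mod_cast h2
    have h2 := (lam_fin G hm hns hφ).2.1 h1
    rw [hq, pl_poly hφ] at h2
    by_contra h3
    rw [Gaux.orderTop_eval2 h3 Gaux.tau_pos] at h2
    exact lt_irrefl _ h2
  have hk0 : Q.natDegree = 0 → A.natDegree = 0 := by
    intro h1
    by_contra h2
    obtain ⟨t0, ht0⟩ := IsAlgClosed.exists_root A (by
      intro h3
      exact h2 (Polynomial.natDegree_eq_of_degree_eq_some (by rw [h3]; rfl)))
    have h3 := hroot t0 ht0
    rw [Polynomial.eq_C_of_natDegree_eq_zero h1, Polynomial.eval_C] at h3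
    apply hQ0
    rw [Polynomial.eq_C_of_natDegree_eq_zero h1, h3, Polynomial.C_0]
  have hk1 : Q.natDegree ≤ 1 → A.natDegree ≤ 2 := by
    intro h1
    by_contra h2
    obtain ⟨t0, z, hz, h3⟩ := cube_of_root (by omega) hQ0 h1 hroot
    obtain ⟨φ, hφ⟩ := exists_pl f t0
    have h4 : (φ A0).order = 3 := by
      rw [hA, pl_poly hφ, h3]
      exact order_cube hz
    have h5 := (lam_fin G hm hns hφ).2.2 (by rw [h4]; norm_num)
    rw [hq, pl_poly hφ] at h5
    have := two_le_of_order hQ0 h5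
    omega
  rcases hinf with hinf | ⟨hinf, hinf'⟩
  · refine Or.inr ⟨hinf, A, Q.natDegree, hA, hA3, hk0, hk1, fun φ hφ i j hij => ?_⟩
    have h1 := lam_order G.hF.inj (fun i j hij => G.regular_infL hC2 (by omega) hφ hinf hij) hij
    rw [hq, plInf_poly hφ, mul_comm] at h1
    obtain ⟨h2, h3⟩ := order_inf hQ0
    have h4 := ge_of_mul h1 h2 h3.le
    refine h4.mono ?_
    linarith
  · exfalso
    have h1 : A.natDegree = 3 := by
      refine le_antisymm hA3 (Polynomial.le_natDegree_of_ne_zero ?_)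
      have h2 := coeff_leadP_top G.hf (e := 3) (by omega)
      have h3 : d - 3 = 3 := by omega
      rw [h3] at h2
      rw [hAdef, hsum, h2, ← hinf, Polynomial.coeff_natDegree, Polynomial.leadingCoeff_ne_zero]
      rintro h4
      rw [h4, Polynomial.natDegree_zero] at hinf
      omega
    obtain ⟨φ, hφ⟩ := exists_plInf G.hf
    obtain ⟨i, j, hij, h2⟩ := pair_inf G (by omega) hφ
    have h3 := lam_order G.hF.inj (fun i j hij => glob_regular_inf0 G hφ hij) hij
    obtain ⟨h4, h5⟩ := order_inf hQ0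
    have h6 : φ (c i) - φ (c j) ≠ 0 := by
      intro h7
      rw [h7, HahnSeries.order_zero] at h2
      norm_num at h2
    rw [hq, plInf_poly hφ, ge_order (mul_ne_zero h4 h6), HahnSeries.order_mul h4 h6, h5, h2] at h3
    have h7 : (Q.natDegree : ℚ) ≤ 1 := by linarith
    have h8 : Q.natDegree ≤ 1 := by exact_mod_cast h7
    have := hk1 h8
    omega

end MPb07157.TL
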