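import Pool.Agent.Lib.MP_b07157_agD6.Ev

/-!
# The residue along a special line: the local statement
-/

noncomputable section

namespace MPb07157.TL

open MvPolynomial

namespace Res

open TLL

/-- The power `g^(-3/d)`. -/
theorem exists_power {d : ℕ} (hd : 0 < d) (p : PowerSeries ℂ) {g : L0}
    (hp : HahnSeries.ofPowerSeries ℚ ℂ p = g) (hg0 : Lo 0 g) (hg : g.coeff 0 ≠ 0) :
    ∃ H : L0, Lo 0 H ∧ H.coeff 0 ≠ 0 ∧ dtau H = HahnSeries.C (s0 d) * (dtau g / g) * H := by
  have hgne : g ≠ 0 := by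
    rintro rfl
    exact hg (HahnSeries.coeff_zero)
  -- the root of degree `d`
  obtain ⟨R, hR⟩ : ∃ R : L0, R ^ d = g := by
    have h1 := newton_puiseux (Polynomial.X ^ d - Polynomial.C p)
    have h2 : (Polynomial.X ^ d - Polynomial.C p : Polynomial (PowerSeries ℂ)).map
        (HahnSeries.ofPowerSeries ℚ ℂ) = Polynomial.X ^ d - Polynomial.C g := by
      rw [Polynomial.map_sub, Polynomial.map_pow, Polynomial.map_X, Polynomial.map_C, hp]
    rw [h2] at h1
    have h3 : (Polynomial.X ^ d - Polynomial.C g : Polynomial L0).degree ≠ 0 := by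
      rw [Polynomial.degree_X_pow_sub_C hd]
      exact_mod_cast hd.ne'
    obtain ⟨R, hR⟩ := h1.exists_eval_eq_zero h3
    refine ⟨R, ?_⟩
    rw [Polynomial.eval_sub, Polynomial.eval_pow, Polynomial.eval_X, Polynomial.eval_C] at hR
    exact sub_eq_zero.1 hR
  have hR0 : R ≠ 0 := by
    rintro rfl
    rw [zero_pow hd.ne'] at hR
    exact hgne hR.symm
  have hord : R.order = 0 := by
    have h1 := Zaaux.order_pow' hR0 d
    rw [hR] at h1
    have h2 : g.order = 0 := by
      apply le_antisymm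
      · exact HahnSeries.order_le_of_coeff_ne_zero hg
      · by_contra hcon
        push Not at hcon
        exact coeff_ne (ord_top hgne) (hg0 _ hcon)
    rw [h2] at h1
    have hdq : (d : ℚ) ≠ 0 := by exact_mod_cast hd.ne'
    rcases mul_eq_zero.1 h1.symm with h3 | h3
    · exact absurd h3 hdq
    · exact h3
  have hRi : (R⁻¹).order = 0 := by
    have h1 : (R * R⁻¹).order = R.order + (R⁻¹).order := HahnSeries.order_mul hR0 (inv_ne_zero hR0)
    rw [mul_inv_cancel₀ hR0, HahnSeries.order_one, hord, zero_add] at h1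
    exact h1.symm
  have hH0 : R⁻¹ ^ 3 ≠ 0 := pow_ne_zero _ (inv_ne_zero hR0)
  have hHo : (R⁻¹ ^ 3).order = 0 := by
    rw [Zaaux.order_pow' (inv_ne_zero hR0), hRi, mul_zero]
  refine ⟨R⁻¹ ^ 3, ?_, ?_, ?_⟩
  · have h1 := lo_order (R⁻¹ ^ 3)
    rwa [hHo] at h1
  · have h1 := coeff_ne (ord_top hH0)
    rwa [hHo] at h1
  · have hdC : (d : L0) ≠ 0 := by
      have h1 : (d : ℂ) ≠ 0 := by exact_mod_cast hd.ne'
      have h2 : (HahnSeries.C (d : ℂ) : L0) ≠ 0 := by
        rw [Ne, map_eq_zero_iff _ HahnSeries.C_injective]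
        exact h1
      rwa [map_natCast] at h2
    have h1 := congrArg dtau hR
    rw [Derivation.leibniz_pow, smul_eq_mul, nsmul_eq_mul] at h1
    rw [Derivation.leibniz_pow, Derivation.leibniz_inv, smul_eq_mul, nsmul_eq_mul, smul_eq_mul]
    have h3 : (HahnSeries.C (s0 d) : L0) = -(3 / (d : L0)) := by
      unfold s0
      rw [map_neg, map_div₀, map_natCast, map_ofNat]
    have h4 : R ^ d = R ^ (d - 1) * R := by
      rw [← pow_succ, Nat.sub_add_cancel hd]
    have h5 : R ^ (d - 1) ≠ 0 := pow_ne_zero _ hR0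
    rw [h3, ← h1, ← hR, h4]
    simp only [inv_pow]
    field_simp
    push_cast
    ring


section

variable {L F : Type} [Field L] [Field F] [Algebra L F] [Algebra ℂ L] [Algebra ℂ F]
  [IsScalarTower ℂ L F] {ι : Type} [Fintype ι] [DecidableEq ι]

open Eaux in
/-- The second component of the vector field. -/
theorem eqE' {W : WF L F} (T : TF W) {c : ι → L} (hc : Function.Injective c) {σ : ι → L}
    (hσ : NonRes σ) (hσ' : ∀ i, T.δ (σ i) = 0) {A : L} {α β : ι → L} {V₁ V₂ q r ρ : F}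
    (hV₂ : V₂ ∈ SS W c) (hr : r ∈ SS W c) (hρ : ρ ∈ SS W c)
    (h1 : V₁ = lg W c (fun i => σ i * α i) + nb W.dw (lg W c σ) r)
    (h2 : q = -lg W c (fun i => σ i * β i) + nb W.dw (lg W c σ) ρ)
    (h3 : q = nb T.dt (wt T c σ A) V₁ + nb W.dw (lg W c σ) V₂) :
    ∃ κ : L, V₂ = ρ - nb T.dt (wt T c σ A) r + lg W c (fun i => σ i * α i * T.δ (c i)) -
        algebraMap L F κ ∧ ∀ i, σ i * (eps T.δ c σ α A i + β i - κ) = 0 := by
  have : CharZero L := charZero_of_injective_algebraMap (algebraMap ℂ L).injective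
  have hC := conn T hc hσ' A
  -- the class
  have h4 := hC.nt_class (α := fun i => algebraMap L F (α i))
    (fun i => W.dw.map_algebraMap (α i))
  have h5 := hC.nt_nw r
  simp only [nt_eq, nw_eq] at h4 h5
  have e1 : ∑ i, algebraMap L F (σ i) * algebraMap L F (α i) /
      (W.w - algebraMap L F (c i)) = lg W c (fun i => σ i * α i) := by
    rw [lg_eq]
    simp only [map_mul]
  have e2 : ∑ i, algebraMap L F (σ i) * algebraMap L F (α i) *
      (toZ T.dt) (algebraMap L F (c i)) / (W.w - algebraMap L F (c i)) =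
      lg W c (fun i => σ i * α i * T.δ (c i)) := by
    rw [lg_eq]
    simp only [map_mul, toZ_apply, T.dt_alg]
  have e3 : ∑ i, algebraMap L F (σ i) / (W.w - algebraMap L F (c i)) *
      ((toZ T.dt) (algebraMap L F (α i)) + algebraMap L F A * algebraMap L F (α i) +
      ∑ j, algebraMap L F (σ j) * ((algebraMap L F (α i) - algebraMap L F (α j)) /
        (algebraMap L F (c i) - algebraMap L F (c j)) *
        ((toZ T.dt) (algebraMap L F (c i)) - (toZ T.dt) (algebraMap L F (c j))))) =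
      lg W c (fun i => σ i * eps T.δ c σ α A i) := by
    rw [lg_eq]
    refine Finset.sum_congr rfl fun i _ => ?_
    rw [← Finset.add_sum_erase _ _ (Finset.mem_univ i)]
    simp only [eps, map_mul, map_add, map_sum, map_sub, map_div₀, toZ_apply, T.dt_alg, sub_self,
      zero_div, zero_mul, mul_zero, zero_add, mul_div_assoc]
    have e4 : ∀ j, algebraMap L F (σ j) * ((algebraMap L F (α i) - algebraMap L F (α j)) /
        (algebraMap L F (c i) - algebraMap L F (c j)) *
        (algebraMap L F (T.δ (c i)) - algebraMap L F (T.δ (c j)))) =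
        algebraMap L F (σ j) * (algebraMap L F (α i) - algebraMap L F (α j)) *
        ((algebraMap L F (T.δ (c i)) - algebraMap L F (T.δ (c j))) /
        (algebraMap L F (c i) - algebraMap L F (c j))) := fun j => by ring
    simp only [e4]
    ring
  rw [e1, e2, e3] at h4
  -- the difference
  have h6 : lg W c (fun i => σ i * (eps T.δ c σ α A i + β i)) =
      nb W.dw (lg W c σ) (ρ - nb T.dt (wt T c σ A) r - V₂ +
        lg W c (fun i => σ i * α i * T.δ (c i))) := by
    have e5 : lg W c (fun i => σ i * (eps T.δ c σ α A i + β i)) =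
        lg W c (fun i => σ i * eps T.δ c σ α A i) + lg W c (fun i => σ i * β i) := by
      unfold lg
      rw [← Finset.sum_add_distrib]
      refine Finset.sum_congr rfl fun i _ => ?_
      simp only [mul_add, map_add, add_mul]
    have e6 : ∀ x y, nb W.dw (lg W c σ) (x + y) = nb W.dw (lg W c σ) x + nb W.dw (lg W c σ) y := by
      intro x y
      unfold nb
      rw [map_add]
      ring
    have e7 : ∀ x y, nb W.dw (lg W c σ) (x - y) = nb W.dw (lg W c σ) x - nb W.dw (lg W c σ) y := by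
      intro x y
      unfold nb
      rw [map_sub]
      ring
    have e8 : ∀ x y, nb T.dt (wt T c σ A) (x + y) =
        nb T.dt (wt T c σ A) x + nb T.dt (wt T c σ A) y := by
      intro x y
      unfold nb
      rw [map_add]
      ring
    rw [e5, ← h4, e6, e7, e7, ← h5]
    rw [h1, e8] at h3
    rw [h2] at h3
    linear_combination -h3
  obtain ⟨κ, hκ, h7⟩ := uniq W hc hσ
    ((SS W c).add_mem ((SS W c).sub_mem ((SS W c).sub_mem hρ (nt_mem T c σ A hr)) hV₂)
      (lg_mem W c _)) h6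
  refine ⟨κ, ?_, fun i => ?_⟩
  · linear_combination -hκ
  · rw [mul_sub, h7 i, sub_self]

end

variable {F : Type} [Field F] [Algebra L0 F] [Algebra ℂ F] [IsScalarTower ℂ L0 F]
  {ι : Type} [Fintype ι] [DecidableEq ι]
  {f : MvPolynomial (Fin 3) ℂ} {d : ℕ} {b : Polynomial ℂ} {K : ℕ}
  {θ : Fin 3 → MvPolynomial (Fin 3) (Polynomial ℂ)}
  {t0 : ℂ} {c : ι → L0} {m : ι → ℕ} {A0 : L0} {α : ι → L0}

/-- The second component of the vector field, on the line `w = w0`. -/
theorem second (hf : f.IsHomogeneous d) (h : Thet f d b K θ) (W : WF L0 F)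
    (hF : Fac f (HahnSeries.C t0 + tau) c m A0) (hd : ∑ i, m i < d) (h1 : 3 * ∑ i, m i ≠ d)
    (h2 : 3 * ∑ i, m i ≠ 2 * d) (hα : Cl f d K θ W (HahnSeries.C t0 + tau) c m α)
    {w0 : ℂ} (hw0 : ∀ i, HahnSeries.C w0 ≠ c i) :
    ∃ κ r0 : L0,
      (aeval (pt (HahnSeries.C w0) (HahnSeries.C t0 + tau)) f)⁻¹ ^ K *
        (aeval (pt (HahnSeries.C w0) (HahnSeries.C t0 + tau)) (spec (s0 d) (θ 0)) -
          HahnSeries.C w0 *
            aeval (pt (HahnSeries.C w0) (HahnSeries.C t0 + tau)) (spec (s0 d) (θ 1))) =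
      HahnSeries.C (b.eval (s0 d) / (1 + s0 d * ((∑ i, m i : ℕ) : ℂ))) * HahnSeries.C w0 -
        (dtau r0 + HahnSeries.C (s0 d) *
          (dtau (aeval (pt (HahnSeries.C w0) (HahnSeries.C t0 + tau)) f) /
            aeval (pt (HahnSeries.C w0) (HahnSeries.C t0 + tau)) f) * r0) +
        ∑ i, s0m d m i * α i * dtau (c i) * (HahnSeries.C w0 - c i)⁻¹ - κ ∧
      (∀ i, eps dtau c (s0m d m) α (HahnSeries.C (s0 d) * (dtau A0 / A0)) i +
        HahnSeries.C (b.eval (s0 d) / (1 + s0 d * ((∑ i, m i : ℕ) : ℂ))) * c i = κ) ∧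
      HahnSeries.C (s0 d) * (dtau (aeval (pt (HahnSeries.C w0) (HahnSeries.C t0 + tau)) f) /
            aeval (pt (HahnSeries.C w0) (HahnSeries.C t0 + tau)) f) =
        HahnSeries.C (s0 d) * (dtau A0 / A0) -
          ∑ i, s0m d m i * dtau (c i) * (HahnSeries.C w0 - c i)⁻¹ := by
  obtain ⟨T, hT⟩ := exists_TF W dtau
  obtain ⟨hσ, hσ0, hS⟩ := nonRes_s0 (L := L0) hF.pos hd h1 h2
  have hd0 : 0 < d := lt_of_le_of_lt (Nat.zero_le _) hd
  have hdC : (d : ℂ) ≠ 0 := Nat.cast_ne_zero.mpr hd0.ne'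
  obtain ⟨r, hr, hV1⟩ := hα
  have hds : (d : ℂ) * s0 d + 3 = 0 := by
    unfold s0
    field_simp
    ring
  have htt : T.dt (algebraMap L0 F (HahnSeries.C t0 + tau)) = 1 := by
    rw [T.dt_alg, hT, map_add, EQ0aux.dtau_tau, ← algebraMap_L0, Derivation.map_algebraMap, zero_add,
      map_one]
  have hwt : (W.dw.restrictScalars ℂ) (algebraMap L0 F (HahnSeries.C t0 + tau)) = 0 :=
    W.dw.map_algebraMap _
  have hl : W.w ≠ algebraMap ℂ F 0 := by
    have h3 := w_ne W (0 : L0)
    rwa [map_zero] at h3 ⊢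
  have hE := euler_part hf h (dt := T.dt) (dw := W.dw.restrictScalars ℂ) (w := W.w)
    (t := algebraMap L0 F (HahnSeries.C t0 + tau)) W.dw_w hwt T.dt_w htt (g_ne W hF)
    (lam := 0) hl (s0 d)
  rw [hds, map_zero, zero_mul, zero_mul, add_zero, sub_zero] at hE
  rw [omega_t0 T hF (s0 d), hT] at hE
  have hE2 : algebraMap ℂ F (s0 d) *
      ((W.dw.restrictScalars ℂ) (aeval (pt W.w (algebraMap L0 F (HahnSeries.C t0 + tau))) f) /
        aeval (pt W.w (algebraMap L0 F (HahnSeries.C t0 + tau))) f) =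
      lg W c (s0m d m) := omega_w0 W hF (s0 d)
  rw [hE2] at hE
  set κ : ℂ := b.eval (s0 d) / (1 + s0 d * ((∑ i, m i : ℕ) : ℂ)) with hκ
  have hδ : ∀ i, T.δ ((s0m d m : ι → L0) i) = 0 := fun i => T.δ.map_algebraMap _
  set V₂ : F := (aeval (pt W.w (algebraMap L0 F (HahnSeries.C t0 + tau))) f)⁻¹ ^ K *
    (aeval (pt W.w (algebraMap L0 F (HahnSeries.C t0 + tau))) (spec (s0 d) (θ 0)) -
      W.w * aeval (pt W.w (algebraMap L0 F (HahnSeries.C t0 + tau))) (spec (s0 d) (θ 1)))
    with hV₂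
  have hw : W.w ∈ SS W c := Algebra.subset_adjoin (Set.mem_insert _ _)
  have hV₂m : V₂ ∈ SS W c :=
    (SS W c).mul_mem ((SS W c).pow_mem (g_inv_mem W hF) K)
      ((SS W c).sub_mem (pt_mem W _) ((SS W c).mul_mem hw (pt_mem W _)))
  have hρm : algebraMap L0 F (HahnSeries.C κ) * W.w ∈ SS W c :=
    (SS W c).mul_mem ((SS W c).algebraMap_mem _) hw
  have hq : algebraMap ℂ F (b.eval (s0 d)) =
      -lg W c (fun i => s0m d m i * (HahnSeries.C κ * c i)) +
        nb W.dw (lg W c (s0m d m)) (algebraMap L0 F (HahnSeries.C κ) * W.w) := by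
    have e1 : W.dw (algebraMap L0 F (HahnSeries.C κ) * W.w) =
        algebraMap L0 F (HahnSeries.C κ) := by
      rw [Derivation.leibniz, W.dw.map_algebraMap, W.dw_w, smul_zero, add_zero, smul_eq_mul,
        mul_one]
    have e2 : lg W c (s0m d m) * W.w = algebraMap ℂ F (s0 d * ((∑ i, m i : ℕ) : ℂ)) +
        lg W c (fun i => s0m d m i * c i) := by
      unfold lg
      rw [Finset.sum_mul]
      have e3 : algebraMap ℂ F (s0 d * ((∑ i, m i : ℕ) : ℂ)) =
          ∑ i, algebraMap L0 F (s0m d m i) := by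
        unfold s0m
        rw [← map_sum, ← map_sum, ← Finset.mul_sum,
          IsScalarTower.algebraMap_apply ℂ L0 F]
        push_cast
        rfl
      rw [e3, ← Finset.sum_add_distrib]
      refine Finset.sum_congr rfl fun i _ => ?_
      have e4 : W.w - algebraMap L0 F (c i) ≠ 0 := sub_ne_zero.mpr (w_ne W (c i))
      rw [map_mul]
      field_simp
      ring
    have e5 : lg W c (fun i => s0m d m i * (HahnSeries.C κ * c i)) =
        algebraMap L0 F (HahnSeries.C κ) * lg W c (fun i => s0m d m i * c i) := by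
      unfold lg
      rw [Finset.mul_sum]
      refine Finset.sum_congr rfl fun i _ => ?_
      simp only [map_mul]
      ring
    have e6 : algebraMap L0 F (HahnSeries.C κ) = algebraMap ℂ F κ := by
      rw [IsScalarTower.algebraMap_apply ℂ L0 F, algebraMap_L0]
    have e7 : b.eval (s0 d) = κ * (1 + s0 d * ((∑ i, m i : ℕ) : ℂ)) := by
      rw [hκ, div_mul_cancel₀ _ hS]
    unfold nb
    rw [e1, e5, e6, e7]
    have e8 : lg W c (s0m d m) * (algebraMap ℂ F κ * W.w) =
        algebraMap ℂ F κ * (lg W c (s0m d m) * W.w) := by ring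
    rw [e8, e2, map_mul, map_add, map_one]
    ring
  obtain ⟨κ', hid, hκ'⟩ := eqE' T hF.inj hσ hδ (A := HahnSeries.C (s0 d) * (dtau A0 / A0))
    (α := α) (β := fun i => HahnSeries.C κ * c i) (V₂ := V₂) hV₂m hr hρm hV1 hq hE
  have hδw : T.δ (HahnSeries.C w0 : L0) = 0 := by
    rw [← algebraMap_L0]
    exact T.δ.map_algebraMap _
  obtain ⟨r0, hr0⟩ := Ev.exists_of_mem hw0 hr
  -- values
  have hg := Ev.mv W (HahnSeries.C w0) (HahnSeries.C t0 + tau) f
  have hg0 : aeval (pt (HahnSeries.C w0) (HahnSeries.C t0 + tau)) f ≠ 0 := by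
    intro h3
    have h4 := g_eq W hF
    have h5 : Ev W (HahnSeries.C w0) (algebraMap L0 F A0 * ∏ i, (W.w - algebraMap L0 F (c i)) ^ m i)
        (A0 * ∏ i, (HahnSeries.C w0 - c i) ^ m i) := by
      refine (Ev.alg W _ A0).mul ?_
      have h6 : ∀ s : Finset ι, Ev W (HahnSeries.C w0)
          (∏ i ∈ s, (W.w - algebraMap L0 F (c i)) ^ m i)
          (∏ i ∈ s, (HahnSeries.C w0 - c i) ^ m i) := by
        intro s
        induction s using Finset.induction_on with
        | empty =>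
          have := Ev.alg W (HahnSeries.C w0) 1
          rwa [map_one] at this
        | insert a s ha ih =>
          rw [Finset.prod_insert ha, Finset.prod_insert ha]
          exact (((Ev.w W _).sub (Ev.alg W _ (c a))).pow _).mul ih
      exact h6 _
    rw [h4] at hg
    have h6 := hg.unique h5
    rw [h3] at h6
    refine mul_ne_zero hF.ne (Finset.prod_ne_zero_iff.2 fun i _ => pow_ne_zero _ ?_) h6.symm
    exact sub_ne_zero.2 (hw0 i)
  have hev2 : Ev W (HahnSeries.C w0) V₂ ((aeval (pt (HahnSeries.C w0) (HahnSeries.C t0 + tau)) f)⁻¹ ^ K *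
        (aeval (pt (HahnSeries.C w0) (HahnSeries.C t0 + tau)) (spec (s0 d) (θ 0)) -
          HahnSeries.C w0 *
            aeval (pt (HahnSeries.C w0) (HahnSeries.C t0 + tau)) (spec (s0 d) (θ 1)))) :=
    ((hg.inv hg0).pow K).mul ((Ev.mv W _ _ _).sub ((Ev.w W _).mul (Ev.mv W _ _ _)))
  have hω : HahnSeries.C (s0 d) * (dtau (aeval (pt (HahnSeries.C w0) (HahnSeries.C t0 + tau)) f) /
            aeval (pt (HahnSeries.C w0) (HahnSeries.C t0 + tau)) f) =
        HahnSeries.C (s0 d) * (dtau A0 / A0) -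
          ∑ i, s0m d m i * dtau (c i) * (HahnSeries.C w0 - c i)⁻¹ := by
    have h3 := omega_t0 T hF (s0 d)
    have h4 := Ev.wt T hw0 (fun i => algebraMap ℂ L0 (s0 d * (m i : ℂ)))
      (algebraMap ℂ L0 (s0 d) * (T.δ A0 / A0))
    rw [← h3] at h4
    have h5 : Ev W (HahnSeries.C w0) (algebraMap ℂ F (s0 d) *
        (T.dt (aeval (pt W.w (algebraMap L0 F (HahnSeries.C t0 + tau))) f) /
        aeval (pt W.w (algebraMap L0 F (HahnSeries.C t0 + tau))) f))
        (algebraMap ℂ L0 (s0 d) *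
        (T.δ (aeval (pt (HahnSeries.C w0) (HahnSeries.C t0 + tau)) f) /
        aeval (pt (HahnSeries.C w0) (HahnSeries.C t0 + tau)) f)) := by
      rw [div_eq_mul_inv, div_eq_mul_inv, IsScalarTower.algebraMap_apply ℂ L0 F]
      exact (Ev.alg W _ _).mul ((hg.dt T hδw).mul (hg.inv hg0))
    have h6 := h5.unique h4
    rw [hT] at h6
    rw [algebraMap_L0] at h6
    exact h6
  refine ⟨κ', r0, ?_, fun i => ?_, hω⟩
  · have h3 : Ev W (HahnSeries.C w0) V₂ (HahnSeries.C κ * HahnSeries.C w0 -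
        (T.δ r0 + (HahnSeries.C (s0 d) * (dtau A0 / A0) -
          ∑ i, s0m d m i * T.δ (c i) * (HahnSeries.C w0 - c i)⁻¹) * r0) +
        ∑ i, s0m d m i * α i * T.δ (c i) * (HahnSeries.C w0 - c i)⁻¹ - κ') := by
      rw [hid]
      refine (((((Ev.alg W _ _).mul (Ev.w W _)).sub ?_).add (Ev.lg hw0 _)).sub (Ev.alg W _ κ'))
      exact (hr0.dt T hδw).add ((Ev.wt T hw0 _ _).mul hr0)
    have h4 := hev2.unique h3
    rw [h4, hT, hω]
  · have h3 := (mul_eq_zero.mp (hκ' i)).resolve_left (hσ0 i)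
    rw [hT] at h3
    exact sub_eq_zero.mp h3


theorem lo_C (z : ℂ) : Lo 0 (HahnSeries.C z : L0) := by
  intro q hq
  rw [HahnSeries.C_apply, HahnSeries.coeff_single_of_ne hq.ne]

theorem lo_sum {κ : Type} (s : Finset κ) {n : ℚ} {x : κ → L0} (h : ∀ i ∈ s, Lo n (x i)) :
    Lo n (∑ i ∈ s, x i) := by
  classical
  induction s using Finset.induction_on with
  | empty =>
    rw [Finset.sum_empty]
    exact Lo.zero n
  | insert a s ha ih =>
    rw [Finset.sum_insert ha]
    exact (h a (Finset.mem_insert_self a s)).add (ih fun i hi => h i (Finset.mem_insert_of_mem hi))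

theorem lo_pow {x : L0} (h : Lo 0 x) (k : ℕ) : Lo 0 (x ^ k) := by
  induction k with
  | zero =>
    rw [pow_zero, ← HahnSeries.C_one]
    exact lo_C 1
  | succ k ih =>
    rw [pow_succ]
    have := ih.mul h
    rwa [add_zero] at this

/-- The logarithmic derivative has a pole of order at most one. -/
theorem lo_logd {x : L0} (hx : x ≠ 0) : Lo (-1) (dtau x / x) := by
  have h := (LLaux.logd hx 1).1
  rwa [HahnSeries.C_one, one_mul] at h

theorem ofPS_aeval (w0 t0 : ℂ) (f : MvPolynomial (Fin 3) ℂ) :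
    HahnSeries.ofPowerSeries ℚ ℂ
        (aeval ![PowerSeries.C w0, 1, PowerSeries.C t0 + PowerSeries.X] f) =
      aeval (pt (HahnSeries.C w0) (HahnSeries.C t0 + tau)) f := by
  have h : (HahnSeries.ofPowerSeries ℚ ℂ).comp
      ((aeval ![PowerSeries.C w0, 1, PowerSeries.C t0 + PowerSeries.X] :
        MvPolynomial (Fin 3) ℂ →ₐ[ℂ] PowerSeries ℂ) : MvPolynomial (Fin 3) ℂ →+* PowerSeries ℂ) =
      ((aeval (pt (HahnSeries.C w0) (HahnSeries.C t0 + tau)) :
        MvPolynomial (Fin 3) ℂ →ₐ[ℂ] L0) : MvPolynomial (Fin 3) ℂ →+* L0) := by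
    refine MvPolynomial.ringHom_ext (fun z => ?_) (fun i => ?_)
    · rw [RingHom.comp_apply, RingHom.coe_coe, RingHom.coe_coe, MvPolynomial.algHom_C,
        MvPolynomial.algHom_C, Embaux.ofPS_algebraMap, algebraMap_L0]
    · rw [RingHom.comp_apply, RingHom.coe_coe, RingHom.coe_coe, aeval_X, aeval_X]
      fin_cases i
      · exact HahnSeries.ofPowerSeries_C w0
      · exact map_one _
      · show HahnSeries.ofPowerSeries ℚ ℂ (PowerSeries.C t0 + PowerSeries.X) = _
        rw [map_add, HahnSeries.ofPowerSeries_C, HahnSeries.ofPowerSeries_X]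
        rfl
  exact congrArg (fun φ => φ f) h

/-- **The residue lemma**, local form. -/
theorem residue_local (hf : f.IsHomogeneous d) (h : Thet f d b K θ) (W : WF L0 F)
    (hF : Fac f (HahnSeries.C t0 + tau) c m A0) (hd : ∑ i, m i < d) (h1 : 3 * ∑ i, m i ≠ d)
    (h2 : 3 * ∑ i, m i ≠ 2 * d) (hα : Cl f d K θ W (HahnSeries.C t0 + tau) c m α)
    {w0 : ℂ} (hw0 : ∀ i, HahnSeries.C w0 ≠ c i) (hv : eval ![w0, 1, t0] f ≠ 0) (i0 : ι)
    (hα1 : ∀ i, Lo 1 (α i - α i0)) {β : ℂ} (hβ : β ≠ 0)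
    (hc : Lo 0 (c i0 - HahnSeries.single (-1 : ℚ) β)) : b.eval (s0 d) = 0 := by
  obtain ⟨κ, r0, hid, hκ, hω⟩ := second hf h W hF hd h1 h2 hα hw0
  obtain ⟨hσ, hσ0, hS⟩ := nonRes_s0 (L := L0) hF.pos hd h1 h2
  have hd0 : 0 < d := lt_of_le_of_lt (Nat.zero_le _) hd
  set B : ℂ := b.eval (s0 d) / (1 + s0 d * ((∑ i, m i : ℕ) : ℂ)) with hB
  set g : L0 := aeval (pt (HahnSeries.C w0) (HahnSeries.C t0 + tau)) f with hg
  have hpt : ∀ p : MvPolynomial (Fin 3) ℂ,
      aeval (pt (HahnSeries.C w0) (HahnSeries.C t0 + tau)) p ∈ Zaaux.O ∧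
      (aeval (pt (HahnSeries.C w0) (HahnSeries.C t0 + tau)) p).coeff 0 =
        eval ![w0, 1, t0] p := by
    intro p
    have h3 := Zaaux.aeval_red (a := HahnSeries.C w0) (Zaaux.C_mem w0) t0 p
    rwa [Zaaux.coeff_C_zero] at h3
  have hlo : ∀ p : MvPolynomial (Fin 3) ℂ,
      Lo 0 (aeval (pt (HahnSeries.C w0) (HahnSeries.C t0 + tau)) p : L0) := by
    intro p
    exact lo_iff.2 (Zaaux.mem_O.1 (hpt p).1)
  have hg0 : g.coeff 0 ≠ 0 := by
    rw [hg, (hpt f).2]
    exact hv
  have hgne : g ≠ 0 := by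
    intro h3
    rw [h3] at hg0
    exact hg0 HahnSeries.coeff_zero
  have hgord : g.order = 0 := by
    apply le_antisymm
    · exact HahnSeries.order_le_of_coeff_ne_zero hg0
    · by_contra hcon
      push Not at hcon
      exact coeff_ne (ord_top hgne) (hlo f _ hcon)
  have hginv : Lo 0 (g⁻¹) := by
    apply Lo.of_mul (ord_top hgne)
    rw [mul_inv_cancel₀ hgne, hgord, add_zero, ← HahnSeries.C_one]
    exact lo_C 1
  -- the power
  obtain ⟨H, hH1, hH2, hH3⟩ := exists_power hd0 _ (ofPS_aeval w0 t0 f) (hlo f) hg0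
  rw [← hg] at hH3
  set ω : L0 := HahnSeries.C (s0 d) * (dtau g / g) with hωd
  set E : L0 := ∑ i, s0m d m i * (α i - α i0) * dtau (c i) * (HahnSeries.C w0 - c i)⁻¹ -
    ∑ l ∈ Finset.univ.erase i0, s0m d m l * (α i0 - α l) *
      (dtau (c i0 - c l) / (c i0 - c l)) with hE
  have hcne : ∀ i, HahnSeries.C w0 - c i ≠ 0 := fun i => sub_ne_zero.2 (hw0 i)
  have hσlo : ∀ i, Lo 0 (s0m d m i : L0) := by
    intro i
    unfold s0m
    rw [algebraMap_L0]
    exact lo_C _
  have hElo : Lo 0 E := by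
    refine Lo.sub (lo_sum _ fun i _ => ?_) (lo_sum _ fun l hl => ?_)
    · have h3 : Lo (-1) (dtau (c i) * (HahnSeries.C w0 - c i)⁻¹) := by
        have h4 := (lo_logd (hcne i)).neg
        have h5 : dtau (HahnSeries.C w0 : L0) = 0 := by
          rw [← algebraMap_L0]
          exact dtau.map_algebraMap _
        rw [map_sub, h5] at h4
        have h6 : -((0 - dtau (c i)) / (HahnSeries.C w0 - c i)) =
            dtau (c i) * (HahnSeries.C w0 - c i)⁻¹ := by
          rw [div_eq_mul_inv]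
          ring
        rwa [h6] at h4
      have h6 := ((hσlo i).mul (hα1 i)).mul h3
      rw [← mul_assoc] at h6
      have e : (0 + 1 + -1 : ℚ) = 0 := by norm_num
      rwa [e] at h6
    · have hne : c i0 - c l ≠ 0 := sub_ne_zero.2 fun h3 =>
        Finset.ne_of_mem_erase hl (hF.inj h3).symm
      have h4 : Lo 1 (α i0 - α l) := by
        have h5 := (hα1 l).neg
        rwa [neg_sub] at h5
      have h6 := ((hσlo l).mul h4).mul (lo_logd hne)
      have e : (0 + 1 + -1 : ℚ) = 0 := by norm_num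
      rwa [e] at h6
  -- the identity
  have hmain : g⁻¹ ^ K * (aeval (pt (HahnSeries.C w0) (HahnSeries.C t0 + tau)) (spec (s0 d) (θ 0)) -
      HahnSeries.C w0 *
        aeval (pt (HahnSeries.C w0) (HahnSeries.C t0 + tau)) (spec (s0 d) (θ 1))) =
      HahnSeries.C B * (HahnSeries.C w0 - c i0) - (dtau r0 + ω * r0) -
        (dtau (α i0) + ω * α i0) + E := by
    rw [hid]
    have h3 := hκ i0
    unfold eps at h3
    have h4 : ∑ i, s0m d m i * α i * dtau (c i) * (HahnSeries.C w0 - c i)⁻¹ =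
        ∑ i, s0m d m i * (α i - α i0) * dtau (c i) * (HahnSeries.C w0 - c i)⁻¹ +
          α i0 * ∑ i, s0m d m i * dtau (c i) * (HahnSeries.C w0 - c i)⁻¹ := by
      rw [Finset.mul_sum, ← Finset.sum_add_distrib]
      refine Finset.sum_congr rfl fun i _ => ?_
      ring
    rw [h4, hE, ← h3]
    linear_combination (α i0) * hω
  have hdH : ∀ x : L0, (dtau x + ω * x) * H = dtau (x * H) := by
    intro x
    rw [Derivation.leibniz, smul_eq_mul, smul_eq_mul, hH3]
    ring
  have hcd : ∀ x : L0, (dtau x : L0).coeff (-1) = 0 := by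
    intro x
    rw [coeff_dtau]
    norm_num
  -- the coefficients
  have hL : Lo 0 (g⁻¹ ^ K * (aeval (pt (HahnSeries.C w0) (HahnSeries.C t0 + tau))
      (spec (s0 d) (θ 0)) - HahnSeries.C w0 *
        aeval (pt (HahnSeries.C w0) (HahnSeries.C t0 + tau)) (spec (s0 d) (θ 1)))) := by
    have h3 := (lo_C w0).mul (hlo (spec (s0 d) (θ 1)))
    rw [add_zero] at h3
    have h4 := (lo_pow hginv K).mul ((hlo (spec (s0 d) (θ 0))).sub h3)
    rwa [add_zero] at h4
  have h5 : HahnSeries.C B * (HahnSeries.C w0 - c i0) * H =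
      g⁻¹ ^ K * (aeval (pt (HahnSeries.C w0) (HahnSeries.C t0 + tau)) (spec (s0 d) (θ 0)) -
      HahnSeries.C w0 *
        aeval (pt (HahnSeries.C w0) (HahnSeries.C t0 + tau)) (spec (s0 d) (θ 1))) * H +
      dtau (r0 * H) + dtau (α i0 * H) - E * H := by
    rw [hmain, ← hdH, ← hdH]
    ring
  have h6 : (HahnSeries.C B * (HahnSeries.C w0 - c i0) * H : L0).coeff (-1) = 0 := by
    rw [h5, HahnSeries.coeff_sub, HahnSeries.coeff_add, HahnSeries.coeff_add, hcd, hcd]
    have h7 := hL.mul hH1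
    have h8 := hElo.mul hH1
    rw [add_zero] at h7 h8
    rw [h7 (-1) (by norm_num), h8 (-1) (by norm_num)]
    ring
  have h7 : (HahnSeries.C w0 - c i0) * H =
      (HahnSeries.C w0 * H - (c i0 - HahnSeries.single (-1 : ℚ) β) * H) -
        HahnSeries.single (-1 : ℚ) β * H := by ring
  have h8 : ((HahnSeries.C w0 - c i0) * H : L0).coeff (-1) = -(β * H.coeff 0) := by
    have h9 : Lo 0 (HahnSeries.C w0 * H - (c i0 - HahnSeries.single (-1 : ℚ) β) * H) := by
      have e1 := (lo_C w0).mul hH1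
      have e2 := hc.mul hH1
      rw [add_zero] at e1 e2
      exact e1.sub e2
    have h10 : (HahnSeries.single (-1 : ℚ) β * H : L0).coeff (0 + -1) = β * H.coeff 0 :=
      HahnSeries.coeff_single_mul_add
    rw [zero_add] at h10
    rw [h7, HahnSeries.coeff_sub, h9 (-1) (by norm_num), h10]
    ring
  rw [mul_assoc, Finaux.coeff_C_mul, h8] at h6
  have h9 : B = 0 := by
    rcases mul_eq_zero.1 h6 with h10 | h10
    · exact h10
    · exact absurd (neg_eq_zero.1 h10) (mul_ne_zero hβ hH2)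
  rw [hB] at h9
  exact (div_eq_zero_iff.1 h9).resolve_right hS

end Res

end MPb07157.TL
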